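import Pool.Agent.BB.Defs

/-!
# Koebe covering and distortion theorems (MP_b9540e_an, module Koebe)

* `exists_inverse`: injective holomorphic functions on open sets have nonvanishing derivative and
  holomorphic inverse.
* `koebe_cover`: the image of `ball a r` contains `ball (h a) (r |h'(a)| / 16)`.
* `koebe_dist`: distortion theorem.
-/

open Set Metric Filter Topology

namespace Pool.Agent.BB

section Inverse

variable {U : Set ℂ} {h : ℂ → ℂ}

lemma nhds_le_map_of_inj (hU : IsOpen U) (hd : DifferentiableOn ℂ h U) (hi : InjOn h U) {z : ℂ}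
    (hz : z ∈ U) : 𝓝 (h z) ≤ map h (𝓝 z) := by
  have ha : AnalyticAt ℂ h z := hd.analyticAt (hU.mem_nhds hz)
  rcases ha.eventually_constant_or_nhds_le_map_nhds with hc | hc
  · exfalso
    have h1 : ∀ᶠ w in 𝓝 z, w = z := by
      filter_upwards [hc, hU.mem_nhds hz] with w hw hwU using hi hwU hz hw
    have h2 : ∀ᶠ w in 𝓝[≠] z, w = z := h1.filter_mono nhdsWithin_le_nhds
    have h3 : ∀ᶠ w in 𝓝[≠] z, w ≠ z := eventually_mem_nhdsWithin
    have h4 : ∀ᶠ w in 𝓝[≠] z, False := by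
      filter_upwards [h2, h3] with w a b using b a
    rw [eventually_false_iff_eq_bot] at h4
    exact (inferInstance : NeBot (𝓝[≠] z)).ne h4
  · exact hc

lemma isOpen_image_of_inj (hU : IsOpen U) (hd : DifferentiableOn ℂ h U) (hi : InjOn h U)
    {V : Set ℂ} (hV : IsOpen V) (hVU : V ⊆ U) : IsOpen (h '' V) := by
  rw [isOpen_iff_mem_nhds]
  rintro _ ⟨z, hz, rfl⟩
  exact nhds_le_map_of_inj hU hd hi (hVU hz) (image_mem_map (hV.mem_nhds hz))

/-- The inverse of an injective holomorphic function is holomorphic. -/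
theorem exists_inverse (hU : IsOpen U) (hd : DifferentiableOn ℂ h U) (hi : InjOn h U) :
    ∃ k : ℂ → ℂ, (∀ z ∈ U, k (h z) = z) ∧ DifferentiableOn ℂ k (h '' U) ∧
      ∀ z ∈ U, deriv h z ≠ 0 ∧ deriv k (h z) = (deriv h z)⁻¹ := by
  classical
  set k : ℂ → ℂ := Function.invFunOn h U with hk
  have hki : ∀ z ∈ U, k (h z) = z := fun z hz =>
    hi (Function.invFunOn_mem ⟨z, hz, rfl⟩) hz (Function.invFunOn_eq ⟨z, hz, rfl⟩)
  have hopen : IsOpen (h '' U) := isOpen_image_of_inj hU hd hi hU subset_rfl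
  have hkc : ∀ z ∈ U, ContinuousAt k (h z) := by
    intro z hz
    rw [ContinuousAt, hki z hz, tendsto_def]
    intro V hV
    have h1 : h '' (V ∩ U) ∈ 𝓝 (h z) :=
      nhds_le_map_of_inj hU hd hi hz (image_mem_map (inter_mem hV (hU.mem_nhds hz)))
    filter_upwards [h1]
    rintro _ ⟨w, hw, rfl⟩
    simpa [hki w hw.2] using hw.1
  have hkd0 : ∀ z ∈ U, deriv h z ≠ 0 → DifferentiableAt ℂ k (h z) := by
    intro z hz hne
    have h1 : HasDerivAt h (deriv h z) (k (h z)) := by
      rw [hki z hz]; exact (hd.differentiableAt (hU.mem_nhds hz)).hasDerivAt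
    refine (HasDerivAt.of_local_left_inverse (hkc z hz) h1 hne ?_).differentiableAt
    filter_upwards [hopen.mem_nhds ⟨z, hz, rfl⟩]
    rintro _ ⟨w, hw, rfl⟩
    rw [hki w hw]
  have hkd : ∀ z ∈ U, DifferentiableAt ℂ k (h z) := by
    intro z hz
    have ha : AnalyticAt ℂ h z := hd.analyticAt (hU.mem_nhds hz)
    -- zeros of the derivative are isolated
    rcases ha.deriv.eventually_eq_zero_or_eventually_ne_zero with h0 | h0
    · exfalso
      -- `h` is locally constant
      obtain ⟨ε, hε, hb⟩ := Metric.eventually_nhds_iff_ball.mp (h0.and (hU.mem_nhds hz))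
      have hc : ∀ w ∈ ball z ε, h w = h z := by
        intro w hw
        refine (convex_ball z ε).is_const_of_fderivWithin_eq_zero (𝕜 := ℂ)
          (fun x hx => ?_) (fun x hx => ?_) hw (mem_ball_self hε)
        · exact (hd.differentiableAt (hU.mem_nhds (hb x hx).2)).differentiableWithinAt
        · rw [fderivWithin_of_isOpen isOpen_ball hx]
          have h2 : deriv h x = 0 := (hb x hx).1
          ext
          simp [h2]
      have h3 : z + (ε / 2 : ℝ) ∈ ball z ε := by
        simp [abs_of_pos hε]; linarith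
      have h4 := hi (hb _ h3).2 hz (hc _ h3)
      have h5 : (ε / 2 : ℝ) = 0 := by
        have : ((ε / 2 : ℝ) : ℂ) = 0 := by linear_combination h4
        exact_mod_cast this
      linarith
    · refine (Complex.analyticAt_of_differentiable_on_punctured_nhds_of_continuousAt ?_
        (hkc z hz)).differentiableAt
      obtain ⟨V, hVo, hzV, hV⟩ : ∃ V, IsOpen V ∧ z ∈ V ∧ ∀ w ∈ V, w ≠ z → deriv h w ≠ 0 := by
        rw [eventually_nhdsWithin_iff] at h0
        obtain ⟨V, hV, hVo, hzV⟩ := _root_.eventually_nhds_iff.mp h0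
        exact ⟨V, hVo, hzV, fun w hw hwz => hV w hw hwz⟩
      rw [eventually_nhdsWithin_iff]
      have h1 : h '' (V ∩ U) ∈ 𝓝 (h z) :=
        nhds_le_map_of_inj hU hd hi hz (image_mem_map (inter_mem (hVo.mem_nhds hzV)
          (hU.mem_nhds hz)))
      filter_upwards [h1]
      rintro _ ⟨w, hw, rfl⟩ hne
      exact hkd0 w hw.2 (hV w hw.1 (fun e => hne (by simp [e])))
  have hprod : ∀ z ∈ U, deriv k (h z) * deriv h z = 1 := by
    intro z hz
    have h1 : HasDerivAt (k ∘ h) (deriv k (h z) * deriv h z) z :=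
      (hkd z hz).hasDerivAt.comp z (hd.differentiableAt (hU.mem_nhds hz)).hasDerivAt
    have h2 : HasDerivAt (k ∘ h) 1 z := by
      refine (hasDerivAt_id z).congr_of_eventuallyEq ?_
      filter_upwards [hU.mem_nhds hz] with w hw
      simp [hki w hw]
    exact h1.unique h2
  refine ⟨k, hki, ?_, fun z hz => ?_⟩
  · rintro _ ⟨z, hz, rfl⟩
    exact (hkd z hz).differentiableWithinAt
  · have := hprod z hz
    have hne : deriv h z ≠ 0 := by
      intro h0; rw [h0, mul_zero] at this; exact zero_ne_one this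
    exact ⟨hne, by field_simp; linear_combination this⟩

end Inverse

section Koebe

lemma exists_sqrt_ball {u : ℂ → ℂ} (hu : DifferentiableOn ℂ u (ball 0 1))
    (h0 : ∀ z ∈ ball (0:ℂ) 1, u z ≠ 0) (h1 : u 0 = 1) :
    ∃ s : ℂ → ℂ, DifferentiableOn ℂ s (ball 0 1) ∧ s 0 = 1 ∧
      ∀ z ∈ ball (0:ℂ) 1, s z ^ 2 = u z := by
  have hL : DifferentiableOn ℂ (fun z => deriv u z / u z) (ball 0 1) :=
    (hu.deriv isOpen_ball).div hu h0
  obtain ⟨L, hL0, hL⟩ := (hL.isExactOn_ball).with_val_at 0 0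
  have hm : (0:ℂ) ∈ ball (0:ℂ) 1 := mem_ball_self one_pos
  have hv : ∀ z ∈ ball (0:ℂ) 1, HasDerivAt (fun z => u z * Complex.exp (- L z)) 0 z := by
    intro z hz
    have hd := (hu.differentiableAt (isOpen_ball.mem_nhds hz)).hasDerivAt
    have := hd.mul ((hL z hz).neg.cexp)
    refine this.congr_deriv ?_
    have := h0 z hz
    field_simp
    ring
  have hconst : ∀ z ∈ ball (0:ℂ) 1, u z * Complex.exp (- L z) = 1 := by
    intro z hz
    have := IsOpen.is_const_of_deriv_eq_zero (𝕜 := ℂ) isOpen_ball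
      (convex_ball (0:ℂ) 1).isPreconnected
      (f := fun z => u z * Complex.exp (- L z))
      (fun z hz => (hv z hz).differentiableAt.differentiableWithinAt)
      (fun z hz => (hv z hz).deriv) hz hm
    simpa [h1, hL0] using this
  refine ⟨fun z => Complex.exp (L z / 2), ?_, by simp [hL0], fun z hz => ?_⟩
  · intro z hz
    exact (((hL z hz).div_const 2).cexp).differentiableAt.differentiableWithinAt
  · have h2 := hconst z hz
    have h3 : Complex.exp (L z / 2) ^ 2 = Complex.exp (L z) := by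
      rw [← Complex.exp_nat_mul]; congr 1; push_cast; ring
    show Complex.exp (L z / 2) ^ 2 = u z
    rw [h3]
    rw [Complex.exp_neg] at h2
    have h4 := Complex.exp_ne_zero (L z)
    field_simp at h2
    exact h2.symm

/-- normalised bounded univalent functions on the unit disc -/
structure Cls (M : ℝ) (f : ℂ → ℂ) : Prop where
  diff : DifferentiableOn ℂ f (ball 0 1)
  inj : InjOn f (ball 0 1)
  zero : f 0 = 0
  der : deriv f 0 = 1
  bd : ∀ z ∈ ball (0:ℂ) 1, ‖f z‖ ≤ M

lemma Cls.small {M : ℝ} (hM : 1 ≤ M) {f : ℂ → ℂ} (hf : Cls M f) :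
    ball 0 (1 / (8 * (M + 1))) ⊆ f '' ball 0 1 := by
  have hm : (0:ℂ) ∈ ball (0:ℂ) 1 := mem_ball_self one_pos
  have hM1 : 0 < M + 1 := by linarith
  set q := dslope f 0 with hq
  have hqd : DifferentiableOn ℂ q (ball 0 1) :=
    (Complex.differentiableOn_dslope (isOpen_ball.mem_nhds hm)).mpr hf.diff
  have hqb : ∀ z ∈ ball (0:ℂ) 1, ‖q z‖ ≤ M := by
    intro z hz
    have := Complex.norm_dslope_le_div_of_mapsTo_ball (R₂ := M) hf.diff (fun w hw => by
      simpa [hf.zero] using hf.bd w hw) hz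
    simpa using this
  have hq0 : q 0 = 1 := by simp [hq, dslope_same, hf.der]
  have hq1 : ∀ z ∈ ball (0:ℂ) 1, ‖q z - 1‖ ≤ (M + 1) * ‖z‖ := by
    intro z hz
    have := Complex.dist_le_div_mul_dist_of_mapsTo_ball (R₂ := M + 1) hqd (fun w hw => by
      rw [mem_closedBall, dist_eq_norm, hq0]
      calc ‖q w - 1‖ ≤ ‖q w‖ + ‖(1:ℂ)‖ := norm_sub_le _ _
        _ ≤ M + 1 := by simpa using hqb w hw) hz
    simpa [dist_eq_norm, hq0] using this
  set r1 := 1 / (2 * (M + 1)) with hr1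
  have hr1p : 0 < r1 := by positivity
  have hr1l : r1 ≤ 1 / 4 := by
    rw [hr1]
    apply one_div_le_one_div_of_le <;> linarith
  have hlow : ∀ z ∈ sphere (0:ℂ) r1, r1 / 2 ≤ ‖f z - f 0‖ := by
    intro z hz
    have hzn : ‖z‖ = r1 := by simpa using hz
    have hzb : z ∈ ball (0:ℂ) 1 := by simp [hzn]; linarith
    have h1 := hq1 z hzb
    have h2 : (M + 1) * ‖z‖ = 1 / 2 := by rw [hzn, hr1]; field_simp
    have h3 : 1 / 2 ≤ ‖q z‖ := by
      have : ‖(1:ℂ)‖ ≤ ‖q z‖ + ‖q z - 1‖ := by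
        calc ‖(1:ℂ)‖ = ‖q z - (q z - 1)‖ := by congr 1; ring
          _ ≤ _ := norm_sub_le _ _
      rw [norm_one] at this
      linarith
    have h4 : f z - f 0 = z * q z := by
      have := sub_smul_dslope f 0 z
      simpa [smul_eq_mul] using this.symm
    rw [h4, norm_mul, hzn]
    nlinarith
  have hdc : DiffContOnCl ℂ f (ball 0 r1) :=
    (hf.diff.mono (closedBall_subset_ball (by linarith))).diffContOnCl_ball subset_rfl
  have hfreq : ∃ᶠ z in 𝓝 (0:ℂ), f z ≠ f 0 := by
    have h1 : ∀ᶠ z in 𝓝[≠] (0:ℂ), f z ≠ f 0 := by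
      filter_upwards [eventually_mem_nhdsWithin, mem_nhdsWithin_of_mem_nhds
        (isOpen_ball.mem_nhds hm)] with z hz hzb
      exact fun e => hz (hf.inj hzb hm e)
    exact (h1.frequently).filter_mono nhdsWithin_le_nhds
  have := hdc.ball_subset_image_closedBall hr1p hlow hfreq
  rw [hf.zero] at this
  refine (ball_subset_ball ?_).trans (this.trans (image_mono (closedBall_subset_ball
    (by linarith))))
  rw [hr1]
  apply le_of_eq
  field_simp
  norm_num

lemma Cls.step {M : ℝ} (hM : 1 ≤ M) {c : ℝ} (hc : 0 < c)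
    (hP : ∀ g, Cls M g → ball 0 c ⊆ g '' ball 0 1) {f : ℂ → ℂ} (hf : Cls M f) {a : ℂ}
    (ha : a ∉ f '' ball 0 1) (ha16 : ‖a‖ < 1 / 16) : c ≤ 16 * ‖a‖ ^ 2 := by
  have hm : (0:ℂ) ∈ ball (0:ℂ) 1 := mem_ball_self one_pos
  have ha0 : a ≠ 0 := fun e => ha ⟨0, hm, by rw [hf.zero, e]⟩
  have han : 0 < ‖a‖ := norm_pos_iff.mpr ha0
  set u : ℂ → ℂ := fun z => 1 - f z / a with hu
  have hud : DifferentiableOn ℂ u (ball 0 1) := (hf.diff.div_const a).const_sub 1
  have hu0 : ∀ z ∈ ball (0:ℂ) 1, u z ≠ 0 := by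
    intro z hz e
    refine ha ⟨z, hz, ?_⟩
    have : f z / a = 1 := by
      have : 1 - f z / a = 0 := e
      linear_combination -this
    rw [div_eq_one_iff_eq ha0] at this
    exact this
  have hu1 : u 0 = 1 := by simp [hu, hf.zero]
  obtain ⟨s, hsd, hs0, hs⟩ := exists_sqrt_ball hud hu0 hu1
  have huinj : ∀ z ∈ ball (0:ℂ) 1, ∀ w ∈ ball (0:ℂ) 1, s z ^ 2 = s w ^ 2 → z = w := by
    intro z hz w hw e
    rw [hs z hz, hs w hw] at e
    apply hf.inj hz hw
    have : f z / a = f w / a := by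
      have : 1 - f z / a = 1 - f w / a := e
      linear_combination -this
    field_simp at this
    exact this
  have hs' : deriv s 0 = - 1 / (2 * a) := by
    have h1 := (hsd.differentiableAt (isOpen_ball.mem_nhds hm)).hasDerivAt
    have h2 : HasDerivAt (fun z => s z ^ 2) (2 * s 0 * deriv s 0) 0 := by
      simpa using h1.fun_pow 2
    have h3 : HasDerivAt u (- (1 / a)) 0 := by
      have h4 := (hf.diff.differentiableAt (isOpen_ball.mem_nhds hm)).hasDerivAt
      rw [hf.der] at h4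
      exact (h4.div_const a).const_sub 1
    have h5 : HasDerivAt (fun z => s z ^ 2) (- (1 / a)) 0 := by
      refine h3.congr_of_eventuallyEq ?_
      filter_upwards [isOpen_ball.mem_nhds hm] with z hz using hs z hz
    have h6 := h2.unique h5
    rw [hs0] at h6
    field_simp
    field_simp at h6
    linear_combination h6
  -- the new function
  have hg : Cls M (fun z => (s z - 1) * (-2 * a)) := by
    refine ⟨(hsd.sub_const 1).mul_const _, ?_, by simp [hs0], ?_, ?_⟩
    · intro z hz w hw e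
      have h2a : (-2 * a) ≠ 0 := by simp [ha0]
      have : s z - 1 = s w - 1 := mul_right_cancel₀ h2a e
      apply huinj z hz w hw
      have h3 : s z = s w := by linear_combination this
      rw [h3]
    · have h1 := ((hsd.differentiableAt (isOpen_ball.mem_nhds hm)).hasDerivAt.sub_const
        1).mul_const (-2 * a)
      rw [h1.deriv, hs']
      field_simp
    · intro z hz
      have h1 : ‖s z‖ ^ 2 ≤ 1 + M / ‖a‖ := by
        rw [← norm_pow, hs z hz]
        calc ‖u z‖ ≤ ‖(1:ℂ)‖ + ‖f z / a‖ := norm_sub_le _ _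
          _ ≤ 1 + M / ‖a‖ := by
            rw [norm_one, norm_div]
            gcongr
            exact hf.bd z hz
      have h2 : (2 * ‖a‖ * ‖s z‖) ^ 2 ≤ 4 * ‖a‖ ^ 2 + 4 * ‖a‖ * M := by
        have : (2 * ‖a‖ * ‖s z‖) ^ 2 = 4 * ‖a‖ ^ 2 * ‖s z‖ ^ 2 := by ring
        rw [this]
        calc 4 * ‖a‖ ^ 2 * ‖s z‖ ^ 2 ≤ 4 * ‖a‖ ^ 2 * (1 + M / ‖a‖) := by gcongr
          _ = 4 * ‖a‖ ^ 2 + 4 * ‖a‖ * M := by field_simp
      have h3 : 2 * ‖a‖ * ‖s z‖ ≤ 3 / 4 * M := by
        refine abs_le_of_sq_le_sq' ?_ (by positivity) |>.2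
        refine h2.trans ?_
        nlinarith
      calc ‖(s z - 1) * (-2 * a)‖ = ‖s z - 1‖ * (2 * ‖a‖) := by
            rw [norm_mul, norm_mul]; simp
        _ ≤ (‖s z‖ + 1) * (2 * ‖a‖) := by
            gcongr
            exact (norm_sub_le _ _).trans (by simp)
        _ ≤ M := by nlinarith
  have hcov := hP _ hg
  set ρ := c / (2 * ‖a‖) with hρ
  have hρ0 : 0 < ρ := by positivity
  have homit : ∀ z ∈ ball (0:ℂ) 1, ρ ≤ ‖s z + 1‖ := by
    intro z hz
    by_contra hlt
    push Not at hlt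
    have h1 : (-s z - 1) * (-2 * a) ∈ ball (0:ℂ) c := by
      rw [mem_ball_zero_iff, norm_mul]
      have h2 : ‖-s z - 1‖ = ‖s z + 1‖ := by rw [← norm_neg]; congr 1; ring
      have h3 : ‖-2 * a‖ = 2 * ‖a‖ := by rw [norm_mul]; simp
      rw [h2, h3]
      calc ‖s z + 1‖ * (2 * ‖a‖) < ρ * (2 * ‖a‖) := by gcongr
        _ = c := by rw [hρ]; field_simp
    obtain ⟨w, hw, hwe⟩ := hcov h1
    have h2a : (-2 * a) ≠ 0 := by simp [ha0]
    have h4 : s w - 1 = -s z - 1 := mul_right_cancel₀ h2a hwe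
    have h5 : s w = - s z := by linear_combination h4
    have h6 : z = w := huinj z hz w hw (by rw [h5]; ring)
    subst h6
    have h7 : s z = 0 := by linear_combination h5 / 2
    have h8 := hs z hz
    rw [h7] at h8
    exact hu0 z hz (by simpa using h8.symm)
  have hne : ∀ z ∈ ball (0:ℂ) 1, s z + 1 ≠ 0 := by
    intro z hz e
    have := homit z hz
    rw [e, norm_zero] at this
    linarith
  set H : ℂ → ℂ := fun z => (s z + 1)⁻¹ with hH
  have hHd : DifferentiableOn ℂ H (ball 0 1) := (hsd.add_const 1).inv hne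
  have hH' : deriv H 0 = 1 / (8 * a) := by
    have h1 := ((hsd.differentiableAt (isOpen_ball.mem_nhds hm)).hasDerivAt.add_const
        1).inv (hne 0 hm)
    have h2 : deriv H 0 = _ := h1.deriv
    rw [h2, hs', hs0]
    field_simp
    norm_num
  have hcauchy : ∀ r : ℝ, 0 < r → r < 1 → r * ‖deriv H 0‖ ≤ 1 / ρ := by
    intro r hr0 hr1
    have h1 : DiffContOnCl ℂ H (ball 0 r) :=
      (hHd.mono (closedBall_subset_ball hr1)).diffContOnCl_ball subset_rfl
    have h2 := Complex.norm_deriv_le_of_forall_mem_sphere_norm_le hr0 h1 (C := 1 / ρ) (by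
      intro z hz
      have hzb : z ∈ ball (0:ℂ) 1 := by
        have : ‖z‖ = r := by simpa using hz
        simp [this, hr1]
      rw [hH]
      simp only [norm_inv]
      rw [one_div]
      exact inv_anti₀ hρ0 (homit z hzb))
    rw [le_div_iff₀ hr0] at h2
    linarith
  have hcauchy1 : ‖deriv H 0‖ ≤ 1 / ρ := by
    by_contra hlt
    push Not at hlt
    have hpos : 0 < ‖deriv H 0‖ := lt_of_le_of_lt (by positivity) hlt
    obtain ⟨r, hr1, hr2⟩ := exists_between (show (1 / ρ) / ‖deriv H 0‖ < 1 by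
      rw [div_lt_one hpos]; exact hlt)
    have hr0 : 0 < r := lt_of_le_of_lt (by positivity) hr1
    have := hcauchy r hr0 hr2
    rw [div_lt_iff₀ hpos] at hr1
    linarith
  rw [hH', norm_div, norm_one, norm_mul] at hcauchy1
  have h8 : ‖(8:ℂ)‖ = 8 := by simp
  rw [h8, hρ] at hcauchy1
  have h9 : 1 / (c / (2 * ‖a‖)) = 2 * ‖a‖ / c := by field_simp
  rw [h9, div_le_div_iff₀ (by positivity) hc] at hcauchy1
  nlinarith

lemma Cls.cover {M : ℝ} (hM : 1 ≤ M) {f : ℂ → ℂ} (hf : Cls M f) :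
    ball 0 (1 / 16) ⊆ f '' ball 0 1 := by
  set S : Set ℝ := {c | 0 < c ∧ c ≤ 1 / 16 ∧ ∀ g, Cls M g → ball 0 c ⊆ g '' ball 0 1} with hS
  have hc0 : 1 / (8 * (M + 1)) ∈ S := by
    refine ⟨by positivity, ?_, fun g hg => hg.small hM⟩
    apply one_div_le_one_div_of_le <;> linarith
  have hbdd : BddAbove S := ⟨1 / 16, fun c hc => hc.2.1⟩
  set c := sSup S with hcdef
  have hcpos : 0 < c := lt_of_lt_of_le hc0.1 (le_csSup hbdd hc0)
  have hcle : c ≤ 1 / 16 := csSup_le ⟨_, hc0⟩ fun c hc => hc.2.1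
  have hP : ∀ g, Cls M g → ball 0 c ⊆ g '' ball 0 1 := by
    intro g hg x hx
    rw [mem_ball_zero_iff] at hx
    obtain ⟨c', hc', hlt⟩ := exists_lt_of_lt_csSup ⟨_, hc0⟩ hx
    exact hc'.2.2 g hg (by simpa using hlt)
  have hceq : c = 1 / 16 := by
    by_contra hne
    have hclt : c < 1 / 16 := lt_of_le_of_ne hcle hne
    have hsq : Real.sqrt c * Real.sqrt c = c := Real.mul_self_sqrt hcpos.le
    have hsqpos : 0 < Real.sqrt c := Real.sqrt_pos.mpr hcpos
    have hmem : min (Real.sqrt c / 4) (1 / 16) ∈ S := by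
      refine ⟨by positivity, min_le_right _ _, fun g hg x hx => ?_⟩
      rw [mem_ball_zero_iff, lt_min_iff] at hx
      by_contra hxn
      have h1 := Cls.step hM hcpos hP hg hxn hx.2
      nlinarith [hx.1, norm_nonneg x]
    have h1 := le_csSup hbdd hmem
    rw [← hcdef] at h1
    rcases min_le_iff.mp h1 with h2 | h2
    · have h3 : Real.sqrt c < 1 / 4 := by
        rw [Real.sqrt_lt' (by norm_num)]; linarith
      nlinarith
    · linarith
  rw [← hceq]
  exact hP f hf

/-- Koebe covering theorem with the constant 1/16 -/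
theorem koebe_cover {h : ℂ → ℂ} {a : ℂ} {r : ℝ} (hr : 0 < r)
    (hd : DifferentiableOn ℂ h (ball a r)) (hi : InjOn h (ball a r)) :
    ball (h a) (r * ‖deriv h a‖ / 16) ⊆ h '' ball a r := by
  rcases eq_or_ne (deriv h a) 0 with h0 | h0
  · simp [h0]
  have hn : 0 < ‖deriv h a‖ := norm_pos_iff.mpr h0
  have hma : a ∈ ball a r := mem_ball_self hr
  intro w hw
  rw [mem_ball, dist_eq_norm] at hw
  obtain ⟨s, hs1, hs2⟩ := exists_between (show 16 * ‖w - h a‖ / (r * ‖deriv h a‖) < 1 by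
    rw [div_lt_one (by positivity)]; linarith)
  have hs0 : 0 < s := lt_of_le_of_lt (by positivity) hs1
  rw [div_lt_iff₀ (by positivity)] at hs1
  have hsr : 0 < s * r := by positivity
  have hsub : closedBall a (s * r) ⊆ ball a r := closedBall_subset_ball (by nlinarith)
  obtain ⟨B, hB⟩ := (isCompact_closedBall a (s * r)).exists_bound_of_continuousOn
    (hd.continuousOn.mono hsub)
  have hmap : ∀ ζ ∈ ball (0:ℂ) 1, a + (s * r : ℝ) * ζ ∈ closedBall a (s * r) := by
    intro ζ hζ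
    rw [mem_ball_zero_iff] at hζ
    rw [mem_closedBall, dist_eq_norm, add_sub_cancel_left, norm_mul, Complex.norm_real,
      Real.norm_of_nonneg hsr.le]
    nlinarith
  have hden : ((s * r : ℝ) : ℂ) * deriv h a ≠ 0 :=
    mul_ne_zero (by exact_mod_cast hsr.ne') h0
  have hsrc : ((s * r : ℝ) : ℂ) ≠ 0 := by exact_mod_cast hsr.ne'
  set f : ℂ → ℂ := fun ζ => (h (a + (s * r : ℝ) * ζ) - h a) / ((s * r : ℝ) * deriv h a) with hf
  have hder : ∀ ζ ∈ ball (0:ℂ) 1, HasDerivAt f
      (deriv h (a + (s * r : ℝ) * ζ) * (s * r : ℝ) / ((s * r : ℝ) * deriv h a)) ζ := by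
    intro ζ hζ
    have h1 := (hd.differentiableAt (isOpen_ball.mem_nhds (hsub (hmap ζ hζ)))).hasDerivAt
    have h2 : HasDerivAt (fun ζ : ℂ => a + (s * r : ℝ) * ζ) ((s * r : ℝ) : ℂ) ζ := by
      simpa using ((hasDerivAt_id ζ).const_mul ((s * r : ℝ) : ℂ)).const_add a
    have h3 := (h1.comp ζ h2).sub_const (h a)
    exact h3.div_const _
  have hcls : Cls (max 1 ((B + ‖h a‖) / (s * r * ‖deriv h a‖))) f := by
    refine ⟨fun ζ hζ => (hder ζ hζ).differentiableAt.differentiableWithinAt, ?_, by simp [hf], ?_,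
      ?_⟩
    · intro ζ hζ ξ hξ e
      have e1 : h (a + (s * r : ℝ) * ζ) = h (a + (s * r : ℝ) * ξ) := by
        have := (div_left_inj' hden).mp e
        linear_combination this
      have e2 := hi (hsub (hmap ζ hζ)) (hsub (hmap ξ hξ)) e1
      have e3 : ((s * r : ℝ) : ℂ) * ζ = ((s * r : ℝ) : ℂ) * ξ := by linear_combination e2
      exact mul_left_cancel₀ hsrc e3
    · rw [(hder 0 (mem_ball_self one_pos)).deriv]
      simp only [mul_zero, add_zero]
      rw [mul_comm]
      exact div_self hden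
    · intro ζ hζ
      refine le_trans ?_ (le_max_right _ _)
      rw [hf]
      simp only
      rw [norm_div, norm_mul, Complex.norm_real, Real.norm_of_nonneg hsr.le]
      gcongr
      exact (norm_sub_le _ _).trans (by gcongr; exact hB _ (hmap ζ hζ))
  have hmem : (w - h a) / ((s * r : ℝ) * deriv h a) ∈ ball (0:ℂ) (1 / 16) := by
    rw [mem_ball_zero_iff, norm_div, norm_mul, Complex.norm_real, Real.norm_of_nonneg hsr.le,
      div_lt_iff₀ (by positivity)]
    linarith
  obtain ⟨ζ, hζ, hζe⟩ := hcls.cover (le_max_left _ _) hmem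
  refine ⟨a + (s * r : ℝ) * ζ, hsub (hmap ζ hζ), ?_⟩
  have := (div_left_inj' hden).mp hζe
  linear_combination this

end Koebe

section Distortion

/-- If the image of a univalent map of a disc of radius `r` contains a disc of radius `ρ` centred
at `h z`, then `ρ ≤ 2 r |h'(z)|`. -/
lemma radius_le_of_cover {h : ℂ → ℂ} {a : ℂ} {r : ℝ}
    (hd : DifferentiableOn ℂ h (ball a r)) (hi : InjOn h (ball a r)) {z : ℂ}
    (hz : z ∈ ball a r) {ρ : ℝ} (hρ : 0 < ρ) (hcov : ball (h z) ρ ⊆ h '' ball a r) :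
    ρ ≤ 2 * r * ‖deriv h z‖ := by
  obtain ⟨k, hk, hkd, hk'⟩ := exists_inverse isOpen_ball hd hi
  obtain ⟨hne, hkz⟩ := hk' z hz
  have hn : 0 < ‖deriv h z‖ := norm_pos_iff.mpr hne
  have h1 : MapsTo k (ball (h z) ρ) (closedBall (k (h z)) (2 * r)) := by
    intro w hw
    obtain ⟨x, hx, rfl⟩ := hcov hw
    rw [hk x hx, hk z hz, mem_closedBall]
    rw [mem_ball] at hx hz
    linarith [dist_triangle_right x z a]
  have h2 := Complex.norm_deriv_le_div_of_mapsTo_ball (hkd.mono hcov) h1 hρ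
  rw [hkz, norm_inv, le_div_iff₀ hρ] at h2
  field_simp at h2
  linarith

/-- For an omitted value `ω`. -/
lemma koebe_omit {h : ℂ → ℂ} {a : ℂ} {r : ℝ}
    (hd : DifferentiableOn ℂ h (ball a r)) (hi : InjOn h (ball a r)) {z : ℂ}
    (hz : z ∈ ball a r) {ω : ℂ} (hω : ω ∉ h '' ball a r) :
    (r - ‖z - a‖) * ‖deriv h z‖ ≤ 16 * ‖h z - ω‖ := by
  rw [mem_ball, dist_eq_norm] at hz
  have hpos : 0 < r - ‖z - a‖ := by linarith
  have hsub : ball z (r - ‖z - a‖) ⊆ ball a r := by
    intro w hw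
    rw [mem_ball] at hw ⊢
    have := dist_triangle w z a
    rw [dist_eq_norm z a] at this
    linarith
  have h1 := koebe_cover hpos (hd.mono hsub) (hi.mono hsub)
  by_contra hlt
  push Not at hlt
  apply hω
  apply (image_mono hsub)
  apply h1
  rw [mem_ball, dist_eq_norm, norm_sub_rev]
  linarith

lemma koebe_gronwall {θ : ℝ} (hθ : θ < 1) {h : ℂ → ℂ} {a : ℂ} {r : ℝ} (hr : 0 < r)
    (hd : DifferentiableOn ℂ h (ball a r)) (hi : InjOn h (ball a r)) {ω : ℂ}
    (hω : ω ∉ h '' ball a r) {z w : ℂ} (hz : z ∈ closedBall a (θ * r))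
    (hw : w ∈ closedBall a (θ * r)) :
    ‖h w - ω‖ ≤ ‖h z - ω‖ * Real.exp (32 * θ / (1 - θ)) := by
  have hsub : closedBall a (θ * r) ⊆ ball a r := closedBall_subset_ball (by nlinarith)
  have hseg : ∀ t ∈ Icc (0:ℝ) 1, z + (t : ℂ) * (w - z) ∈ closedBall a (θ * r) := by
    intro t ht
    have := (convex_closedBall a (θ * r)).add_smul_sub_mem hz hw ht
    simpa using this
  have h1t : 0 < 1 - θ := by linarith
  have hder : ∀ t ∈ Icc (0:ℝ) 1, HasDerivAt (fun t : ℝ => h (z + (t : ℂ) * (w - z)) - ω)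
      (deriv h (z + (t : ℂ) * (w - z)) * (w - z)) t := by
    intro t ht
    have e1 := (hd.differentiableAt (isOpen_ball.mem_nhds (hsub (hseg t ht)))).hasDerivAt
    have e2 : HasDerivAt (fun t : ℝ => z + (t : ℂ) * (w - z)) (w - z) t := by
      have := ((Complex.ofRealCLM.hasDerivAt (x := t)).mul_const (w - z)).const_add z
      simpa using this
    exact (e1.comp_of_eq (h := fun t : ℝ => z + (t : ℂ) * (w - z)) t e2 rfl).sub_const ω
  have hmain := norm_le_gronwallBound_of_norm_deriv_right_le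
    (f := fun t : ℝ => h (z + (t : ℂ) * (w - z)) - ω)
    (f' := fun t : ℝ => deriv h (z + (t : ℂ) * (w - z)) * (w - z))
    (δ := ‖h z - ω‖) (K := 32 * θ / (1 - θ)) (ε := 0) (a := 0) (b := 1)
    (fun t ht => (hder t ht).continuousAt.continuousWithinAt)
    (fun t ht => (hder t ⟨ht.1, ht.2.le⟩).hasDerivWithinAt)
    (by simp)
    (by
      intro t ht
      have hmem := hseg t ⟨ht.1, ht.2.le⟩
      have e1 := koebe_omit hd hi (hsub hmem) hω
      rw [norm_mul]
      have e2 : ‖w - z‖ ≤ 2 * (θ * r) := by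
        rw [mem_closedBall] at hz hw
        rw [← dist_eq_norm]
        linarith [dist_triangle_right w z a]
      have e3 : (1 - θ) * r ≤ r - ‖z + (t : ℂ) * (w - z) - a‖ := by
        rw [mem_closedBall, dist_eq_norm] at hmem
        linarith
      have e4 : (1 - θ) * r * ‖deriv h (z + (t : ℂ) * (w - z))‖ ≤
          16 * ‖h (z + (t : ℂ) * (w - z)) - ω‖ :=
        le_trans (by gcongr) e1
      have e5 : ‖deriv h (z + (t : ℂ) * (w - z))‖ ≤
          16 * ‖h (z + (t : ℂ) * (w - z)) - ω‖ / ((1 - θ) * r) := by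
        rw [le_div_iff₀ (by positivity)]; linarith
      calc ‖deriv h (z + (t : ℂ) * (w - z))‖ * ‖w - z‖
          ≤ (16 * ‖h (z + (t : ℂ) * (w - z)) - ω‖ / ((1 - θ) * r)) * (2 * (θ * r)) := by gcongr
        _ = 32 * θ / (1 - θ) * ‖h (z + (t : ℂ) * (w - z)) - ω‖ + 0 := by
          field_simp; ring) 1 (by simp)
  simpa [gronwallBound_ε0] using hmain

/-- Koebe distortion theorem (with some constant) -/
theorem koebe_dist {θ : ℝ} (hθ0 : 0 < θ) (hθ : θ < 1) : ∃ C : ℝ, 1 ≤ C ∧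
    ∀ (h : ℂ → ℂ) (a : ℂ) (r : ℝ), 0 < r →
    DifferentiableOn ℂ h (ball a r) → InjOn h (ball a r) →
    (∀ z ∈ closedBall a (θ * r), ‖deriv h z‖ ≤ C * ‖deriv h a‖ ∧ ‖deriv h a‖ ≤ C * ‖deriv h z‖) ∧
    (∀ z ∈ closedBall a (θ * r), ∀ w ∈ closedBall a (θ * r),
      ‖h z - h w‖ ≤ C * ‖deriv h a‖ * ‖z - w‖ ∧ ‖deriv h a‖ * ‖z - w‖ ≤ C * ‖h z - h w‖) := by
  have h1t : 0 < 1 - θ := by linarith
  set E := Real.exp (32 * θ / (1 - θ)) with hE
  have hE1 : 1 ≤ E := Real.one_le_exp (by positivity)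
  set C₀ : ℝ := 32 * E / (1 - θ) with hC₀
  have hC₀1 : 32 ≤ C₀ := by
    rw [hC₀, le_div_iff₀ h1t]; nlinarith
  -- the comparison of derivatives
  have key : ∀ (h : ℂ → ℂ) (a : ℂ) (r : ℝ), 0 < r →
      DifferentiableOn ℂ h (ball a r) → InjOn h (ball a r) →
      ∀ z ∈ closedBall a (θ * r), ∀ w ∈ closedBall a (θ * r), ‖deriv h w‖ ≤ C₀ * ‖deriv h z‖ := by
    intro h a r hr hd hi z hz w hw
    have hsub : closedBall a (θ * r) ⊆ ball a r := closedBall_subset_ball (by nlinarith)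
    refine le_of_forall_pos_le_add fun ε hε => ?_
    set ρ := 2 * r * ‖deriv h z‖ + ε * ((1 - θ) * r) / (16 * E) with hρ
    have hρ1 : 2 * r * ‖deriv h z‖ < ρ := by
      rw [hρ]; have : 0 < ε * ((1 - θ) * r) / (16 * E) := by positivity
      linarith
    have hρ0 : 0 < ρ := lt_of_le_of_lt (by positivity) hρ1
    have hncov : ¬ ball (h z) ρ ⊆ h '' ball a r := fun hcov => by
      have := radius_le_of_cover hd hi (hsub hz) hρ0 hcov
      linarith
    obtain ⟨ω, hω1, hω⟩ := not_subset.mp hncov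
    have e1 := koebe_gronwall hθ hr hd hi hω hz hw
    have e2 := koebe_omit hd hi (hsub hw) hω
    have e3 : (1 - θ) * r ≤ r - ‖w - a‖ := by
      rw [mem_closedBall, dist_eq_norm] at hw
      linarith
    have e4 : (1 - θ) * r * ‖deriv h w‖ ≤ 16 * ‖h w - ω‖ := le_trans (by gcongr) e2
    have e5 : ‖h z - ω‖ < ρ := by
      rw [mem_ball, dist_eq_norm, norm_sub_rev] at hω1; exact hω1
    have e6 : (1 - θ) * r * ‖deriv h w‖ ≤ 16 * (ρ * E) := by
      refine e4.trans ?_
      gcongr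
      exact e1.trans (by gcongr)
    have e7 : ‖deriv h w‖ ≤ 16 * (ρ * E) / ((1 - θ) * r) := by
      rw [le_div_iff₀ (by positivity)]; linarith
    refine e7.trans (le_of_eq ?_)
    rw [hρ, hC₀]
    field_simp
    ring
  refine ⟨max C₀ (16 * C₀ * (2 * θ + 1) / (1 - θ)), le_trans (by linarith) (le_max_left _ _),
    fun h a r hr hd hi => ?_⟩
  have hsub : closedBall a (θ * r) ⊆ ball a r := closedBall_subset_ball (by nlinarith)
  have hma : a ∈ closedBall a (θ * r) := mem_closedBall_self (by positivity)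
  have hC0 := le_max_left C₀ (16 * C₀ * (2 * θ + 1) / (1 - θ))
  have hC1 := le_max_right C₀ (16 * C₀ * (2 * θ + 1) / (1 - θ))
  refine ⟨fun z hz => ⟨?_, ?_⟩, fun z hz w hw => ⟨?_, ?_⟩⟩
  · exact (key h a r hr hd hi a hma z hz).trans (by gcongr)
  · exact (key h a r hr hd hi z hz a hma).trans (by gcongr)
  · have e1 := (convex_closedBall a (θ * r)).norm_image_sub_le_of_norm_deriv_le (𝕜 := ℂ)
      (f := h) (C := C₀ * ‖deriv h a‖)
      (fun x hx => hd.differentiableAt (isOpen_ball.mem_nhds (hsub hx)))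
      (fun x hx => key h a r hr hd hi a hma x hx) hw hz
    exact e1.trans (by gcongr)
  · rcases eq_or_ne z w with rfl | hzw
    · simp
    have hzw0 : 0 < ‖z - w‖ := norm_pos_iff.mpr (sub_ne_zero.mpr hzw)
    set s := min ‖z - w‖ ((1 - θ) * r) with hs
    have hs0 : 0 < s := lt_min hzw0 (by positivity)
    have hsb : ball z s ⊆ ball a r := by
      intro x hx
      rw [mem_ball] at hx ⊢
      rw [mem_closedBall] at hz
      have := dist_triangle x z a
      have := min_le_right ‖z - w‖ ((1 - θ) * r)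
      linarith
    have e1 := koebe_cover hs0 (hd.mono hsb) (hi.mono hsb)
    have hwn : h w ∉ h '' ball z s := by
      rintro ⟨x, hx, hxe⟩
      have := hi (hsb hx) (hsub hw) hxe
      subst this
      rw [mem_ball, dist_eq_norm, norm_sub_rev] at hx
      have := min_le_left ‖z - x‖ ((1 - θ) * r)
      linarith
    have e2 : s * ‖deriv h z‖ / 16 ≤ ‖h z - h w‖ := by
      by_contra hlt
      push Not at hlt
      apply hwn
      apply e1
      rw [mem_ball, dist_eq_norm, norm_sub_rev]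
      exact hlt
    have e3 : ‖z - w‖ ≤ 2 * (θ * r) := by
      rw [mem_closedBall] at hz hw
      rw [← dist_eq_norm]
      linarith [dist_triangle_right z w a]
    have e4 : (1 - θ) * ‖z - w‖ ≤ (2 * θ + 1) * s := by
      rcases min_cases ‖z - w‖ ((1 - θ) * r) with ⟨e, _⟩ | ⟨e, _⟩
      · rw [hs, e]; nlinarith
      · rw [hs, e]
        calc (1 - θ) * ‖z - w‖ ≤ (1 - θ) * (2 * (θ * r)) := by gcongr
          _ ≤ (2 * θ + 1) * ((1 - θ) * r) := by nlinarith [mul_pos h1t hr]
    have e5 := key h a r hr hd hi z hz a hma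
    have hC₀0 : 0 < C₀ := by linarith
    have e6 : (1 - θ) * (‖deriv h a‖ * ‖z - w‖) ≤ 16 * C₀ * (2 * θ + 1) * ‖h z - h w‖ := by
      calc (1 - θ) * (‖deriv h a‖ * ‖z - w‖) = ‖deriv h a‖ * ((1 - θ) * ‖z - w‖) := by ring
        _ ≤ (C₀ * ‖deriv h z‖) * ((2 * θ + 1) * s) := by gcongr
        _ = 16 * C₀ * (2 * θ + 1) * (s * ‖deriv h z‖ / 16) := by ring
        _ ≤ 16 * C₀ * (2 * θ + 1) * ‖h z - h w‖ := by gcongr
    have e7 : ‖deriv h a‖ * ‖z - w‖ ≤ 16 * C₀ * (2 * θ + 1) / (1 - θ) * ‖h z - h w‖ := by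
      rw [div_mul_eq_mul_div, le_div_iff₀ h1t]
      linarith
    exact e7.trans (by gcongr)

end Distortion

end Pool.Agent.BB
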