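import Pool.Agent.BB.Defs
import Pool.Agent.BB.Koebe

/-!
# Basin boundaries: uniqueness of lifts, distortion along chains of discs
-/

open Set Metric Filter Topology

namespace Pool.Agent.BB

/-- Two holomorphic lifts which agree at one noncritical point agree on a connected open set. -/
theorem lift_unique {G : ℂ → ℂ} (hG : Differentiable ℂ G) {S : Set ℂ} (hSo : IsOpen S)
    (hSc : IsPreconnected S) {H H' : ℂ → ℂ} (hH : DifferentiableOn ℂ H S)
    (hH' : DifferentiableOn ℂ H' S) (heq : ∀ x ∈ S, G (H x) = G (H' x)) {ξ : ℂ} (hξ : ξ ∈ S)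
    (h0 : H ξ = H' ξ) (hd : deriv G (H ξ) ≠ 0) : EqOn H H' S := by
  have hGs : HasStrictDerivAt G (deriv G (H ξ)) (H ξ) :=
    (hG.analyticAt (H ξ)).hasStrictDerivAt
  have hev : ∀ᶠ p : ℂ × ℂ in 𝓝 (H ξ, H ξ), G p.1 = G p.2 → p.1 = p.2 := by
    have h1 := hGs.hasStrictFDerivAt_equiv hd
    let e := h1.toOpenPartialHomeomorph G
    have hs : H ξ ∈ e.source := h1.mem_toOpenPartialHomeomorph_source
    have : e.source ×ˢ e.source ∈ 𝓝 (H ξ, H ξ) :=
      prod_mem_nhds (e.open_source.mem_nhds hs) (e.open_source.mem_nhds hs)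
    filter_upwards [this] with p hp hpe
    exact e.injOn hp.1 hp.2 hpe
  have hc1 : ContinuousAt H ξ := (hH.continuousOn).continuousAt (hSo.mem_nhds hξ)
  have hc2 : ContinuousAt H' ξ := (hH'.continuousOn).continuousAt (hSo.mem_nhds hξ)
  have hc : Tendsto (fun x => (H x, H' x)) (𝓝 ξ) (𝓝 (H ξ, H ξ)) := by
    have h2 := hc1.prodMk_nhds hc2
    simpa [← h0] using h2
  have hev2 : ∀ᶠ x in 𝓝 ξ, H x = H' x := by
    filter_upwards [hc.eventually hev, hSo.mem_nhds hξ] with x hx hxS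
    exact hx (heq x hxS)
  exact (hH.analyticOnNhd hSo).eqOn_of_preconnected_of_eventuallyEq (hH'.analyticOnNhd hSo) hSc hξ
    hev2

/-- Distortion in convex compact sets of small diameter, in terms of chains of discs. -/
theorem chain_dist {s₀ : ℝ} (hs₀ : 0 < s₀) (L : ℝ) : ∃ C : ℝ, 1 ≤ C ∧
    ∀ (K : Set ℂ) (H : ℂ → ℂ), Convex ℝ K → (∀ x ∈ K, ∀ y ∈ K, ‖x - y‖ ≤ L) →
      (∀ x ∈ K, DifferentiableOn ℂ H (ball x s₀)) → (∀ x ∈ K, InjOn H (ball x s₀)) →
      ∀ x ∈ K, ∀ y ∈ K, ‖deriv H x‖ ≤ C * ‖deriv H y‖ ∧ ‖H x - H y‖ ≤ C * ‖deriv H y‖ := by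
  obtain ⟨C, hC1, hC⟩ := koebe_dist (θ := 1 / 2) (by norm_num) (by norm_num)
  have hC0 : 0 < C := by linarith
  -- number of steps
  obtain ⟨N, hN⟩ := exists_nat_ge (L / (s₀ / 2))
  -- claim by induction on k: points at distance ≤ k * s₀/2
  have key : ∀ k : ℕ, ∀ (K : Set ℂ) (H : ℂ → ℂ), Convex ℝ K →
      (∀ x ∈ K, DifferentiableOn ℂ H (ball x s₀)) → (∀ x ∈ K, InjOn H (ball x s₀)) →
      ∀ x ∈ K, ∀ y ∈ K, ‖x - y‖ ≤ k * (s₀ / 2) →
        ‖deriv H x‖ ≤ C ^ k * ‖deriv H y‖ ∧ ‖H x - H y‖ ≤ k * (C ^ k * (s₀ / 2)) * ‖deriv H y‖ := by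
    intro k
    induction k with
    | zero =>
      intro K H _ _ _ x hx y hy hxy
      have : x = y := by
        have : ‖x - y‖ ≤ 0 := by simpa using hxy
        exact sub_eq_zero.mp (norm_le_zero_iff.mp this)
      subst this
      simp
    | succ k ih =>
      intro K H hK hd hi x hx y hy hxy
      -- intermediate point
      obtain ⟨z, hz, hxz, hzy⟩ : ∃ z ∈ K, ‖x - z‖ ≤ s₀ / 2 ∧ ‖z - y‖ ≤ k * (s₀ / 2) := by
        rcases le_or_gt ‖x - y‖ (s₀ / 2) with h | h
        · refine ⟨y, hy, h, ?_⟩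
          simp only [sub_self, norm_zero]
          positivity
        · -- z = x + t (y - x), t = (s₀/2)/‖x-y‖
          have hpos : 0 < ‖x - y‖ := by linarith [half_pos hs₀]
          set t : ℝ := (s₀ / 2) / ‖x - y‖ with ht
          have ht0 : 0 ≤ t := by positivity
          have ht1 : t ≤ 1 := by rw [ht, div_le_one hpos]; exact h.le
          refine ⟨(1 - t) • x + t • y, hK hx hy (by linarith) ht0 (by ring), ?_, ?_⟩
          · have : x - ((1 - t) • x + t • y) = t • (x - y) := by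
              simp only [sub_smul, one_smul, smul_sub]; abel
            rw [this, norm_smul, Real.norm_of_nonneg ht0, ht, div_mul_cancel₀ _ hpos.ne']
          · have : (1 - t) • x + t • y - y = (1 - t) • (x - y) := by
              simp only [sub_smul, one_smul, smul_sub]; abel
            rw [this, norm_smul, Real.norm_of_nonneg (by linarith), sub_mul, one_mul, ht,
              div_mul_cancel₀ _ hpos.ne']
            push_cast at hxy
            linarith
      obtain ⟨h1, h2⟩ := ih K H hK hd hi z hz y hy hzy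
      have hz' : x ∈ closedBall z (1 / 2 * s₀) := by
        rw [mem_closedBall, dist_eq_norm]; linarith
      obtain ⟨h3, h4⟩ := hC H z s₀ hs₀ (hd z hz) (hi z hz)
      have h5 := (h3 x hz').1
      have h6 := (h4 x hz' z (mem_closedBall_self (by positivity))).1
      have hCk : 0 ≤ C ^ k := by positivity
      constructor
      · calc ‖deriv H x‖ ≤ C * ‖deriv H z‖ := h5
          _ ≤ C * (C ^ k * ‖deriv H y‖) := by gcongr
          _ = C ^ (k + 1) * ‖deriv H y‖ := by ring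
      · have h7 : ‖H x - H z‖ ≤ C ^ (k + 1) * (s₀ / 2) * ‖deriv H y‖ := by
          calc ‖H x - H z‖ ≤ C * ‖deriv H z‖ * ‖x - z‖ := h6
            _ ≤ C * (C ^ k * ‖deriv H y‖) * (s₀ / 2) := by gcongr
            _ = C ^ (k + 1) * (s₀ / 2) * ‖deriv H y‖ := by ring
        have h8 : ‖H z - H y‖ ≤ k * (C ^ (k + 1) * (s₀ / 2)) * ‖deriv H y‖ := by
          refine h2.trans ?_
          have : C ^ k ≤ C ^ (k + 1) := pow_le_pow_right₀ hC1 (Nat.le_succ k)
          gcongr
        calc ‖H x - H y‖ ≤ ‖H x - H z‖ + ‖H z - H y‖ := norm_sub_le_norm_sub_add_norm_sub _ _ _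
          _ ≤ C ^ (k + 1) * (s₀ / 2) * ‖deriv H y‖ + k * (C ^ (k + 1) * (s₀ / 2)) * ‖deriv H y‖ := by
              gcongr
          _ = ((k + 1 : ℕ) : ℝ) * (C ^ (k + 1) * (s₀ / 2)) * ‖deriv H y‖ := by push_cast; ring
  refine ⟨C ^ N + N * (C ^ N * (s₀ / 2)), ?_, ?_⟩
  · have : 1 ≤ C ^ N := one_le_pow₀ hC1
    have : 0 ≤ N * (C ^ N * (s₀ / 2)) := by positivity
    linarith
  · intro K H hK hL hd hi x hx y hy
    have hxy : ‖x - y‖ ≤ N * (s₀ / 2) := by
      refine (hL x hx y hy).trans ?_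
      rwa [div_le_iff₀ (by positivity)] at hN
    obtain ⟨h1, h2⟩ := key N K H hK hd hi x hx y hy hxy
    have hp : 0 ≤ C ^ N * ‖deriv H y‖ := by positivity
    have hp2 : 0 ≤ N * (C ^ N * (s₀ / 2)) * ‖deriv H y‖ := by positivity
    constructor
    · nlinarith
    · nlinarith

end Pool.Agent.BB
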