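import Pool.Agent.BB.Defs

/-!
# Analytic continuation of inverse branches without singular values
-/

open Set Metric Filter Topology

namespace Pool.Agent.BB

namespace Lift

variable {G : ℂ → ℂ} {U : Set ℂ}

/-- The regular points of `G` in `U`. -/
def Reg (G : ℂ → ℂ) (U : Set ℂ) : Set ℂ := {z | z ∈ U ∧ deriv G z ≠ 0}

theorem isOpen_Reg (hG : Differentiable ℂ G) (hU : IsOpen U) : IsOpen (Reg G U) := by
  have h : Continuous (deriv G) :=
    (hG.contDiff (n := 1)).continuous_deriv le_rfl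
  exact hU.inter (isOpen_ne_fun h continuous_const)

theorem exists_chart (hG : Differentiable ℂ G) (hU : IsOpen U) {z : ℂ} (hz : z ∈ Reg G U) :
    ∃ e : OpenPartialHomeomorph ℂ ℂ, z ∈ e.source ∧ e.source ⊆ Reg G U ∧ ∀ w, e w = G w := by
  have h1 : HasStrictDerivAt G (deriv G z) z :=
    ((hG.contDiff (n := 1)).contDiffAt).hasStrictDerivAt one_ne_zero
  have h2 := h1.hasStrictFDerivAt_equiv hz.2
  refine ⟨(h2.toOpenPartialHomeomorph G).restrOpen (Reg G U) (isOpen_Reg hG hU), ?_, ?_, ?_⟩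
  · exact ⟨h2.mem_toOpenPartialHomeomorph_source, hz⟩
  · exact inter_subset_right
  · intro w
    rfl

theorem isLocalHomeomorph_val (hG : Differentiable ℂ G) (hU : IsOpen U) :
    IsLocalHomeomorph (fun z : Reg G U => G z) := by
  have h1 : IsLocalHomeomorph (Subtype.val : Reg G U → ℂ) :=
    (isOpen_Reg hG hU).isOpenEmbedding_subtypeVal.isLocalHomeomorph
  have h2 : IsLocalHomeomorphOn G (Reg G U) := by
    intro z hz
    obtain ⟨e, he, -, he'⟩ := exists_chart hG hU hz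
    exact ⟨e, he, funext fun w => (he' w).symm⟩
  rw [isLocalHomeomorph_iff_isLocalHomeomorphOn_univ]
  exact h2.comp h1.isLocalHomeomorphOn fun z _ => z.2

theorem isSeparatedMap_val : IsSeparatedMap (fun z : Reg G U => G z) :=
  T2Space.isSeparatedMap _

/-- `γ` lifts the path `c` on `[0, t]`. -/
def IsLift (G : ℂ → ℂ) (U : Set ℂ) (c : ℝ → ℂ) (z₀ : ℂ) (t : ℝ) (γ : ℝ → ℂ) : Prop :=
  ContinuousOn γ (Icc 0 t) ∧ (∀ s ∈ Icc 0 t, γ s ∈ Reg G U ∧ G (γ s) = c s) ∧ γ 0 = z₀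

variable {c : ℝ → ℂ} {z₀ : ℂ}

theorem IsLift.mono {t t' : ℝ} {γ : ℝ → ℂ} (h : IsLift G U c z₀ t γ) (ht : t' ≤ t) :
    IsLift G U c z₀ t' γ :=
  ⟨h.1.mono (Icc_subset_Icc_right ht), fun s hs => h.2.1 s ⟨hs.1, hs.2.trans ht⟩, h.2.2⟩

theorem IsLift.eqOn (hG : Differentiable ℂ G) (hU : IsOpen U) {t : ℝ} {γ γ' : ℝ → ℂ}
    (h : IsLift G U c z₀ t γ) (h' : IsLift G U c z₀ t γ') : EqOn γ γ' (Icc 0 t) := by
  intro s hs
  have h0t : (0:ℝ) ≤ t := hs.1.trans hs.2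
  have : PreconnectedSpace (Icc (0:ℝ) t) :=
    isPreconnected_iff_preconnectedSpace.1 isPreconnected_Icc
  let g : Icc (0:ℝ) t → Reg G U := fun s => ⟨γ s, (h.2.1 s s.2).1⟩
  let g' : Icc (0:ℝ) t → Reg G U := fun s => ⟨γ' s, (h'.2.1 s s.2).1⟩
  have hg : Continuous g := (continuousOn_iff_continuous_domRestrict.1 h.1).subtype_mk _
  have hg' : Continuous g' := (continuousOn_iff_continuous_domRestrict.1 h'.1).subtype_mk _
  have := (isSeparatedMap_val (G := G) (U := U)).eq_of_comp_eq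
    (isLocalHomeomorph_val hG hU).isLocallyInjective hg hg'
    (funext fun s => (h.2.1 s s.2).2.trans (h'.2.1 s s.2).2.symm) ⟨0, le_rfl, h0t⟩
    (Subtype.ext (h.2.2.trans h'.2.2.symm))
  exact congrArg Subtype.val (congrFun this ⟨s, hs⟩)

theorem IsLift.extend {t₁ t₂ : ℝ} (h0 : 0 ≤ t₁) (h12 : t₁ ≤ t₂) {γ : ℝ → ℂ}
    (h : IsLift G U c z₀ t₁ γ) (hc : ContinuousOn c (Icc t₁ t₂))
    (e : OpenPartialHomeomorph ℂ ℂ) (he : ∀ w, e w = G w) (hes : e.source ⊆ Reg G U)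
    (hγ : γ t₁ ∈ e.source) (hct : ∀ s ∈ Icc t₁ t₂, c s ∈ e.target) :
    ∃ γ' : ℝ → ℂ, IsLift G U c z₀ t₂ γ' := by
  classical
  let γ' : ℝ → ℂ := fun s => if s ≤ t₁ then γ s else e.symm (c s)
  have h1 : ∀ s ≤ t₁, γ' s = γ s := fun s hs => if_pos hs
  have h2 : ∀ s, t₁ ≤ s → γ' s = e.symm (c s) := by
    intro s hs
    rcases hs.eq_or_lt with rfl | hs
    · rw [h1 _ le_rfl, ← (h.2.1 _ ⟨h0, le_rfl⟩).2, ← he, e.left_inv hγ]
    · exact if_neg (not_le.2 hs)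
  refine ⟨γ', ?_, ?_, ?_⟩
  · rw [← Icc_union_Icc_eq_Icc h0 h12]
    refine ContinuousOn.union_of_isClosed ?_ ?_ isClosed_Icc isClosed_Icc
    · exact h.1.congr fun s hs => h1 s hs.2
    · refine ContinuousOn.congr ?_ fun s hs => h2 s hs.1
      exact e.continuousOn_symm.comp hc hct
  · intro s hs
    rcases le_total s t₁ with h3 | h3
    · rw [h1 s h3]
      exact h.2.1 s ⟨hs.1, h3⟩
    · rw [h2 s h3]
      have h4 := hct s ⟨h3, hs.2⟩
      exact ⟨hes (e.map_target h4), by rw [← he, e.right_inv h4]⟩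
  · rw [h1 0 h0, h.2.2]

theorem exists_lift (hG : Differentiable ℂ G) (hU : IsOpen U) (hc : ContinuousOn c (Icc 0 1))
    (hcW : ∀ s ∈ Icc (0:ℝ) 1, c s ∉ SingVals G U) (hz₀ : z₀ ∈ U) (hz : G z₀ = c 0) :
    ∃ γ : ℝ → ℂ, IsLift G U c z₀ 1 γ := by
  have hreg : ∀ z ∈ U, ∀ s ∈ Icc (0:ℝ) 1, G z = c s → z ∈ Reg G U := fun z hzU s hs h =>
    ⟨hzU, fun h0 => hcW s hs (Or.inl ⟨z, hzU, h, h0⟩)⟩
  let T : Set ℝ := {t | t ∈ Icc (0:ℝ) 1 ∧ ∃ γ : ℝ → ℂ, IsLift G U c z₀ t γ}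
  have h0T : (0:ℝ) ∈ T := by
    refine ⟨⟨le_rfl, zero_le_one⟩, fun _ => z₀, continuousOn_const, ?_, rfl⟩
    intro s hs
    have : s = 0 := le_antisymm hs.2 hs.1
    subst this
    exact ⟨hreg z₀ hz₀ 0 ⟨le_rfl, zero_le_one⟩ hz, hz⟩
  have hbdd : BddAbove T := ⟨1, fun t ht => ht.1.2⟩
  set τ := sSup T with hτ
  have hτ0 : 0 ≤ τ := le_csSup hbdd h0T
  have hτ1 : τ ≤ 1 := csSup_le ⟨0, h0T⟩ fun t ht => ht.1.2
  have hlt : ∀ t, t < τ → ∃ γ : ℝ → ℂ, IsLift G U c z₀ t γ := by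
    intro t ht
    obtain ⟨t', ht', htt'⟩ := exists_lt_of_lt_csSup ⟨0, h0T⟩ ht
    obtain ⟨γ, hγ⟩ := ht'.2
    exact ⟨γ, hγ.mono htt'.le⟩
  have hτT : ∃ γ : ℝ → ℂ, IsLift G U c z₀ τ γ := by
    rcases hτ0.eq_or_lt with h | hτpos
    · rw [← h]
      exact h0T.2
    choose! L hL using hlt
    let γ : ℝ → ℂ := fun t => L t t
    have hγ : ∀ t, t < τ → ∀ s ∈ Icc 0 t, γ s = L t s := by
      intro t ht s hs
      exact (hL s (hs.2.trans_lt ht)).eqOn hG hU ((hL t ht).mono hs.2) ⟨hs.1, le_rfl⟩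
    have hlift : ∀ t, 0 ≤ t → t < τ → IsLift G U c z₀ t γ := by
      intro t h0t ht
      refine ⟨(hL t ht).1.congr (hγ t ht), fun s hs => ?_, ?_⟩
      · rw [hγ t ht s hs]
        exact (hL t ht).2.1 s hs
      · rw [hγ t ht 0 ⟨le_rfl, h0t⟩]
        exact (hL t ht).2.2
    have hctau : Tendsto c (𝓝[<] τ) (𝓝 (c τ)) := by
      have h1 : ContinuousWithinAt c (Icc 0 1) τ := hc τ ⟨hτ0, hτ1⟩
      have h2 : 𝓝[<] τ ≤ 𝓝[Icc 0 1] τ := by
        rw [nhdsWithin_le_iff]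
        filter_upwards [Ioo_mem_nhdsLT hτpos] with s hs
        exact ⟨hs.1.le, hs.2.le.trans hτ1⟩
      exact h1.tendsto.mono_left h2
    have hev : ∀ᶠ s in 𝓝[<] τ, G (γ s) = c s := by
      filter_upwards [Ioo_mem_nhdsLT hτpos] with s hs
      exact ((hlift s hs.1.le hs.2).2.1 s ⟨hs.1.le, le_rfl⟩).2
    by_cases hK : ∀ K ⊆ U, IsCompact K → ∀ᶠ t in 𝓝[<] τ, γ t ∉ K
    · -- asymptotic value
      exfalso
      refine hcW τ ⟨hτ0, hτ1⟩ (Or.inr ⟨fun s => γ (τ * s), ?_, ?_, ?_, ?_⟩)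
      · intro s hs
        have h1 : τ * s < τ := by nlinarith [hs.2]
        set t := (τ * s + τ) / 2 with ht
        have h2 : τ * s < t := by linarith
        have h3 : t < τ := by linarith
        have h4 : (0:ℝ) ≤ τ * s := mul_nonneg hτ0 hs.1
        have h5 := (hlift t (by linarith) h3).1 (τ * s) ⟨h4, h2.le⟩
        have h6 : Tendsto (fun s => τ * s) (𝓝[Ico 0 1] s) (𝓝[Icc 0 t] (τ * s)) := by
          refine tendsto_nhdsWithin_iff.2 ⟨?_, ?_⟩
          · exact ((continuous_const.mul continuous_id).tendsto s).mono_left nhdsWithin_le_nhds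
          · have h7 : ∀ᶠ s' in 𝓝 s, τ * s' < t :=
              ((continuous_const.mul continuous_id).tendsto s).eventually_lt_const h2
            filter_upwards [mem_nhdsWithin_of_mem_nhds h7, self_mem_nhdsWithin] with s' h8 h9
            exact ⟨mul_nonneg hτ0 h9.1, h8.le⟩
        exact h5.tendsto.comp h6
      · intro s hs
        have h1 : τ * s < τ := by nlinarith [hs.2]
        have h4 : (0:ℝ) ≤ τ * s := mul_nonneg hτ0 hs.1
        exact ((hlift _ h4 h1).2.1 _ ⟨h4, le_rfl⟩).1.1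
      · intro K hKU hKc
        have h6 : Tendsto (fun s => τ * s) (𝓝[<] (1:ℝ)) (𝓝[<] τ) := by
          refine tendsto_nhdsWithin_iff.2 ⟨?_, ?_⟩
          · have h7 : Tendsto (fun s : ℝ => τ * s) (𝓝 1) (𝓝 (τ * 1)) :=
              (continuous_const.mul continuous_id).tendsto 1
            rw [mul_one] at h7
            exact h7.mono_left nhdsWithin_le_nhds
          · filter_upwards [self_mem_nhdsWithin] with s hs
            rw [mem_Iio] at hs ⊢
            nlinarith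
        exact h6.eventually (hK K hKU hKc)
      · have h6 : Tendsto (fun s => τ * s) (𝓝[<] (1:ℝ)) (𝓝[<] τ) := by
          refine tendsto_nhdsWithin_iff.2 ⟨?_, ?_⟩
          · have h7 : Tendsto (fun s : ℝ => τ * s) (𝓝 1) (𝓝 (τ * 1)) :=
              (continuous_const.mul continuous_id).tendsto 1
            rw [mul_one] at h7
            exact h7.mono_left nhdsWithin_le_nhds
          · filter_upwards [self_mem_nhdsWithin] with s hs
            rw [mem_Iio] at hs ⊢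
            nlinarith
        exact (hctau.comp h6).congr' ((h6.eventually hev).mono fun s hs => hs.symm)
    · push Not at hK
      obtain ⟨K, hKU, hKc, hfr⟩ := hK
      have hfr' : ∃ᶠ t in 𝓝[<] τ, γ t ∈ K := by simpa [Filter.not_eventually] using hfr
      obtain ⟨z, hzK, hzc⟩ := hKc.exists_mapClusterPt_of_frequently hfr'
      have hGz : G z = c τ := by
        have h1 : MapClusterPt (G z) (𝓝[<] τ) (G ∘ γ) :=
          hzc.continuousAt_comp hG.continuous.continuousAt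
        have h2 : Tendsto (G ∘ γ) (𝓝[<] τ) (𝓝 (c τ)) :=
          hctau.congr' (hev.mono fun s hs => hs.symm)
        have h3 : (𝓝 (G z) ⊓ map (G ∘ γ) (𝓝[<] τ)).NeBot := h1
        have h4 : (𝓝 (G z) ⊓ 𝓝 (c τ)).NeBot := h3.mono (inf_le_inf_left _ h2)
        exact eq_of_nhds_neBot h4
      have hzR : z ∈ Reg G U := hreg z (hKU hzK) τ ⟨hτ0, hτ1⟩ hGz
      obtain ⟨e, hze, hes, he⟩ := exists_chart hG hU hzR
      have hcτ : c τ ∈ e.target := by
        rw [← hGz, ← he]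
        exact e.map_source hze
      have h1 : ∀ᶠ s in 𝓝[Icc 0 1] τ, c s ∈ e.target :=
        (hc τ ⟨hτ0, hτ1⟩).eventually (e.open_target.mem_nhds hcτ)
      obtain ⟨δ, hδ, hδ'⟩ := Metric.mem_nhdsWithin_iff.1 h1
      have h2 : ∀ᶠ s in 𝓝[<] τ, s ∈ Ioo (max 0 (τ - δ)) τ :=
        Ioo_mem_nhdsLT (max_lt hτpos (by linarith))
      obtain ⟨t₁, ht₁, ht₁'⟩ :=
        ((hzc.frequently (e.open_source.mem_nhds hze)).and_eventually h2).exists
      have h3 : 0 < t₁ := (le_max_left _ _).trans_lt ht₁'.1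
      have h4 : τ - δ < t₁ := (le_max_right _ _).trans_lt ht₁'.1
      refine (hlift t₁ h3.le ht₁'.2).extend h3.le ht₁'.2.le
        (hc.mono (Icc_subset_Icc h3.le hτ1)) e he hes ht₁ fun s hs => hδ' ⟨?_, ?_⟩
      · rw [mem_ball, Real.dist_eq, abs_lt]
        constructor <;> linarith [hs.1, hs.2]
      · exact ⟨h3.le.trans hs.1, hs.2.trans hτ1⟩
  have hτ1' : τ = 1 := by
    by_contra hne
    have hτlt : τ < 1 := lt_of_le_of_ne hτ1 hne
    obtain ⟨γ, hγ⟩ := hτT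
    have hγτ := hγ.2.1 τ ⟨hτ0, le_rfl⟩
    obtain ⟨e, hze, hes, he⟩ := exists_chart hG hU hγτ.1
    have hcτ : c τ ∈ e.target := by
      rw [← hγτ.2, ← he]
      exact e.map_source hze
    have h1 : ∀ᶠ s in 𝓝[Icc 0 1] τ, c s ∈ e.target :=
      (hc τ ⟨hτ0, hτ1⟩).eventually (e.open_target.mem_nhds hcτ)
    obtain ⟨δ, hδ, hδ'⟩ := Metric.mem_nhdsWithin_iff.1 h1
    set t₂ := min 1 (τ + δ / 2) with ht₂
    have h2 : τ < t₂ := lt_min hτlt (by linarith)
    have h3 : t₂ ≤ 1 := min_le_left _ _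
    have h4 : t₂ ≤ τ + δ / 2 := min_le_right _ _
    have h5 : ∃ γ' : ℝ → ℂ, IsLift G U c z₀ t₂ γ' := by
      refine hγ.extend hτ0 h2.le (hc.mono (Icc_subset_Icc hτ0 h3)) e he hes hze
        fun s hs => hδ' ⟨?_, ?_⟩
      · rw [mem_ball, Real.dist_eq, abs_lt]
        constructor <;> linarith [hs.1, hs.2]
      · exact ⟨hτ0.trans hs.1, hs.2.trans h3⟩
    have h6 : t₂ ∈ T := ⟨⟨hτ0.trans h2.le, h3⟩, h5⟩
    exact absurd (le_csSup hbdd h6) (not_le.2 h2)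
  rw [← hτ1']
  exact hτT

end Lift

theorem lift_convex {G : ℂ → ℂ} (hG : Differentiable ℂ G) {U W : Set ℂ} (hUo : IsOpen U)
    (hW : ∀ w ∈ W, w ∉ SingVals G U)
    {S : Set ℂ} (hS : Convex ℝ S) (hSo : IsOpen S) {Φ : ℂ → ℂ} (hΦ : DifferentiableOn ℂ Φ S)
    (hΦW : MapsTo Φ S W) {ξ₀ : ℂ} (h0 : ξ₀ ∈ S) {z₀ : ℂ} (hz₀ : z₀ ∈ U) (hz : G z₀ = Φ ξ₀) :
    ∃ H : ℂ → ℂ, DifferentiableOn ℂ H S ∧ MapsTo H S U ∧ (∀ ξ ∈ S, G (H ξ) = Φ ξ) ∧
      H ξ₀ = z₀ := by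
  classical
  -- the segments
  have hseg : ∀ ξ ∈ S, ∀ t ∈ Icc (0:ℝ) 1, ξ₀ + t * (ξ - ξ₀) ∈ S := by
    intro ξ hξ t ht
    have := hS h0 hξ (sub_nonneg.2 ht.2) ht.1 (by ring)
    convert this using 1
    simp only [Complex.real_smul]
    push_cast
    ring
  have hpath : ∀ ξ ∈ S, ∃ γ : ℝ → ℂ,
      Lift.IsLift G U (fun t => Φ (ξ₀ + t * (ξ - ξ₀))) z₀ 1 γ := by
    intro ξ hξ
    refine Lift.exists_lift hG hUo ?_ ?_ hz₀ ?_
    · refine hΦ.continuousOn.comp (Continuous.continuousOn ?_) (hseg ξ hξ)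
      fun_prop
    · exact fun s hs => hW _ (hΦW (hseg ξ hξ s hs))
    · simpa using hz
  choose! L hL using hpath
  -- joint continuity
  let f : C(unitInterval × S, ℂ) := ⟨fun x => Φ (ξ₀ + (x.1 : ℝ) * ((x.2 : ℂ) - ξ₀)), by
    refine hΦ.continuousOn.comp_continuous (by fun_prop) fun x => ?_
    exact hseg x.2 x.2.2 x.1 x.1.2⟩
  let g : unitInterval × S → Lift.Reg G U := fun x =>
    ⟨L x.2 (x.1 : ℝ), ((hL x.2 x.2.2).2.1 x.1 x.1.2).1⟩
  have hgf : (fun z : Lift.Reg G U => G z) ∘ g = f :=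
    funext fun x => ((hL x.2 x.2.2).2.1 x.1 x.1.2).2
  have hg : Continuous g := by
    refine (Lift.isLocalHomeomorph_val hG hUo).continuous_lift Lift.isSeparatedMap_val f hgf
      ?_ ?_
    · have : ∀ a : S, g (0, a) = g (0, ⟨ξ₀, h0⟩) := fun a => Subtype.ext <| by
        change L a (0 : ℝ) = L ξ₀ (0 : ℝ)
        rw [(hL a a.2).2.2, (hL ξ₀ h0).2.2]
      simp only [this]
      exact continuous_const
    · intro a
      exact ((hL a a.2).1.comp_continuous continuous_subtype_val fun x => x.2).subtype_mk _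
  let H : ℂ → ℂ := fun ξ => L ξ 1
  have hHreg : ∀ ξ ∈ S, H ξ ∈ Lift.Reg G U ∧ G (H ξ) = Φ ξ := by
    intro ξ hξ
    have := (hL ξ hξ).2.1 1 ⟨zero_le_one, le_rfl⟩
    refine ⟨this.1, this.2.trans ?_⟩
    simp
  have hHc : ContinuousOn H S := by
    rw [continuousOn_iff_continuous_domRestrict]
    have h1 : Continuous fun ξ : S => (g (1, ξ) : ℂ) :=
      continuous_subtype_val.comp (hg.comp (Continuous.prodMk continuous_const continuous_id))
    exact h1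
  refine ⟨H, ?_, fun ξ hξ => (hHreg ξ hξ).1.1, fun ξ hξ => (hHreg ξ hξ).2, ?_⟩
  · intro ξ hξ
    refine DifferentiableAt.differentiableWithinAt ?_
    obtain ⟨hR, hGξ⟩ := hHreg ξ hξ
    have h1 : HasStrictDerivAt G (deriv G (H ξ)) (H ξ) :=
      ((hG.contDiff (n := 1)).contDiffAt).hasStrictDerivAt one_ne_zero
    have h2 := h1.hasStrictFDerivAt_equiv hR.2
    have h3 := h2.eventually_left_inverse
    have hcat : ContinuousAt H ξ := hHc.continuousAt (hSo.mem_nhds hξ)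
    have h4 : H =ᶠ[𝓝 ξ] fun ξ' => h2.localInverse G _ _ (Φ ξ') := by
      filter_upwards [hcat.eventually h3, hSo.mem_nhds hξ] with ξ' h5 h6
      rw [← (hHreg ξ' h6).2]
      exact h5.symm
    refine DifferentiableAt.congr_of_eventuallyEq ?_ h4
    refine DifferentiableAt.comp ξ ?_ (hΦ.differentiableAt (hSo.mem_nhds hξ))
    rw [← hGξ]
    exact h2.to_localInverse.hasFDerivAt.differentiableAt
  · -- the lift of the constant path is constant
    have h1 : Lift.IsLift G U (fun t => Φ (ξ₀ + t * (ξ₀ - ξ₀))) z₀ 1 fun _ => z₀ := by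
      refine ⟨continuousOn_const, fun s hs => ?_, rfl⟩
      have h2 := (hL ξ₀ h0).2.1 0 ⟨le_rfl, zero_le_one⟩
      rw [(hL ξ₀ h0).2.2] at h2
      refine ⟨h2.1, ?_⟩
      simpa using hz
    exact (hL ξ₀ h0).eqOn hG hUo h1 ⟨zero_le_one, le_rfl⟩

end Pool.Agent.BB
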