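import Pool.Agent.BB.Defs
import Pool.Agent.BB.Koebe
import Pool.Agent.BB.Lift
import Pool.Agent.BB.Gen

/-!
# Basin boundaries: the setup and the lifts of the universal covering of the outer annulus
-/

open Set Metric Filter Topology

namespace Pool.Agent.BB

/-- The data used in the main argument. -/
structure Setup where
  F : ℂ → ℂ
  hF : Differentiable ℂ F
  U : Set ℂ
  hUo : IsOpen U
  φ : ℂ → ℂ
  ψ : ℂ → ℂ
  hφ : DifferentiableOn ℂ φ (ball 0 1)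
  hψ : DifferentiableOn ℂ ψ U
  hφψ : ∀ ζ ∈ ball (0:ℂ) 1, φ ζ ∈ U ∧ ψ (φ ζ) = ζ
  hψφ : ∀ z ∈ U, ψ z ∈ ball (0:ℂ) 1 ∧ φ (ψ z) = z
  hFU : MapsTo F U U
  hcl : ∀ z ∈ closure U, F z ∈ U → z ∈ U
  hschwarz : ∀ z ∈ U, ‖ψ (F z)‖ ≤ ‖ψ z‖
  hlim : ∀ z ∈ U, Tendsto (fun n : ℕ => ψ (F^[n] z)) atTop (𝓝 0)
  hunb : ¬ Bornology.IsBounded U
  ρ₀ : ℝ
  ρ : ℝ
  r₁ : ℝ
  hρ₀ : 0 < ρ₀
  hρ : ρ₀ < ρ
  hρr : ρ < r₁
  hr₁ : r₁ < 1
  hsing : ∀ w ∈ U, ρ₀ < ‖ψ w‖ → w ∉ SingVals F U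
  p : ℂ
  R : ℝ
  hR : 0 < R
  hpU : p ∉ U
  hbr : ∀ (n : ℕ) (v : ℂ), F^[n] v ∈ ball p (2 * R) → ∃ h : ℂ → ℂ,
    DifferentiableOn ℂ h (ball p (2 * R)) ∧ (∀ x ∈ ball p (2 * R), F^[n] (h x) = x) ∧
      h (F^[n] v) = v
  hcirc : ∀ t : ℝ, 0 < t → ∃ y : ℂ, ‖y - p‖ = t ∧ y ∉ U
  htail : ∀ x : ℝ, r₁ ≤ x → x < 1 → φ x ∈ ball p R
  us : ℂ
  hus : ball us ‖us - p‖ ⊆ U
  hus0 : φ r₁ ∈ ball us ‖us - p‖
  husR : ‖us - p‖ < R

namespace Setup

variable (s : Setup)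

/-- the strip -/
def S : Set ℂ := {x | Real.log s.ρ₀ < x.re ∧ x.re < 0}

/-- the universal covering of the outer annulus -/
noncomputable def E (x : ℂ) : ℂ := s.φ (Complex.exp x)

/-- base point in the strip -/
noncomputable def ξ₀ : ℂ := ((Real.log s.r₁ : ℝ) : ℂ)

/-- base point -/
noncomputable def u₀ : ℂ := s.φ s.r₁

lemma ρ_pos : 0 < s.ρ := s.hρ₀.trans s.hρ
lemma r₁_pos : 0 < s.r₁ := s.ρ_pos.trans s.hρr

lemma S_open : IsOpen s.S :=
  (isOpen_lt continuous_const Complex.continuous_re).inter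
    (isOpen_lt Complex.continuous_re continuous_const)

lemma S_convex : Convex ℝ s.S := by
  intro x hx y hy a b ha hb hab
  simp only [S, mem_setOf_eq, Complex.add_re, Complex.real_smul, Complex.mul_re,
    Complex.ofReal_re, Complex.ofReal_im, zero_mul, sub_zero] at hx hy ⊢
  constructor
  · rcases eq_or_lt_of_le ha with h | h
    · subst h
      have : b = 1 := by linarith
      subst this
      simpa using hy.1
    · have h1 : a * Real.log s.ρ₀ < a * x.re := mul_lt_mul_of_pos_left hx.1 h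
      have h2 : b * Real.log s.ρ₀ ≤ b * y.re := mul_le_mul_of_nonneg_left hy.1.le hb
      have h3 : a * Real.log s.ρ₀ + b * Real.log s.ρ₀ = Real.log s.ρ₀ := by
        rw [← add_mul, hab, one_mul]
      linarith
  · rcases eq_or_lt_of_le ha with h | h
    · subst h
      have : b = 1 := by linarith
      subst this
      simpa using hy.2
    · have h1 : a * x.re < 0 := mul_neg_of_pos_of_neg h hx.2
      have h2 : b * y.re ≤ 0 := mul_nonpos_of_nonneg_of_nonpos hb hy.2.le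
      linarith

lemma S_add (x : ℂ) (hx : x ∈ s.S) (y : ℝ) : x + (y : ℂ) * Complex.I ∈ s.S := by
  simpa [S] using hx

lemma norm_exp_gt {x : ℂ} (hx : x ∈ s.S) : s.ρ₀ < ‖Complex.exp x‖ := by
  rw [Complex.norm_exp, ← Real.log_lt_iff_lt_exp s.hρ₀]
  exact hx.1

lemma norm_exp_lt {x : ℂ} (hx : x ∈ s.S) : ‖Complex.exp x‖ < 1 := by
  rw [Complex.norm_exp, Real.exp_lt_one_iff]
  exact hx.2

lemma exp_mem {x : ℂ} (hx : x ∈ s.S) : Complex.exp x ∈ ball (0:ℂ) 1 := by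
  simpa using s.norm_exp_lt hx

lemma E_mem {x : ℂ} (hx : x ∈ s.S) : s.E x ∈ s.U := (s.hφψ _ (s.exp_mem hx)).1

lemma ψ_E {x : ℂ} (hx : x ∈ s.S) : s.ψ (s.E x) = Complex.exp x := (s.hφψ _ (s.exp_mem hx)).2

lemma E_diff : DifferentiableOn ℂ s.E s.S :=
  s.hφ.comp Complex.differentiable_exp.differentiableOn fun _ hx => s.exp_mem hx

lemma E_inj {x y : ℂ} (hx : x ∈ s.S) (hy : y ∈ s.S) (h : s.E x = s.E y) :
    Complex.exp x = Complex.exp y := by
  rw [← s.ψ_E hx, ← s.ψ_E hy, h]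

lemma E_period (x : ℂ) : s.E (x + 2 * Real.pi * Complex.I) = s.E x := by
  simp only [E, Complex.exp_add, Complex.exp_two_pi_mul_I, mul_one]

lemma deriv_φ_ne {z : ℂ} (hz : z ∈ ball (0:ℂ) 1) : deriv s.φ z ≠ 0 := by
  have h1 : HasDerivAt s.φ (deriv s.φ z) z :=
    (s.hφ.differentiableAt (isOpen_ball.mem_nhds hz)).hasDerivAt
  have h2 : HasDerivAt s.ψ (deriv s.ψ (s.φ z)) (s.φ z) :=
    (s.hψ.differentiableAt (s.hUo.mem_nhds (s.hφψ z hz).1)).hasDerivAt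
  have h3 := h2.comp z h1
  have h4 : HasDerivAt (s.ψ ∘ s.φ) 1 z := by
    refine (hasDerivAt_id z).congr_of_eventuallyEq ?_
    filter_upwards [isOpen_ball.mem_nhds hz] with w hw
    exact (s.hφψ w hw).2
  intro h
  have := h3.unique h4
  rw [h, mul_zero] at this
  exact zero_ne_one this

lemma E_hasDeriv {x : ℂ} (hx : x ∈ s.S) :
    HasDerivAt s.E (deriv s.φ (Complex.exp x) * Complex.exp x) x := by
  have h1 : HasDerivAt s.φ (deriv s.φ (Complex.exp x)) (Complex.exp x) :=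
    (s.hφ.differentiableAt (isOpen_ball.mem_nhds (s.exp_mem hx))).hasDerivAt
  exact h1.comp x (Complex.hasDerivAt_exp x)

lemma deriv_E_ne {x : ℂ} (hx : x ∈ s.S) : deriv s.E x ≠ 0 := by
  rw [(s.E_hasDeriv hx).deriv]
  exact mul_ne_zero (s.deriv_φ_ne (s.exp_mem hx)) (Complex.exp_ne_zero x)

lemma log_ρ₀_lt : Real.log s.ρ₀ < Real.log s.ρ := Real.log_lt_log s.hρ₀ s.hρ
lemma log_ρ_lt : Real.log s.ρ < Real.log s.r₁ := Real.log_lt_log s.ρ_pos s.hρr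
lemma log_r₁_lt : Real.log s.r₁ < 0 := Real.log_neg s.r₁_pos s.hr₁

lemma ξ₀_mem : s.ξ₀ ∈ s.S := by
  simp only [S, ξ₀, mem_setOf_eq, Complex.ofReal_re]
  exact ⟨s.log_ρ₀_lt.trans s.log_ρ_lt, s.log_r₁_lt⟩

lemma exp_ofReal_log {x : ℝ} (hx : 0 < x) : Complex.exp ((Real.log x : ℝ) : ℂ) = x := by
  rw [← Complex.ofReal_exp, Real.exp_log hx]

lemma E_ξ₀ : s.E s.ξ₀ = s.u₀ := by
  simp only [E, ξ₀, u₀, exp_ofReal_log s.r₁_pos]

lemma u₀_mem : s.u₀ ∈ s.U := by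
  rw [← s.E_ξ₀]; exact s.E_mem s.ξ₀_mem

lemma u₀_ball : s.u₀ ∈ ball s.p s.R := s.htail s.r₁ le_rfl s.hr₁

lemma iter_mem {z : ℂ} (hz : z ∈ s.U) (n : ℕ) : s.F^[n] z ∈ s.U := s.hFU.iterate n hz

lemma iter_diff (n : ℕ) : Differentiable ℂ s.F^[n] := s.hF.iterate n

lemma schwarz_iter {z : ℂ} (hz : z ∈ s.U) (n : ℕ) : ‖s.ψ (s.F^[n] z)‖ ≤ ‖s.ψ z‖ := by
  induction n with
  | zero => simp
  | succ n ih =>
    rw [Function.iterate_succ_apply']
    exact (s.hschwarz _ (s.iter_mem hz n)).trans ih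

lemma cl_maps {z : ℂ} (hz : z ∈ closure s.U) : s.F z ∈ closure s.U := by
  exact map_mem_closure s.hF.continuous hz s.hFU

lemma cl_iter : ∀ (n : ℕ) {z : ℂ}, z ∈ closure s.U → s.F^[n] z ∈ s.U → z ∈ s.U := by
  intro n
  induction n with
  | zero => intro z _ h; simpa using h
  | succ n ih =>
    intro z hz h
    rw [Function.iterate_succ_apply] at h
    exact s.hcl z hz (ih (s.cl_maps hz) h)

/-- Existence of lifts over the strip. -/
theorem liftS : ∀ (n : ℕ) {z ξ : ℂ}, z ∈ s.U → ξ ∈ s.S → s.F^[n] z = s.E ξ →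
    ∃ H : ℂ → ℂ, DifferentiableOn ℂ H s.S ∧ MapsTo H s.S s.U ∧
      (∀ x ∈ s.S, s.F^[n] (H x) = s.E x) ∧ H ξ = z := by
  intro n
  induction n with
  | zero =>
    intro z ξ hz hξ h
    exact ⟨s.E, s.E_diff, fun x hx => s.E_mem hx, fun x _ => rfl, h.symm⟩
  | succ n ih =>
    intro z ξ hz hξ h
    rw [Function.iterate_succ_apply] at h
    obtain ⟨H1, hd1, hm1, he1, h01⟩ := ih (s.hFU hz) hξ h
    have hW : ∀ w ∈ {w | w ∈ s.U ∧ s.ρ₀ < ‖s.ψ w‖}, w ∉ SingVals s.F s.U :=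
      fun w hw => s.hsing w hw.1 hw.2
    have hmW : MapsTo H1 s.S {w | w ∈ s.U ∧ s.ρ₀ < ‖s.ψ w‖} := by
      intro x hx
      refine ⟨hm1 hx, ?_⟩
      have h1 := s.schwarz_iter (hm1 hx) n
      rw [he1 x hx, s.ψ_E hx] at h1
      exact (s.norm_exp_gt hx).trans_le h1
    obtain ⟨H, hd, hm, he, h0⟩ := lift_convex s.hF s.hUo hW s.S_convex s.S_open hd1 hmW hξ hz
      (by rw [h01])
    refine ⟨H, hd, hm, fun x hx => ?_, h0⟩
    rw [Function.iterate_succ_apply, he x hx, he1 x hx]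

/-- derivative relation for lifts -/
lemma deriv_mul {n : ℕ} {S' : Set ℂ} (hS' : IsOpen S') {H E' : ℂ → ℂ} (hH : DifferentiableOn ℂ H S')
    (he : ∀ x ∈ S', s.F^[n] (H x) = E' x) {x : ℂ} (hx : x ∈ S') :
    deriv s.F^[n] (H x) * deriv H x = deriv E' x := by
  have h1 : HasDerivAt H (deriv H x) x :=
    (hH.differentiableAt (hS'.mem_nhds hx)).hasDerivAt
  have h2 : HasDerivAt s.F^[n] (deriv s.F^[n] (H x)) (H x) := (s.iter_diff n (H x)).hasDerivAt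
  have h3 := h2.comp x h1
  have h4 : (s.F^[n] ∘ H) =ᶠ[𝓝 x] E' := by
    filter_upwards [hS'.mem_nhds hx] with y hy
    exact he y hy
  exact (h3.congr_of_eventuallyEq h4.symm).deriv.symm

/-- Lifts over the strip are injective on small balls. -/
lemma lift_injOn {n : ℕ} {H : ℂ → ℂ} (he : ∀ x ∈ s.S, s.F^[n] (H x) = s.E x)
    {x : ℂ} {r : ℝ} (hr : r ≤ 1) (hb : ball x r ⊆ s.S) : InjOn H (ball x r) := by
  intro y hy z hz hyz
  have h1 : Complex.exp y = Complex.exp z :=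
    s.E_inj (hb hy) (hb hz) (by rw [← he y (hb hy), ← he z (hb hz), hyz])
  rw [Complex.exp_eq_exp_iff_exists_int] at h1
  obtain ⟨k, hk⟩ := h1
  have h2 : ‖y - z‖ < 2 := by
    have h3 : dist y z < r + r := by
      have := dist_triangle_right y z x
      rw [mem_ball] at hy hz
      linarith
    rw [dist_eq_norm] at h3
    linarith
  have h4 : y - z = k * (2 * Real.pi * Complex.I) := by rw [hk]; ring
  rw [h4] at h2
  have h5 : ‖(k : ℂ) * (2 * Real.pi * Complex.I)‖ = |(k : ℝ)| * (2 * Real.pi) := by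
    simp [abs_of_pos Real.pi_pos]
  rw [h5] at h2
  have hk0 : k = 0 := by
    by_contra hne
    have h6 : (1 : ℝ) ≤ |(k : ℝ)| := by
      have := Int.one_le_abs hne
      exact_mod_cast this
    have := Real.pi_gt_three
    nlinarith
  subst hk0
  have : y - z = 0 := by rw [h4]; simp
  exact sub_eq_zero.mp this

end Setup

end Pool.Agent.BB
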