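import Pool.Agent.BB.Core1

/-!
# Basin boundaries: cells and branches
-/

open Set Metric Filter Topology

namespace Pool.Agent.BB

namespace Setup

variable (s : Setup)

/-- size of the inverse branch at `v` -/
noncomputable def sz (n : ℕ) (v : ℂ) : ℝ := ‖deriv s.F^[n] v‖⁻¹

/-- the rectangle -/
def Kr : Set ℂ := {x | Real.log s.ρ ≤ x.re ∧ x.re ≤ Real.log s.r₁ ∧ 0 ≤ x.im ∧ x.im ≤ 2 * Real.pi}

/-- radius of the balls around points of the rectangle -/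
noncomputable def s₀ : ℝ := min (min (Real.log s.ρ - Real.log s.ρ₀) (-Real.log s.r₁)) 1

lemma s₀_pos : 0 < s.s₀ := by
  have h1 := s.log_ρ₀_lt
  have h2 := s.log_r₁_lt
  simp only [s₀, lt_min_iff]
  exact ⟨⟨by linarith, by linarith⟩, one_pos⟩

lemma s₀_le : s.s₀ ≤ 1 := min_le_right _ _

lemma Kr_ball {x : ℂ} (hx : x ∈ s.Kr) : ball x s.s₀ ⊆ s.S := by
  intro y hy
  rw [mem_ball, dist_eq_norm] at hy
  have h1 : |(y - x).re| < s.s₀ := (Complex.abs_re_le_norm _).trans_lt hy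
  rw [Complex.sub_re, abs_lt] at h1
  have h2 : s.s₀ ≤ Real.log s.ρ - Real.log s.ρ₀ := (min_le_left _ _).trans (min_le_left _ _)
  have h3 : s.s₀ ≤ -Real.log s.r₁ := (min_le_left _ _).trans (min_le_right _ _)
  obtain ⟨h4, h5, -, -⟩ := hx
  constructor
  · linarith [h1.1]
  · linarith [h1.2]

lemma Kr_sub : s.Kr ⊆ s.S := fun x hx => s.Kr_ball hx (mem_ball_self s.s₀_pos)

lemma Kr_convex : Convex ℝ s.Kr := by
  have h1 : Convex ℝ {x : ℂ | Real.log s.ρ ≤ x.re} := convex_halfSpace_re_ge _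
  have h2 : Convex ℝ {x : ℂ | x.re ≤ Real.log s.r₁} := convex_halfSpace_re_le _
  have h3 : Convex ℝ {x : ℂ | 0 ≤ x.im} := convex_halfSpace_im_ge _
  have h4 : Convex ℝ {x : ℂ | x.im ≤ 2 * Real.pi} := convex_halfSpace_im_le _
  have : s.Kr = {x : ℂ | Real.log s.ρ ≤ x.re} ∩ ({x : ℂ | x.re ≤ Real.log s.r₁} ∩
      ({x : ℂ | 0 ≤ x.im} ∩ {x : ℂ | x.im ≤ 2 * Real.pi})) := by
    ext x; simp [Kr]
  rw [this]
  exact h1.inter (h2.inter (h3.inter h4))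

lemma Kr_diam : ∀ x ∈ s.Kr, ∀ y ∈ s.Kr,
    ‖x - y‖ ≤ (Real.log s.r₁ - Real.log s.ρ) + 2 * Real.pi := by
  intro x hx y hy
  obtain ⟨a1, a2, a3, a4⟩ := hx
  obtain ⟨b1, b2, b3, b4⟩ := hy
  refine (Complex.norm_le_abs_re_add_abs_im _).trans ?_
  rw [Complex.sub_re, Complex.sub_im]
  have h1 : |x.re - y.re| ≤ Real.log s.r₁ - Real.log s.ρ := by
    rw [abs_le]; constructor <;> linarith
  have h2 : |x.im - y.im| ≤ 2 * Real.pi := by
    rw [abs_le]; constructor <;> linarith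
  linarith

lemma ξ₀_Kr : s.ξ₀ ∈ s.Kr := by
  refine ⟨?_, ?_, ?_, ?_⟩
  · simpa [ξ₀] using s.log_ρ_lt.le
  · simp [ξ₀]
  · simp [ξ₀]
  · simp [ξ₀, Real.pi_pos.le]

lemma ξ₁_Kr : s.ξ₀ + 2 * Real.pi * Complex.I ∈ s.Kr := by
  refine ⟨?_, ?_, ?_, ?_⟩
  · simpa [ξ₀] using s.log_ρ_lt.le
  · simp [ξ₀]
  · simp [ξ₀, Real.pi_pos.le]
  · simp [ξ₀]

/-- distortion on the rectangle -/
theorem rect_dist : ∃ C : ℝ, 1 ≤ C ∧ ∀ (n : ℕ) (H : ℂ → ℂ), DifferentiableOn ℂ H s.S →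
    (∀ x ∈ s.S, s.F^[n] (H x) = s.E x) → ∀ x ∈ s.Kr, ∀ y ∈ s.Kr,
      ‖deriv H x‖ ≤ C * ‖deriv H y‖ ∧ ‖H x - H y‖ ≤ C * ‖deriv H y‖ := by
  obtain ⟨C, hC1, hC⟩ := chain_dist s.s₀_pos ((Real.log s.r₁ - Real.log s.ρ) + 2 * Real.pi)
  refine ⟨C, hC1, fun n H hd he x hx y hy => ?_⟩
  exact hC s.Kr H s.Kr_convex s.Kr_diam (fun z hz => hd.mono (s.Kr_ball hz))
    (fun z hz => s.lift_injOn he s.s₀_le (s.Kr_ball hz)) x hx y hy

lemma deriv_ne_of_lift {n : ℕ} {H : ℂ → ℂ} (hd : DifferentiableOn ℂ H s.S)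
    (he : ∀ x ∈ s.S, s.F^[n] (H x) = s.E x) {x : ℂ} (hx : x ∈ s.S) :
    deriv s.F^[n] (H x) ≠ 0 := by
  have h := s.deriv_mul s.S_open hd he hx
  intro h0
  rw [h0, zero_mul] at h
  exact s.deriv_E_ne hx h.symm

lemma norm_deriv_lift {n : ℕ} {H : ℂ → ℂ} (hd : DifferentiableOn ℂ H s.S)
    (he : ∀ x ∈ s.S, s.F^[n] (H x) = s.E x) {x : ℂ} (hx : x ∈ s.S) :
    ‖deriv H x‖ = ‖deriv s.E x‖ * s.sz n (H x) := by
  have h := s.deriv_mul s.S_open hd he hx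
  have h0 := s.deriv_ne_of_lift hd he hx
  have h1 : ‖deriv s.F^[n] (H x)‖ ≠ 0 := norm_ne_zero_iff.mpr h0
  rw [← h, norm_mul, sz]
  field_simp

/-- If `F^n v = u₀` with `v ∈ U` then `v` is not critical. -/
lemma deriv_ne_zero {n : ℕ} {v : ℂ} (hv : v ∈ s.U) (h : s.F^[n] v = s.u₀) :
    deriv s.F^[n] v ≠ 0 := by
  obtain ⟨H, hd, -, he, h0⟩ := s.liftS n hv s.ξ₀_mem (by rw [h, s.E_ξ₀])
  rw [← h0]
  exact s.deriv_ne_of_lift hd he s.ξ₀_mem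

lemma sz_pos {n : ℕ} {v : ℂ} (hv : v ∈ s.U) (h : s.F^[n] v = s.u₀) : 0 < s.sz n v :=
  inv_pos.mpr (norm_pos_iff.mpr (s.deriv_ne_zero hv h))

/-- points on the circle of radius ρ come from the left side of the rectangle -/
lemma exists_arg {ω : ℂ} (hω : ‖ω‖ = s.ρ) : ∃ x ∈ s.Kr, x.re = Real.log s.ρ ∧
    Complex.exp x = ω := by
  have hω0 : ω ≠ 0 := by
    intro h; rw [h, norm_zero] at hω; exact s.ρ_pos.ne hω
  have hre : (Complex.log ω).re = Real.log s.ρ := by rw [Complex.log_re, hω]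
  rcases le_or_gt 0 (Complex.log ω).im with h | h
  · refine ⟨Complex.log ω, ⟨hre.ge, hre.le.trans s.log_ρ_lt.le, h, ?_⟩, hre, Complex.exp_log hω0⟩
    have := Complex.log_im_le_pi ω
    linarith [Real.pi_pos]
  · refine ⟨Complex.log ω + 2 * Real.pi * Complex.I, ⟨?_, ?_, ?_, ?_⟩, ?_, ?_⟩
    · simp [hre]
    · simp [hre, s.log_ρ_lt.le]
    · have := Complex.neg_pi_lt_log_im ω
      simp only [Complex.add_im, Complex.mul_im, Complex.mul_re, Complex.re_ofNat,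
        Complex.ofReal_re, Complex.im_ofNat, Complex.ofReal_im, mul_zero, sub_zero, Complex.I_im,
        mul_one, zero_mul, add_zero, Complex.I_re]
      linarith [Real.pi_pos]
    · simp only [Complex.add_im, Complex.mul_im, Complex.mul_re, Complex.re_ofNat,
        Complex.ofReal_re, Complex.im_ofNat, Complex.ofReal_im, mul_zero, sub_zero, Complex.I_im,
        mul_one, zero_mul, add_zero, Complex.I_re]
      linarith
    · simp [hre]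
    · rw [Complex.exp_add, Complex.exp_two_pi_mul_I, mul_one, Complex.exp_log hω0]

lemma compl_nonempty : (s.Uᶜ).Nonempty := ⟨s.p, s.hpU⟩

/-- The cell lemma. -/
theorem cell : ∃ C : ℝ, 1 ≤ C ∧ ∀ (n : ℕ) (z : ℂ), z ∈ s.U → ‖s.ψ (s.F^[n] z)‖ = s.ρ →
    ∃ w ∈ s.U, s.F^[n] w = s.u₀ ∧ s.sz n w ≤ C * infDist z s.Uᶜ ∧
      ∃ Z : Set ℂ, IsPreconnected Z ∧ Z ⊆ s.U ∧ z ∈ Z ∧ w ∈ Z ∧
        Z ⊆ closedBall w (C * s.sz n w) := by
  obtain ⟨C, hC1, hC⟩ := s.rect_dist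
  have hE0 : 0 < ‖deriv s.E s.ξ₀‖ := norm_pos_iff.mpr (s.deriv_E_ne s.ξ₀_mem)
  have hs0 := s.s₀_pos
  have hC0 : 0 < C := by linarith
  refine ⟨max 1 (max (C * ‖deriv s.E s.ξ₀‖) (16 * C / (s.s₀ * ‖deriv s.E s.ξ₀‖))), le_max_left _ _,
    fun n z hz hψ => ?_⟩
  obtain ⟨x, hxK, -, hx⟩ := s.exists_arg hψ
  have hxS : x ∈ s.S := s.Kr_sub hxK
  have hEx : s.F^[n] z = s.E x := by
    rw [E, hx]
    exact ((s.hψφ _ (s.iter_mem hz n)).2).symm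
  obtain ⟨H, hd, hm, he, h0⟩ := s.liftS n hz hxS hEx
  have hsz := s.norm_deriv_lift hd he s.ξ₀_mem
  have hw : s.F^[n] (H s.ξ₀) = s.u₀ := by rw [he _ s.ξ₀_mem, s.E_ξ₀]
  have hszpos := s.sz_pos (hm s.ξ₀_mem) hw
  refine ⟨H s.ξ₀, hm s.ξ₀_mem, hw, ?_, H '' s.Kr, ?_, ?_, ?_, ?_, ?_⟩
  · -- size estimate
    have hb : ball x s.s₀ ⊆ s.S := s.Kr_ball hxK
    have h1 := koebe_cover hs0 (hd.mono hb) (s.lift_injOn he s.s₀_le hb)
    rw [h0] at h1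
    have h2 : ball z (s.s₀ * ‖deriv H x‖ / 16) ⊆ s.U := by
      refine h1.trans ?_
      rintro _ ⟨y, hy, rfl⟩
      exact hm (hb hy)
    have h3 : s.s₀ * ‖deriv H x‖ / 16 ≤ infDist z s.Uᶜ := by
      rw [le_infDist s.compl_nonempty]
      intro y hy
      by_contra hlt
      push Not at hlt
      exact hy (h2 (by rwa [mem_ball, dist_comm]))
    have h4 := (hC n H hd he s.ξ₀ s.ξ₀_Kr x hxK).1
    rw [hsz] at h4
    have h5 : s.sz n (H s.ξ₀) ≤ 16 * C / (s.s₀ * ‖deriv s.E s.ξ₀‖) * infDist z s.Uᶜ := by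
      rw [div_mul_eq_mul_div, le_div_iff₀ (by positivity)]
      calc s.sz n (H s.ξ₀) * (s.s₀ * ‖deriv s.E s.ξ₀‖)
          = s.s₀ * (‖deriv s.E s.ξ₀‖ * s.sz n (H s.ξ₀)) := by ring
        _ ≤ s.s₀ * (C * ‖deriv H x‖) := by gcongr
        _ = 16 * C * (s.s₀ * ‖deriv H x‖ / 16) := by ring
        _ ≤ 16 * C * infDist z s.Uᶜ := by gcongr
    refine h5.trans ?_
    gcongr
    · exact infDist_nonneg
    · exact (le_max_right _ _).trans (le_max_right _ _)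
  · exact s.Kr_convex.isPreconnected.image H (hd.continuousOn.mono s.Kr_sub)
  · rintro _ ⟨y, hy, rfl⟩
    exact hm (s.Kr_sub hy)
  · exact ⟨x, hxK, h0⟩
  · exact ⟨s.ξ₀, s.ξ₀_Kr, rfl⟩
  · rintro _ ⟨y, hy, rfl⟩
    have h4 := (hC n H hd he y hy s.ξ₀ s.ξ₀_Kr).2
    rw [mem_closedBall, dist_eq_norm]
    refine h4.trans ?_
    rw [hsz, ← mul_assoc]
    gcongr
    exact (le_max_left _ _).trans (le_max_right _ _)

lemma u₀_ball2 : s.u₀ ∈ ball s.p (2 * s.R) :=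
  ball_subset_ball (by linarith [s.hR]) s.u₀_ball

lemma closedBall_sub : closedBall s.p s.R ⊆ ball s.p (2 * s.R) :=
  closedBall_subset_ball (by linarith [s.hR])

/-- The branch lemma. -/
theorem branch : ∃ C : ℝ, 1 ≤ C ∧ ∀ (n : ℕ) (v : ℂ), s.F^[n] v = s.u₀ →
    ∃ h : ℂ → ℂ, DifferentiableOn ℂ h (ball s.p (2 * s.R)) ∧
      (∀ x ∈ ball s.p (2 * s.R), s.F^[n] (h x) = x) ∧ h s.u₀ = v ∧
      InjOn h (ball s.p (2 * s.R)) ∧
      (∀ x ∈ closedBall s.p s.R, ∀ y ∈ closedBall s.p s.R,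
        ‖h x - h y‖ ≤ C * s.sz n v * ‖x - y‖ ∧ s.sz n v * ‖x - y‖ ≤ C * ‖h x - h y‖) ∧
      (∀ x ∈ closedBall s.p s.R, ‖deriv h x‖ ≤ C * s.sz n v) := by
  obtain ⟨C, hC1, hC⟩ := koebe_dist (θ := 1 / 2) (by norm_num) (by norm_num)
  have hC0 : 0 < C := by linarith
  refine ⟨C * C, by nlinarith, fun n v hv => ?_⟩
  obtain ⟨h, hd, he, h0⟩ := s.hbr n v (by rw [hv]; exact s.u₀_ball2)
  rw [hv] at h0
  have hinj : InjOn h (ball s.p (2 * s.R)) := by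
    intro x hx y hy hxy
    rw [← he x hx, ← he y hy, hxy]
  have hderiv : deriv s.F^[n] (h s.u₀) * deriv h s.u₀ = 1 := by
    have h1 := s.deriv_mul isOpen_ball hd (E' := id) (fun x hx => he x hx) s.u₀_ball2
    rw [h1, deriv_id]
  have hsz : ‖deriv h s.u₀‖ = s.sz n v := by
    rw [sz, ← h0]
    have h2 : ‖deriv s.F^[n] (h s.u₀)‖ * ‖deriv h s.u₀‖ = 1 := by
      rw [← norm_mul, hderiv, norm_one]
    exact eq_inv_of_mul_eq_one_right h2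
  have hR := s.hR
  obtain ⟨hC2, hC3⟩ := hC h s.p (2 * s.R) (by linarith) hd hinj
  have hrr : 1 / 2 * (2 * s.R) = s.R := by ring
  rw [hrr] at hC2 hC3
  have hu : s.u₀ ∈ closedBall s.p s.R := ball_subset_closedBall s.u₀_ball
  have ha := hC2 s.u₀ hu
  rw [hsz] at ha
  refine ⟨h, hd, he, h0, hinj, fun x hx y hy => ?_, fun x hx => ?_⟩
  · obtain ⟨h4, h5⟩ := hC3 x hx y hy
    constructor
    · refine h4.trans ?_
      have : C * ‖deriv h s.p‖ ≤ C * C * s.sz n v := by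
        rw [mul_assoc]; gcongr; exact ha.2
      gcongr
    · calc s.sz n v * ‖x - y‖ ≤ C * ‖deriv h s.p‖ * ‖x - y‖ := by gcongr; exact ha.1
        _ = C * (‖deriv h s.p‖ * ‖x - y‖) := by ring
        _ ≤ C * (C * ‖h x - h y‖) := by gcongr
        _ = C * C * ‖h x - h y‖ := by ring
  · calc ‖deriv h x‖ ≤ C * ‖deriv h s.p‖ := (hC2 x hx).1
      _ ≤ C * (C * s.sz n v) := by gcongr; exact ha.2
      _ = C * C * s.sz n v := by ring

end Setup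

end Pool.Agent.BB
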