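import Pool.Agent.BB.Core2

/-!
# Basin boundaries: the tiles
-/

open Set Metric Filter Topology

namespace Pool.Agent.BB

namespace Setup

variable (s : Setup)

/-- the slit strip of height `2π` -/
def S0 : Set ℂ := {x | (Real.log s.ρ < x.re ∧ x.re < 0) ∧ (0 < x.im ∧ x.im < 2 * Real.pi)}

lemma S0_sub : s.S0 ⊆ s.S := fun _ hx => ⟨s.log_ρ₀_lt.trans hx.1.1, hx.1.2⟩

lemma S0_open : IsOpen s.S0 :=
  ((isOpen_lt continuous_const Complex.continuous_re).inter
    (isOpen_lt Complex.continuous_re continuous_const)).inter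
  ((isOpen_lt continuous_const Complex.continuous_im).inter
    (isOpen_lt Complex.continuous_im continuous_const))

lemma S0_convex : Convex ℝ s.S0 := by
  have h1 : Convex ℝ {x : ℂ | Real.log s.ρ < x.re} := convex_halfSpace_re_gt _
  have h2 : Convex ℝ {x : ℂ | x.re < 0} := convex_halfSpace_re_lt _
  have h3 : Convex ℝ {x : ℂ | 0 < x.im} := convex_halfSpace_im_gt _
  have h4 : Convex ℝ {x : ℂ | x.im < 2 * Real.pi} := convex_halfSpace_im_lt _
  exact (h1.inter h2).inter (h3.inter h4)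

/-- `H` is the lift of `E` through `F^n` with base point `v` -/
def IsLift (n : ℕ) (v : ℂ) (H : ℂ → ℂ) : Prop :=
  DifferentiableOn ℂ H s.S ∧ MapsTo H s.S s.U ∧ (∀ x ∈ s.S, s.F^[n] (H x) = s.E x) ∧ H s.ξ₀ = v

/-- the tile of `v` -/
def tile (n : ℕ) (v : ℂ) : Set ℂ := {z | ∃ H : ℂ → ℂ, s.IsLift n v H ∧ z ∈ H '' s.S0}

lemma exists_lift {n : ℕ} {v : ℂ} (hv : v ∈ s.U) (h : s.F^[n] v = s.u₀) :
    ∃ H : ℂ → ℂ, s.IsLift n v H := by
  obtain ⟨H, hd, hm, he, h0⟩ := s.liftS n hv s.ξ₀_mem (by rw [h, s.E_ξ₀])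
  exact ⟨H, hd, hm, he, h0⟩

lemma IsLift.eqOn {s : Setup} {n : ℕ} {v v' : ℂ} {H H' : ℂ → ℂ} (h : s.IsLift n v H)
    (h' : s.IsLift n v' H') {x : ℂ} (hx : x ∈ s.S) (hxx : H x = H' x) : EqOn H H' s.S := by
  obtain ⟨hd, hm, he, h0⟩ := h
  obtain ⟨hd', hm', he', h0'⟩ := h'
  exact lift_unique (s.iter_diff n) s.S_open s.S_convex.isPreconnected hd hd'
    (fun y hy => by rw [he y hy, he' y hy]) hx hxx (s.deriv_ne_of_lift hd he hx)

lemma tile_eq {n : ℕ} {v : ℂ} {H : ℂ → ℂ} (h : s.IsLift n v H) : s.tile n v = H '' s.S0 := by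
  ext z
  constructor
  · rintro ⟨H', h', x, hx, rfl⟩
    have := h.eqOn h' s.ξ₀_mem (by rw [h.2.2.2, h'.2.2.2])
    exact ⟨x, hx, this (s.S0_sub hx)⟩
  · intro hz
    exact ⟨H, h, hz⟩

lemma eq_of_exp_eq {x y : ℂ} (hx : x ∈ s.S0) (hy : y ∈ s.S0)
    (h : Complex.exp x = Complex.exp y) : x = y := by
  rw [Complex.exp_eq_exp_iff_exists_int] at h
  obtain ⟨k, hk⟩ := h
  have him : x.im = y.im + k * (2 * Real.pi) := by
    rw [hk]; simp
  have h1 := hx.2
  have h2 := hy.2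
  have hpi := Real.pi_pos
  have hk0 : k = 0 := by
    have h3 : (k : ℝ) < 1 := by
      by_contra hge
      push Not at hge
      nlinarith [h1.2, h2.1]
    have h4 : (-1 : ℝ) < k := by
      by_contra hge
      push Not at hge
      nlinarith [h1.1, h2.2]
    have h5 : k < 1 := by exact_mod_cast h3
    have h6 : -1 < k := by exact_mod_cast h4
    omega
  rw [hk, hk0]; simp

lemma tile_disjoint {n : ℕ} {v v' : ℂ} (hv : v ∈ s.U) (h : s.F^[n] v = s.u₀)
    (hv' : v' ∈ s.U) (h' : s.F^[n] v' = s.u₀) (hne : v ≠ v') :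
    Disjoint (s.tile n v) (s.tile n v') := by
  obtain ⟨H, hH⟩ := s.exists_lift hv h
  obtain ⟨H', hH'⟩ := s.exists_lift hv' h'
  rw [s.tile_eq hH, s.tile_eq hH', Set.disjoint_left]
  rintro z ⟨x, hx, rfl⟩ ⟨y, hy, hyx⟩
  have h1 : s.E x = s.E y := by
    rw [← hH.2.2.1 x (s.S0_sub hx), ← hH'.2.2.1 y (s.S0_sub hy), hyx]
  have h2 := s.eq_of_exp_eq hx hy (s.E_inj (s.S0_sub hx) (s.S0_sub hy) h1)
  subst h2
  have h3 := hH.eqOn hH' (s.S0_sub hx) hyx.symm
  apply hne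
  rw [← hH.2.2.2, ← hH'.2.2.2]
  exact h3 s.ξ₀_mem

lemma tile_open {n : ℕ} {v : ℂ} (hv : v ∈ s.U) (h : s.F^[n] v = s.u₀) :
    IsOpen (s.tile n v) := by
  obtain ⟨H, hH⟩ := s.exists_lift hv h
  rw [s.tile_eq hH, isOpen_iff_mem_nhds]
  rintro _ ⟨x, hx, rfl⟩
  have hxS := s.S0_sub hx
  have hne : deriv H x ≠ 0 := by
    intro h0
    have := s.deriv_mul s.S_open hH.1 hH.2.2.1 hxS
    rw [h0, mul_zero] at this
    exact s.deriv_E_ne hxS this.symm
  have hst : HasStrictDerivAt H (deriv H x) x :=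
    ((hH.1.analyticOnNhd s.S_open) x hxS).hasStrictDerivAt
  rw [← hst.map_nhds_eq hne]
  exact image_mem_map (s.S0_open.mem_nhds hx)

lemma tile_preconn {n : ℕ} {v : ℂ} (hv : v ∈ s.U) (h : s.F^[n] v = s.u₀) :
    IsPreconnected (s.tile n v) := by
  obtain ⟨H, hH⟩ := s.exists_lift hv h
  rw [s.tile_eq hH]
  exact s.S0_convex.isPreconnected.image H (hH.1.continuousOn.mono s.S0_sub)

lemma tile_sub {n : ℕ} {v : ℂ} : s.tile n v ⊆ s.U := by
  rintro _ ⟨H, hH, x, hx, rfl⟩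
  exact hH.2.1 (s.S0_sub hx)

lemma ξ₀_closure : s.ξ₀ ∈ closure s.S0 := by
  have h1 : Tendsto (fun t : ℝ => s.ξ₀ + (t : ℂ) * Complex.I) (𝓝[>] 0) (𝓝 s.ξ₀) := by
    have : Continuous fun t : ℝ => s.ξ₀ + (t : ℂ) * Complex.I := by fun_prop
    have h2 := (this.tendsto 0).mono_left (nhdsWithin_le_nhds (s := Ioi 0))
    simpa using h2
  refine mem_closure_of_tendsto h1 ?_
  have h3 : Ioo (0:ℝ) (2 * Real.pi) ∈ 𝓝[>] (0:ℝ) :=
    Ioo_mem_nhdsGT (by positivity)
  filter_upwards [h3] with t ht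
  refine ⟨⟨?_, ?_⟩, ?_, ?_⟩
  · simpa [ξ₀] using s.log_ρ_lt
  · simpa [ξ₀] using s.log_r₁_lt
  · simpa [ξ₀] using ht.1
  · simpa [ξ₀] using ht.2

lemma tile_closure {n : ℕ} {v : ℂ} (hv : v ∈ s.U) (h : s.F^[n] v = s.u₀) :
    v ∈ closure (s.tile n v) := by
  obtain ⟨H, hH⟩ := s.exists_lift hv h
  rw [s.tile_eq hH, ← hH.2.2.2]
  have hc : ContinuousAt H s.ξ₀ := hH.1.continuousOn.continuousAt (s.S_open.mem_nhds s.ξ₀_mem)
  exact hc.continuousWithinAt.mem_closure_image s.ξ₀_closure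

lemma iter_tile {n : ℕ} {v : ℂ} (hv : v ∈ s.U) (h : s.F^[n] v = s.u₀) :
    s.F^[n] '' s.tile n v = s.E '' s.S0 := by
  obtain ⟨H, hH⟩ := s.exists_lift hv h
  rw [s.tile_eq hH, image_image]
  exact image_congr fun x hx => hH.2.2.1 x (s.S0_sub hx)

lemma E_S0_unbounded : ¬ Bornology.IsBounded (s.E '' s.S0) := by
  intro hb
  apply s.hunb
  have h1 : Bornology.IsBounded (s.φ '' closedBall 0 s.r₁) := by
    have : IsCompact (s.φ '' closedBall 0 s.r₁) := by
      refine (isCompact_closedBall _ _).image_of_continuousOn (s.hφ.continuousOn.mono ?_)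
      exact closedBall_subset_ball s.hr₁
    exact this.isBounded
  have h2 : Bornology.IsBounded (ball s.p s.R) := isBounded_ball
  refine ((h1.union h2).union hb).subset ?_
  intro z hz
  obtain ⟨hz1, hz2⟩ := s.hψφ z hz
  rw [mem_ball_zero_iff] at hz1
  rcases le_or_gt ‖s.ψ z‖ s.r₁ with h | h
  · exact Or.inl (Or.inl ⟨s.ψ z, by simpa using h, hz2⟩)
  · have hne : s.ψ z ≠ 0 := by
      intro h0; rw [h0, norm_zero] at h; exact absurd s.r₁_pos (not_lt.mpr h.le)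
    have hpos : 0 < ‖s.ψ z‖ := norm_pos_iff.mpr hne
    have hre : (Complex.log (s.ψ z)).re = Real.log ‖s.ψ z‖ := Complex.log_re _
    have hre1 : Real.log s.ρ < Real.log ‖s.ψ z‖ :=
      Real.log_lt_log s.ρ_pos (s.hρr.trans h)
    have hre2 : Real.log ‖s.ψ z‖ < 0 := Real.log_neg hpos hz1
    rcases lt_trichotomy (Complex.log (s.ψ z)).im 0 with him | him | him
    · right
      refine ⟨Complex.log (s.ψ z) + 2 * Real.pi * Complex.I, ⟨⟨?_, ?_⟩, ?_, ?_⟩, ?_⟩
      · simpa [hre] using hre1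
      · simpa [hre] using hre2
      · have := Complex.neg_pi_lt_log_im (s.ψ z)
        simp only [Complex.add_im, Complex.mul_im, Complex.mul_re, Complex.re_ofNat,
          Complex.ofReal_re, Complex.im_ofNat, Complex.ofReal_im, mul_zero, sub_zero,
          Complex.I_im, mul_one, zero_mul, add_zero, Complex.I_re]
        linarith [Real.pi_pos]
      · simp only [Complex.add_im, Complex.mul_im, Complex.mul_re, Complex.re_ofNat,
          Complex.ofReal_re, Complex.im_ofNat, Complex.ofReal_im, mul_zero, sub_zero,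
          Complex.I_im, mul_one, zero_mul, add_zero, Complex.I_re]
        linarith
      · rw [s.E_period, E, Complex.exp_log hne, hz2]
    · left; right
      have h3 : s.ψ z = ((‖s.ψ z‖ : ℝ) : ℂ) := by
        have h4 : Complex.log (s.ψ z) = ((Real.log ‖s.ψ z‖ : ℝ) : ℂ) := by
          apply Complex.ext
          · simp [hre]
          · simp [him]
        rw [← Complex.exp_log hne, h4]
        rw [← Complex.ofReal_exp, Real.exp_log hpos, Complex.norm_real, Real.norm_of_nonneg hpos.le]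
      rw [← hz2, h3]
      exact s.htail _ h.le hz1
    · right
      refine ⟨Complex.log (s.ψ z), ⟨⟨?_, ?_⟩, him, ?_⟩, ?_⟩
      · simpa [hre] using hre1
      · simpa [hre] using hre2
      · have := Complex.log_im_le_pi (s.ψ z)
        linarith [Real.pi_pos]
      · rw [E, Complex.exp_log hne, hz2]

/-- the real segment `[ξ₀, 0)` -/
lemma seg_mem {x : ℝ} (h1 : Real.log s.r₁ ≤ x) (h2 : x < 0) : (x : ℂ) ∈ s.S := by
  refine ⟨?_, ?_⟩
  · simp only [Complex.ofReal_re]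
    exact (s.log_ρ₀_lt.trans s.log_ρ_lt).trans_le h1
  · simpa using h2

lemma E_tail {x : ℝ} (h1 : Real.log s.r₁ ≤ x) (h2 : x < 0) : s.E x ∈ ball s.p s.R := by
  have : Complex.exp (x : ℂ) = ((Real.exp x : ℝ) : ℂ) := by rw [Complex.ofReal_exp]
  rw [E, this]
  refine s.htail _ ?_ ?_
  · rwa [← Real.log_le_iff_le_exp s.r₁_pos]
  · rwa [Real.exp_lt_one_iff]

/-- On the tail the lift is given by the branch on the disc. -/
lemma lift_tail {n : ℕ} {v : ℂ} {H h : ℂ → ℂ} (hH : s.IsLift n v H)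
    (hd : DifferentiableOn ℂ h (ball s.p (2 * s.R)))
    (he : ∀ x ∈ ball s.p (2 * s.R), s.F^[n] (h x) = x) (h0 : h s.u₀ = v)
    {x : ℝ} (h1 : Real.log s.r₁ ≤ x) (h2 : x < 0) : H x = h (s.E x) := by
  -- component of E⁻¹(ball) ∩ S
  set W : Set ℂ := s.S ∩ s.E ⁻¹' ball s.p (2 * s.R) with hW
  have hWo : IsOpen W := s.E_diff.continuousOn.isOpen_inter_preimage s.S_open isOpen_ball
  set W₀ := connectedComponentIn W s.ξ₀ with hW₀
  have hW₀o : IsOpen W₀ := hWo.connectedComponentIn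
  have hξW : s.ξ₀ ∈ W := ⟨s.ξ₀_mem, by
    rw [mem_preimage, s.E_ξ₀]; exact s.u₀_ball2⟩
  have hξ : s.ξ₀ ∈ W₀ := mem_connectedComponentIn hξW
  have hW₀W : W₀ ⊆ W := connectedComponentIn_subset _ _
  -- the segment
  have hseg : (fun t : ℝ => (t : ℂ)) '' Ico (Real.log s.r₁) 0 ⊆ W₀ := by
    refine IsPreconnected.subset_connectedComponentIn ?_ ?_ ?_
    · exact isPreconnected_Ico.image _ Complex.continuous_ofReal.continuousOn
    · exact ⟨Real.log s.r₁, ⟨le_rfl, s.log_r₁_lt⟩, rfl⟩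
    · rintro _ ⟨t, ht, rfl⟩
      exact ⟨s.seg_mem ht.1 ht.2, ball_subset_ball (by linarith [s.hR]) (s.E_tail ht.1 ht.2)⟩
  have hu : EqOn H (fun y => h (s.E y)) W₀ := by
    refine lift_unique (s.iter_diff n) hW₀o isPreconnected_connectedComponentIn
      (hH.1.mono (fun y hy => (hW₀W hy).1)) ?_ ?_ hξ ?_ (s.deriv_ne_of_lift hH.1 hH.2.2.1 s.ξ₀_mem)
    · exact hd.comp (s.E_diff.mono fun y hy => (hW₀W hy).1) fun y hy => (hW₀W hy).2
    · intro y hy
      rw [hH.2.2.1 y (hW₀W hy).1, he _ (hW₀W hy).2]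
    · rw [hH.2.2.2, s.E_ξ₀, h0]
  exact hu (hseg ⟨x, ⟨h1, h2⟩, rfl⟩)

end Setup

end Pool.Agent.BB
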