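import Pool.Agent.BB.Core3

/-!
# Basin boundaries: the relative boundary of a tile is small
-/

open Set Metric Filter Topology

namespace Pool.Agent.BB

namespace Setup

variable (s : Setup)

lemma S_add_two_pi {x : ℂ} (hx : x ∈ s.S) : x + 2 * Real.pi * Complex.I ∈ s.S := by
  simpa [S] using hx

lemma IsLift.shift {s : Setup} {n : ℕ} {v : ℂ} {H : ℂ → ℂ} (hH : s.IsLift n v H) :
    s.IsLift n (H (s.ξ₀ + 2 * Real.pi * Complex.I)) (fun x => H (x + 2 * Real.pi * Complex.I)) := by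
  refine ⟨?_, ?_, ?_, rfl⟩
  · exact hH.1.comp (by fun_prop) fun x hx => s.S_add_two_pi hx
  · exact fun x hx => hH.2.1 (s.S_add_two_pi hx)
  · intro x hx
    rw [hH.2.2.1 _ (s.S_add_two_pi hx), s.E_period]

/-- limits of boundary points of the tile -/
lemma tile_boundary_param {n : ℕ} {v : ℂ} {H : ℂ → ℂ} (hH : s.IsLift n v H) {z : ℂ} (hz : z ∈ s.U)
    (hcl : z ∈ closure (s.tile n v)) (hnt : z ∉ s.tile n v) :
    ∃ x ∈ s.S, H x = z ∧ Real.log s.ρ ≤ x.re ∧ 0 ≤ x.im ∧ x.im ≤ 2 * Real.pi ∧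
      (x.re = Real.log s.ρ ∨ x.im = 0 ∨ x.im = 2 * Real.pi) := by
  rw [s.tile_eq hH] at hcl hnt
  rw [mem_closure_iff_seq_limit] at hcl
  obtain ⟨u, hu, hlim⟩ := hcl
  choose ξ hξ hξu using hu
  have hFz : s.F^[n] z ∈ s.U := s.iter_mem hz n
  have hψc : ContinuousAt s.ψ (s.F^[n] z) :=
    s.hψ.continuousOn.continuousAt (s.hUo.mem_nhds hFz)
  have hexp : ∀ k, Complex.exp (ξ k) = s.ψ (s.F^[n] (u k)) := by
    intro k
    rw [← hξu k, hH.2.2.1 _ (s.S0_sub (hξ k)), s.ψ_E (s.S0_sub (hξ k))]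
  have hlim2 : Tendsto (fun k => Complex.exp (ξ k)) atTop (𝓝 (s.ψ (s.F^[n] z))) := by
    have h1 : Tendsto (fun k => s.F^[n] (u k)) atTop (𝓝 (s.F^[n] z)) :=
      ((s.iter_diff n).continuous.tendsto z).comp hlim
    have h2 := hψc.tendsto.comp h1
    refine h2.congr fun k => ?_
    rw [Function.comp_apply, hexp]
  have hω1 : ‖s.ψ (s.F^[n] z)‖ < 1 := by simpa using (s.hψφ _ hFz).1
  set ω := s.ψ (s.F^[n] z) with hω
  obtain ⟨b, hb1, hb2⟩ := exists_between hω1
  have hb0 : 0 < b := (norm_nonneg _).trans_lt hb1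
  have hev : ∀ᶠ k in atTop, ‖Complex.exp (ξ k)‖ < b :=
    (continuous_norm.tendsto _).comp hlim2 |>.eventually (gt_mem_nhds hb1)
  -- the compact rectangle
  set K : Set ℂ := {x | Real.log s.ρ ≤ x.re ∧ x.re ≤ Real.log b ∧ 0 ≤ x.im ∧ x.im ≤ 2 * Real.pi}
    with hK
  have hlogb : Real.log b < 0 := Real.log_neg hb0 hb2
  have hKS : K ⊆ s.S := by
    intro x hx
    exact ⟨s.log_ρ₀_lt.trans_le hx.1, hx.2.1.trans_lt hlogb⟩
  have hKc : IsCompact K := by
    have h1 : K = Complex.equivRealProdCLM ⁻¹' (Icc (Real.log s.ρ) (Real.log b) ×ˢ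
        Icc 0 (2 * Real.pi)) := by
      ext x
      simp [hK, and_assoc]
      tauto
    rw [h1]
    exact Complex.equivRealProdCLM.toHomeomorph.isCompact_preimage.mpr
      (isCompact_Icc.prod isCompact_Icc)
  have hevK : ∀ᶠ k in atTop, ξ k ∈ K := by
    filter_upwards [hev] with k hk
    rw [Complex.norm_exp, ← Real.lt_log_iff_exp_lt hb0] at hk
    obtain ⟨⟨h1, h2⟩, h3, h4⟩ := hξ k
    exact ⟨h1.le, hk.le, h3.le, h4.le⟩
  obtain ⟨x, hxK, φ', hφ', hx⟩ := hKc.tendsto_subseq' hevK.frequently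
  have hHx : H x = z := by
    have hc : ContinuousAt H x :=
      hH.1.continuousOn.continuousAt (s.S_open.mem_nhds (hKS hxK))
    have h1 := hc.tendsto.comp hx
    have h2 : Tendsto (fun k => u (φ' k)) atTop (𝓝 z) := hlim.comp hφ'.tendsto_atTop
    refine tendsto_nhds_unique h1 (h2.congr fun k => ?_)
    exact (hξu (φ' k)).symm
  refine ⟨x, hKS hxK, hHx, hxK.1, hxK.2.2.1, hxK.2.2.2, ?_⟩
  by_contra hcon
  push Not at hcon
  apply hnt
  refine ⟨x, ⟨⟨lt_of_le_of_ne hxK.1 (Ne.symm hcon.1), hxK.2.1.trans_lt hlogb⟩,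
    lt_of_le_of_ne hxK.2.2.1 (Ne.symm hcon.2.1), lt_of_le_of_ne hxK.2.2.2 hcon.2.2⟩, hHx⟩

/-- The relative boundary of a tile is small. -/
theorem tile_boundary : ∃ C : ℝ, 1 ≤ C ∧ ∀ (n : ℕ) (v : ℂ), v ∈ s.U → s.F^[n] v = s.u₀ →
    ∀ z ∈ s.U, z ∈ closure (s.tile n v) → z ∉ s.tile n v → ‖z - v‖ ≤ C * s.sz n v := by
  obtain ⟨C, hC1, hC⟩ := s.rect_dist
  obtain ⟨C', hC'1, hC'⟩ := s.branch
  have hC0 : 0 < C := by linarith
  have hC'0 : 0 < C' := by linarith
  have hR := s.hR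
  set e : ℝ := ‖deriv s.E s.ξ₀‖ with he
  have he0 : 0 ≤ e := norm_nonneg _
  have hepos : 0 < e := norm_pos_iff.mpr (s.deriv_E_ne s.ξ₀_mem)
  refine ⟨1 + C * e + C' * (2 * s.R) + (C * e + C' * (2 * s.R) * C), ?_, ?_⟩
  · have : 0 ≤ C * e + C' * (2 * s.R) + (C * e + C' * (2 * s.R) * C) := by positivity
    linarith
  intro n v hv hvu z hz hcl hnt
  obtain ⟨H, hH⟩ := s.exists_lift hv hvu
  obtain ⟨x, hxS, hHx, hx1, hx2, hx3, hx4⟩ := s.tile_boundary_param hH hz hcl hnt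
  have hszpos : 0 < s.sz n v := s.sz_pos hv hvu
  have hdH : ‖deriv H s.ξ₀‖ = e * s.sz n v := by
    rw [s.norm_deriv_lift hH.1 hH.2.2.1 s.ξ₀_mem, hH.2.2.2]
  have hlog := s.log_ρ_lt
  -- points in the rectangle
  have hrect : x ∈ s.Kr → ‖z - v‖ ≤ C * e * s.sz n v := by
    intro hxK
    have h1 := (hC n H hH.1 hH.2.2.1 x hxK s.ξ₀ s.ξ₀_Kr).2
    rw [hHx, hH.2.2.2, hdH] at h1
    linarith
  -- tail estimate
  have htail : ∀ (v' : ℂ) (H' : ℂ → ℂ), s.IsLift n v' H' → v' ∈ s.U → s.F^[n] v' = s.u₀ →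
      ∀ t : ℝ, Real.log s.r₁ ≤ t → t < 0 → ‖H' t - v'‖ ≤ C' * (2 * s.R) * s.sz n v' := by
    intro v' H' hH' hv' hvu' t ht1 ht2
    obtain ⟨h, hd, hhe, h0, -, hdist, -⟩ := hC' n v' hvu'
    have h1 := s.lift_tail hH' hd hhe h0 ht1 ht2
    have hEt := s.E_tail ht1 ht2
    have h2 := (hdist (s.E t) (ball_subset_closedBall hEt) s.u₀
      (ball_subset_closedBall s.u₀_ball)).1
    rw [← h1, h0] at h2
    have h3 : ‖s.E t - s.u₀‖ ≤ 2 * s.R := by
      rw [← dist_eq_norm]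
      have h4 := dist_triangle_right (s.E t) s.u₀ s.p
      have h5 := mem_ball.mp hEt
      have h6 := mem_ball.mp s.u₀_ball
      linarith
    have hsz' := s.sz_pos hv' hvu'
    calc ‖H' t - v'‖ ≤ C' * s.sz n v' * ‖s.E t - s.u₀‖ := h2
      _ ≤ C' * s.sz n v' * (2 * s.R) := by gcongr
      _ = C' * (2 * s.R) * s.sz n v' := by ring
  have hP : ∀ a b c : ℝ, 0 ≤ a → 0 ≤ b → 0 ≤ c → a * s.sz n v ≤
      (1 + a + b + c) * s.sz n v := by
    intro a b c ha hb hc
    have : a ≤ 1 + a + b + c := by linarith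
    gcongr
  have hfin1 : ∀ y : ℝ, y ≤ C * e * s.sz n v →
      y ≤ (1 + C * e + C' * (2 * s.R) + (C * e + C' * (2 * s.R) * C)) * s.sz n v := by
    intro y hy
    refine hy.trans ?_
    have : C * e ≤ 1 + C * e + C' * (2 * s.R) + (C * e + C' * (2 * s.R) * C) := by
      have : 0 ≤ C' * (2 * s.R) + (C * e + C' * (2 * s.R) * C) := by positivity
      linarith
    gcongr
  rcases le_or_gt x.re (Real.log s.r₁) with hre | hre
  · exact hfin1 _ (hrect ⟨hx1, hre, hx2, hx3⟩)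
  · rcases hx4 with h | h | h
    · exfalso; linarith
    · -- bottom tail
      have hx' : x = ((x.re : ℝ) : ℂ) := by
        apply Complex.ext
        · simp
        · simp [h]
      have h1 := htail v H hH hv hvu x.re hre.le hxS.2
      rw [← hx', hHx] at h1
      refine h1.trans ?_
      have : C' * (2 * s.R) ≤ 1 + C * e + C' * (2 * s.R) + (C * e + C' * (2 * s.R) * C) := by
        have : 0 ≤ C * e + (C * e + C' * (2 * s.R) * C) := by positivity
        linarith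
      gcongr
    · -- top tail
      have hx' : x = ((x.re : ℝ) : ℂ) + 2 * Real.pi * Complex.I := by
        apply Complex.ext
        · simp
        · simp [h]
      set v' := H (s.ξ₀ + 2 * Real.pi * Complex.I) with hv'
      have hS1 : s.ξ₀ + 2 * Real.pi * Complex.I ∈ s.S := s.S_add_two_pi s.ξ₀_mem
      have hv'U : v' ∈ s.U := hH.2.1 hS1
      have hv'u : s.F^[n] v' = s.u₀ := by
        rw [hv', hH.2.2.1 _ hS1, s.E_period, s.E_ξ₀]
      have h1 := htail v' _ hH.shift hv'U hv'u x.re hre.le hxS.2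
      have h2 : H ((x.re : ℂ) + 2 * Real.pi * Complex.I) = z := by rw [← hx', hHx]
      rw [h2] at h1
      -- size of v'
      have h3 := hC n H hH.1 hH.2.2.1 _ s.ξ₁_Kr s.ξ₀ s.ξ₀_Kr
      rw [hdH] at h3
      have h4 : ‖deriv H (s.ξ₀ + 2 * Real.pi * Complex.I)‖ = e * s.sz n v' := by
        have h5 := s.norm_deriv_lift hH.shift.1 hH.shift.2.2.1 s.ξ₀_mem
        rw [deriv_comp_add_const] at h5
        rw [h5]
      rw [h4, hH.2.2.2, ← hv'] at h3
      have h6 : s.sz n v' ≤ C * s.sz n v := by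
        have := h3.1
        have h7 : e * s.sz n v' ≤ e * (C * s.sz n v) := by linarith
        exact le_of_mul_le_mul_left h7 hepos
      calc ‖z - v‖ ≤ ‖z - v'‖ + ‖v' - v‖ := norm_sub_le_norm_sub_add_norm_sub _ _ _
        _ ≤ C' * (2 * s.R) * s.sz n v' + C * (e * s.sz n v) := add_le_add h1 h3.2
        _ ≤ C' * (2 * s.R) * (C * s.sz n v) + C * (e * s.sz n v) := by gcongr
        _ = (C * e + C' * (2 * s.R) * C) * s.sz n v := by ring
        _ ≤ _ := by
            have : C * e + C' * (2 * s.R) * C ≤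
                1 + C * e + C' * (2 * s.R) + (C * e + C' * (2 * s.R) * C) := by
              have : 0 ≤ C * e + C' * (2 * s.R) := by positivity
              linarith
            gcongr

end Setup

end Pool.Agent.BB
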