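import Pool.Agent.BB.Core4

/-!
# Basin boundaries: exhaustion, exit points, channels
-/

open Set Metric Filter Topology

namespace Pool.Agent.BB

namespace Setup

variable (s : Setup)

/-- the exhaustion -/
def V (n : ℕ) : Set ℂ := {z | z ∈ s.U ∧ ‖s.ψ (s.F^[n] z)‖ < s.ρ}

lemma V_open (n : ℕ) : IsOpen (s.V n) := by
  have h : ContinuousOn (fun z => ‖s.ψ (s.F^[n] z)‖) s.U :=
    (s.hψ.continuousOn.comp (s.iter_diff n).continuous.continuousOn
      (fun z hz => s.iter_mem hz n)).norm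
  have := h.isOpen_inter_preimage s.hUo (isOpen_Iio (a := s.ρ))
  exact this

lemma V_mono : Monotone s.V := by
  refine monotone_nat_of_le_succ fun n z hz => ⟨hz.1, ?_⟩
  rw [Function.iterate_succ_apply']
  exact (s.hschwarz _ (s.iter_mem hz.1 n)).trans_lt hz.2

lemma V_union {z : ℂ} (hz : z ∈ s.U) : ∃ n, z ∈ s.V n := by
  have h := (s.hlim z hz).norm
  rw [norm_zero] at h
  obtain ⟨n, hn⟩ := (h.eventually (gt_mem_nhds s.ρ_pos)).exists
  exact ⟨n, hz, hn⟩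

lemma φ_compact {r : ℝ} (hr : r < 1) : IsCompact (s.φ '' closedBall 0 r) :=
  (isCompact_closedBall _ _).image_of_continuousOn (s.hφ.continuousOn.mono
    (closedBall_subset_ball hr))

lemma ρ_lt_one : s.ρ < 1 := s.hρr.trans s.hr₁

/-- The first exit point of a path out of `V n`. -/
theorem exit {n : ℕ} {κ : ℝ → ℂ} (hκ : ContinuousOn κ (Icc 0 1)) (h0 : κ 0 ∈ s.V n)
    (h1 : κ 1 ∉ s.V n) : ∃ t ∈ Ioc (0:ℝ) 1, (∀ x ∈ Icc 0 t, κ x ∈ s.U) ∧
      ‖s.ψ (s.F^[n] (κ t))‖ = s.ρ := by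
  set B : Set ℝ := Icc 0 1 ∩ κ ⁻¹' (s.V n)ᶜ with hB
  have hBc : IsClosed B := hκ.preimage_isClosed_of_isClosed isClosed_Icc (s.V_open n).isClosed_compl
  have hBcomp : IsCompact B := isCompact_Icc.of_isClosed_subset hBc inter_subset_left
  have hBne : B.Nonempty := ⟨1, ⟨by norm_num, le_rfl⟩, h1⟩
  have htB : sInf B ∈ B := hBcomp.sInf_mem hBne
  set t := sInf B with ht
  have hlt : ∀ x ∈ Ico 0 t, κ x ∈ s.V n := by
    intro x hx
    by_contra hcon
    have : x ∈ B := ⟨⟨hx.1, hx.2.le.trans htB.1.2⟩, hcon⟩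
    exact absurd (csInf_le hBcomp.bddBelow this) (not_le.mpr hx.2)
  have ht0 : 0 < t := by
    rcases eq_or_lt_of_le htB.1.1 with h | h
    · exfalso
      apply htB.2
      rw [← h]; exact h0
    · exact h
  have hct : ContinuousWithinAt κ (Ico 0 t) t :=
    (hκ t htB.1).mono fun x hx => ⟨hx.1, hx.2.le.trans htB.1.2⟩
  have htcl : t ∈ closure (Ico 0 t) := by
    rw [closure_Ico ht0.ne]; exact ⟨ht0.le, le_rfl⟩
  have hmem : κ t ∈ closure (s.V n) := by
    have := hct.mem_closure_image htcl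
    refine closure_mono ?_ this
    rintro _ ⟨x, hx, rfl⟩
    exact hlt x hx
  have hclU : κ t ∈ closure s.U := closure_mono (fun z hz => hz.1) hmem
  have hFc : s.F^[n] (κ t) ∈ s.φ '' closedBall 0 s.ρ := by
    have h2 : s.F^[n] (κ t) ∈ closure (s.φ '' closedBall 0 s.ρ) := by
      refine map_mem_closure (s.iter_diff n).continuous hmem ?_
      intro z hz
      refine ⟨s.ψ (s.F^[n] z), by simpa using hz.2.le, (s.hψφ _ (s.iter_mem hz.1 n)).2⟩
    rwa [(s.φ_compact s.ρ_lt_one).isClosed.closure_eq] at h2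
  obtain ⟨ω, hω, hωF⟩ := hFc
  have hωb : ω ∈ ball (0:ℂ) 1 := closedBall_subset_ball s.ρ_lt_one hω
  have hFU : s.F^[n] (κ t) ∈ s.U := by rw [← hωF]; exact (s.hφψ ω hωb).1
  have hκU : κ t ∈ s.U := s.cl_iter n hclU hFU
  refine ⟨t, ⟨ht0, htB.1.2⟩, ?_, ?_⟩
  · intro x hx
    rcases eq_or_lt_of_le hx.2 with h | h
    · rw [h]; exact hκU
    · exact (hlt x ⟨hx.1, h⟩).1
  · have h3 : ‖s.ψ (s.F^[n] (κ t))‖ ≤ s.ρ := by
      rw [← hωF, (s.hφψ ω hωb).2]
      simpa using hω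
    rcases eq_or_lt_of_le h3 with h | h
    · exact h
    · exact absurd ⟨hκU, h⟩ htB.2

/-- Points outside `V n` are close to the complement of `U`. -/
theorem small_dist_compact {L : Set ℂ} (hL : IsCompact L) {η : ℝ} (hη : 0 < η) :
    ∃ n₀ : ℕ, ∀ n ≥ n₀, ∀ z ∈ s.U, z ∈ L →
      ‖s.ψ (s.F^[n] z)‖ = s.ρ → infDist z s.Uᶜ < η := by
  set K : Set ℂ := L ∩ {z | η ≤ infDist z s.Uᶜ} with hK
  have hKc : IsCompact K := hL.inter_right
    (isClosed_le continuous_const (continuous_infDist_pt _))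
  have hKU : K ⊆ ⋃ n, s.V n := by
    intro z hz
    have hzU : z ∈ s.U := by
      by_contra hcon
      have : infDist z s.Uᶜ = 0 := infDist_zero_of_mem hcon
      have h2 : η ≤ infDist z s.Uᶜ := hz.2
      linarith
    obtain ⟨n, hn⟩ := s.V_union hzU
    exact mem_iUnion.mpr ⟨n, hn⟩
  obtain ⟨n₀, hn₀⟩ := hKc.elim_directed_cover s.V s.V_open hKU s.V_mono.directed_le
  refine ⟨n₀, fun n hn z hz hzp hψ => ?_⟩
  by_contra hcon
  push Not at hcon
  have h1 : z ∈ s.V n := s.V_mono hn (hn₀ ⟨hzp, hcon⟩)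
  exact absurd h1.2 (by rw [hψ]; exact lt_irrefl _)

theorem small_dist {η : ℝ} (hη : 0 < η) : ∃ n₀ : ℕ, ∀ n ≥ n₀, ∀ z ∈ s.U, ‖z - s.p‖ ≤ s.R →
    ‖s.ψ (s.F^[n] z)‖ = s.ρ → infDist z s.Uᶜ < η := by
  obtain ⟨n₀, hn₀⟩ := s.small_dist_compact (isCompact_closedBall s.p s.R) hη
  exact ⟨n₀, fun n hn z hz hzp hψ =>
    hn₀ n hn z hz (by rwa [mem_closedBall, dist_eq_norm]) hψ⟩

/-- the component of `U ∩ ball p R` containing the base point -/
def O : Set ℂ := connectedComponentIn (s.U ∩ ball s.p s.R) s.u₀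

lemma u₀_O : s.u₀ ∈ s.O := mem_connectedComponentIn ⟨s.u₀_mem, s.u₀_ball⟩

lemma O_sub : s.O ⊆ s.U ∩ ball s.p s.R := connectedComponentIn_subset _ _

lemma O_open : IsOpen s.O := (s.hUo.inter isOpen_ball).connectedComponentIn

lemma O_preconn : IsPreconnected s.O := isPreconnected_connectedComponentIn

/-- connected sets meeting `O` are contained in `O` -/
lemma sub_O {Z : Set ℂ} (hZ : IsPreconnected Z) (hZs : Z ⊆ s.U ∩ ball s.p s.R) {z : ℂ}
    (hz : z ∈ Z) (hzO : z ∈ s.O) : Z ⊆ s.O := by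
  have h1 := hZ.subset_connectedComponentIn hz hZs
  have h2 : connectedComponentIn (s.U ∩ ball s.p s.R) s.u₀ =
      connectedComponentIn (s.U ∩ ball s.p s.R) z := connectedComponentIn_eq hzO
  rw [O, h2]
  exact h1

lemma dist_us_pos : 0 < ‖s.us - s.p‖ := by
  have := s.hus0
  exact (dist_nonneg.trans_lt (mem_ball.mp this))

lemma us_O : s.us ∈ s.O := by
  have hconv : IsPreconnected (ball s.us ‖s.us - s.p‖ ∩ ball s.p s.R) :=
    ((convex_ball _ _).inter (convex_ball _ _)).isPreconnected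
  refine s.sub_O hconv (inter_subset_inter s.hus subset_rfl) (z := s.u₀) ⟨s.hus0, s.u₀_ball⟩
    s.u₀_O ⟨mem_ball_self s.dist_us_pos, ?_⟩
  rw [mem_ball, dist_eq_norm]
  exact s.husR

/-- the segment from `us` to `p` -/
noncomputable def seg (x : ℝ) : ℂ := s.us + (x : ℂ) * (s.p - s.us)

lemma seg_sub (x : ℝ) : s.seg x - s.p = ((1 - x : ℝ) : ℂ) * (s.us - s.p) := by
  simp only [seg]; push_cast; ring

lemma norm_seg_sub {x : ℝ} (hx : x ≤ 1) : ‖s.seg x - s.p‖ = (1 - x) * ‖s.us - s.p‖ := by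
  rw [seg_sub, norm_mul, Complex.norm_real, Real.norm_of_nonneg (by linarith)]

lemma seg_ball {x : ℝ} (hx : 0 ≤ x) : ball (s.seg x) ((1 - x) * ‖s.us - s.p‖) ⊆
    ball s.us ‖s.us - s.p‖ := by
  refine ball_subset_ball' ?_
  have : dist (s.seg x) s.us = x * ‖s.us - s.p‖ := by
    rw [dist_eq_norm, seg, add_sub_cancel_left, norm_mul, Complex.norm_real,
      Real.norm_of_nonneg hx, norm_sub_rev]
  rw [this]
  ring_nf
  exact le_rfl

lemma seg_U {x : ℝ} (hx : 0 ≤ x) (hx1 : x < 1) : s.seg x ∈ s.U := by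
  apply s.hus
  apply s.seg_ball hx
  exact mem_ball_self (mul_pos (by linarith) s.dist_us_pos)

lemma seg_O {x : ℝ} (hx : 0 ≤ x) (hx1 : x < 1) : s.seg x ∈ s.O := by
  have hc : IsPreconnected (s.seg '' Icc 0 x) := by
    refine isPreconnected_Icc.image _ ?_
    unfold seg
    fun_prop
  refine s.sub_O hc ?_ (z := s.us) ⟨0, ⟨le_rfl, hx⟩, by simp [seg]⟩ s.us_O
    ⟨x, ⟨hx, le_rfl⟩, rfl⟩
  rintro _ ⟨y, hy, rfl⟩
  refine ⟨s.seg_U hy.1 (hy.2.trans_lt hx1), ?_⟩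
  rw [mem_ball, dist_eq_norm, s.norm_seg_sub (hy.2.trans hx1.le)]
  have h1 := s.dist_us_pos
  have h2 := s.husR
  nlinarith [hy.1]

/-- Preimages of the base point accumulate at `p` inside `O`. -/
theorem stage0 {η : ℝ} (hη : 0 < η) : ∃ (n : ℕ) (v : ℂ), v ∈ s.O ∧ s.F^[n] v = s.u₀ ∧
    ‖v - s.p‖ < η ∧ s.sz n v < η := by
  obtain ⟨C, hC1, hC⟩ := s.cell
  have hC0 : 0 < C := by linarith
  have hR := s.hR
  set δ : ℝ := min η (s.R) / (2 * (1 + 2 * C * C)) with hδ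
  have hmin : 0 < min η s.R := lt_min hη hR
  have hδ0 : 0 < δ := by positivity
  have hδ1 : δ * (1 + 2 * C * C) < min η s.R := by
    rw [hδ, div_mul_eq_mul_div, div_lt_iff₀ (by positivity)]
    nlinarith [mul_pos hC0 hC0]
  obtain ⟨n₀, hn₀⟩ := s.small_dist hδ0
  obtain ⟨n₁, hn₁⟩ := s.V_union (s.O_sub s.us_O).1
  set n := max n₀ n₁ with hn
  have hκ : ContinuousOn s.seg (Icc 0 1) := by
    unfold seg; fun_prop
  have h0 : s.seg 0 ∈ s.V n := by
    have : s.seg 0 = s.us := by simp [seg]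
    rw [this]
    exact s.V_mono (le_max_right _ _) hn₁
  have h1 : s.seg 1 ∉ s.V n := by
    have : s.seg 1 = s.p := by simp [seg]
    rw [this]
    exact fun h => s.hpU h.1
  obtain ⟨t, ht, htU, htψ⟩ := s.exit hκ h0 h1
  have ht1 : t < 1 := by
    rcases eq_or_lt_of_le ht.2 with h | h
    · exfalso
      have := htU t ⟨ht.1.le, le_rfl⟩
      rw [h] at this
      have h2 : s.seg 1 = s.p := by simp [seg]
      rw [h2] at this
      exact s.hpU this
    · exact h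
  have htO := s.seg_O ht.1.le ht1
  have hnorm := s.norm_seg_sub ht1.le
  have hdp := s.dist_us_pos
  have hle : ‖s.seg t - s.p‖ ≤ s.R := by
    have h2 := (s.O_sub htO).2
    rw [mem_ball, dist_eq_norm] at h2
    exact h2.le
  have hinf := hn₀ n (le_max_left _ _) (s.seg t) (htU t ⟨ht.1.le, le_rfl⟩) hle htψ
  have hinf2 : (1 - t) * ‖s.us - s.p‖ ≤ infDist (s.seg t) s.Uᶜ := by
    rw [le_infDist s.compl_nonempty]
    intro y hy
    by_contra hlt
    push Not at hlt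
    exact hy (s.hus (s.seg_ball ht.1.le (by rwa [mem_ball, dist_comm])))
  obtain ⟨w, hwU, hwF, hwsz, Z, hZ, hZU, hzZ, hwZ, hZb⟩ := hC n (s.seg t)
    (htU t ⟨ht.1.le, le_rfl⟩) htψ
  have hsz : s.sz n w < C * δ := by
    refine hwsz.trans_lt ?_
    gcongr
  have hszpos := s.sz_pos hwU hwF
  have hsegp : ‖s.seg t - s.p‖ < δ := by rw [hnorm]; exact hinf2.trans_lt hinf
  have hzw : ‖s.seg t - w‖ ≤ C * s.sz n w := by
    have := hZb hzZ
    rwa [mem_closedBall, dist_eq_norm] at this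
  have hdist : ∀ y ∈ Z, ‖y - s.p‖ < δ * (1 + 2 * C * C) := by
    intro y hy
    have h2 : ‖y - w‖ ≤ C * s.sz n w := by
      have := hZb hy
      rwa [mem_closedBall, dist_eq_norm] at this
    have h3 : ‖y - s.p‖ ≤ ‖y - w‖ + ‖s.seg t - w‖ + ‖s.seg t - s.p‖ := by
      have : y - s.p = (y - w) - (s.seg t - w) + (s.seg t - s.p) := by ring
      rw [this]
      refine (norm_add_le _ _).trans ?_
      gcongr
      exact norm_sub_le _ _
    have h4 : C * s.sz n w < C * (C * δ) := by gcongr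
    calc ‖y - s.p‖ ≤ ‖y - w‖ + ‖s.seg t - w‖ + ‖s.seg t - s.p‖ := h3
      _ < C * (C * δ) + C * (C * δ) + δ := by linarith
      _ = δ * (1 + 2 * C * C) := by ring
  refine ⟨n, w, ?_, hwF, (hdist w hwZ).trans (hδ1.trans_le (min_le_left _ _)), ?_⟩
  · refine s.sub_O hZ (fun y hy => ⟨hZU hy, ?_⟩) hzZ htO hwZ
    rw [mem_ball, dist_eq_norm]
    exact (hdist y hy).trans (hδ1.trans_le (min_le_right _ _))
  · have h5 : C * δ ≤ δ * (1 + 2 * C * C) := by nlinarith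
    exact hsz.trans (h5.trans_lt (hδ1.trans_le (min_le_left _ _)))

end Setup

end Pool.Agent.BB
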