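import Pool.Agent.BB.Core5

/-!
# Basin boundaries: channels and the crossing lemma
-/

open Set Metric Filter Topology

namespace Pool.Agent.BB

namespace Setup

variable (s : Setup)

/-- absorbing channel sets -/
def Channel (Q : Set ℂ) : Prop :=
  Q ⊆ s.O ∧ (∀ t ∈ Ioo (s.R / 4) (s.R / 2), ∃ z ∈ Q, ‖z - s.p‖ = t) ∧
    ∀ Z : Set ℂ, IsPreconnected Z → (∀ z ∈ Z, z ∈ s.U ∧ s.R / 4 ≤ ‖z - s.p‖ ∧ ‖z - s.p‖ < s.R) →
      (Z ∩ Q).Nonempty → Z ⊆ Q

theorem channel {C : ℝ}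
    (hC : ∀ (n : ℕ) (v : ℂ), v ∈ s.U → s.F^[n] v = s.u₀ →
      ∀ z ∈ s.U, z ∈ closure (s.tile n v) → z ∉ s.tile n v → ‖z - v‖ ≤ C * s.sz n v)
    {n : ℕ} {v : ℂ} (hvO : v ∈ s.O) (hF : s.F^[n] v = s.u₀) (hvp : ‖v - s.p‖ < s.R / 8)
    (hsz : C * s.sz n v < s.R / 8) : ∃ Q : Set ℂ, Q ⊆ s.tile n v ∧ s.Channel Q := by
  have hR := s.hR
  have hvU := (s.O_sub hvO).1
  set T := s.tile n v with hT
  have hTo : IsOpen T := s.tile_open hvU hF
  have hTc : IsPreconnected T := s.tile_preconn hvU hF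
  have hTU : T ⊆ s.U := s.tile_sub
  -- a point b of T near v
  obtain ⟨b, hbO, hbT⟩ : ((s.O ∩ ball s.p (s.R / 8)) ∩ T).Nonempty := by
    have h1 := s.tile_closure hvU hF
    rw [_root_.mem_closure_iff] at h1
    exact h1 _ (s.O_open.inter isOpen_ball) ⟨hvO, by rwa [mem_ball, dist_eq_norm]⟩
  obtain ⟨hbO, hbp⟩ := hbO
  have hTR : IsOpen (T ∩ ball s.p s.R) := hTo.inter isOpen_ball
  have hbTR : b ∈ T ∩ ball s.p s.R := ⟨hbT, ball_subset_ball (by linarith) hbp⟩
  set Q := connectedComponentIn (T ∩ ball s.p s.R) b with hQ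
  have hQc : IsPreconnected Q := isPreconnected_connectedComponentIn
  have hQo : IsOpen Q := hTR.connectedComponentIn
  have hbQ : b ∈ Q := mem_connectedComponentIn hbTR
  have hQs : Q ⊆ T ∩ ball s.p s.R := connectedComponentIn_subset _ _
  refine ⟨Q, fun z hz => (hQs hz).1, ?_, ?_, ?_⟩
  · exact s.sub_O hQc (fun z hz => ⟨hTU (hQs hz).1, (hQs hz).2⟩) hbQ hbO
  · -- crossing
    intro t ht
    by_contra hcon
    push Not at hcon
    have hbt : ‖b - s.p‖ < t := by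
      rw [mem_ball, dist_eq_norm] at hbp
      linarith [ht.1]
    -- all points of Q are in ball p t
    have hQt : ∀ z ∈ Q, ‖z - s.p‖ < t := by
      intro z hz
      by_contra hge
      push Not at hge
      have hcont : ContinuousOn (fun z => ‖z - s.p‖) Q := by fun_prop
      have h1 := hQc.intermediate_value hbQ hz hcont
      obtain ⟨y, hy, hyt⟩ := h1 ⟨hbt.le, hge⟩
      exact hcon y hy hyt
    have hvo : IsOpen (T \ Q) := by
      rw [isOpen_iff_mem_nhds]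
      rintro z ⟨hzT, hzQ⟩
      rcases lt_or_ge t ‖z - s.p‖ with h | h
      · have hopen : IsOpen (T ∩ {z | t < ‖z - s.p‖}) :=
          hTo.inter (isOpen_lt continuous_const (by fun_prop))
        refine Filter.mem_of_superset (hopen.mem_nhds ⟨hzT, h⟩) ?_
        rintro y ⟨hyT, hyt⟩
        exact ⟨hyT, fun hyQ => absurd (hQt y hyQ) (not_lt.mpr (le_of_lt hyt))⟩
      · have hzTR : z ∈ T ∩ ball s.p s.R := by
          refine ⟨hzT, ?_⟩
          rw [mem_ball, dist_eq_norm]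
          linarith [ht.2]
        have hop : IsOpen (connectedComponentIn (T ∩ ball s.p s.R) z) := hTR.connectedComponentIn
        refine Filter.mem_of_superset (hop.mem_nhds (mem_connectedComponentIn hzTR)) ?_
        intro y hy
        refine ⟨(connectedComponentIn_subset _ _ hy).1, fun hyQ => hzQ ?_⟩
        have h1 : Q = connectedComponentIn (T ∩ ball s.p s.R) y := connectedComponentIn_eq hyQ
        have h2 : connectedComponentIn (T ∩ ball s.p s.R) z =
            connectedComponentIn (T ∩ ball s.p s.R) y := connectedComponentIn_eq hy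
        rw [h1, ← h2]
        exact mem_connectedComponentIn hzTR
    have hTQ : T ⊆ Q := by
      refine hTc.subset_left_of_subset_union hQo hvo disjoint_sdiff_self_right ?_ ⟨b, hbT, hbQ⟩
      intro z hz
      by_cases h : z ∈ Q
      · exact Or.inl h
      · exact Or.inr ⟨hz, h⟩
    apply s.E_S0_unbounded
    rw [← s.iter_tile hvU hF]
    have hb : Bornology.IsBounded (s.F^[n] '' closedBall s.p s.R) :=
      ((isCompact_closedBall _ _).image (s.iter_diff n).continuous).isBounded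
    refine hb.subset (image_mono ?_)
    intro z hz
    exact ball_subset_closedBall (hQs (hTQ hz)).2
  · -- absorbing
    rintro Z hZ hZs ⟨z₀, hz₀Z, hz₀Q⟩
    have hZT : Z ⊆ T := by
      refine hZ.subset_left_of_subset_union hTo (isClosed_closure (s := T)).isOpen_compl ?_ ?_
        ⟨z₀, hz₀Z, (hQs hz₀Q).1⟩
      · exact disjoint_compl_right_iff_subset.mpr subset_closure
      · intro z hz
        by_cases h : z ∈ T
        · exact Or.inl h
        · right
          intro hcl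
          have h1 := hC n v hvU hF z (hZs z hz).1 hcl h
          have h2 : ‖z - s.p‖ ≤ ‖z - v‖ + ‖v - s.p‖ := norm_sub_le_norm_sub_add_norm_sub _ _ _
          linarith [(hZs z hz).2.1]
    have h3 : Z ⊆ T ∩ ball s.p s.R := fun z hz => ⟨hZT hz, by
      rw [mem_ball, dist_eq_norm]; exact (hZs z hz).2.2⟩
    have h4 := hZ.subset_connectedComponentIn hz₀Z h3
    have h5 : Q = connectedComponentIn (T ∩ ball s.p s.R) z₀ := connectedComponentIn_eq hz₀Q
    rw [h5]
    exact h4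

/-- The crossing lemma. -/
theorem crossing : ∃ C : ℝ, 1 ≤ C ∧ ∀ η : ℝ, 0 < η → ∃ n₀ : ℕ, ∀ n ≥ n₀, ∀ Q : Set ℂ,
    s.Channel Q → ∀ t ∈ Ioo (3 * s.R / 8) (s.R / 2), ∀ z ∈ Q, z ∈ s.V n → ‖z - s.p‖ = t →
      ∃ w ∈ Q, s.F^[n] w = s.u₀ ∧ s.sz n w < η ∧ ‖w - s.p‖ < 3 * s.R / 4 ∧
        |t - ‖w - s.p‖| ≤ C * s.sz n w := by
  obtain ⟨C, hC1, hC⟩ := s.cell
  have hC0 : 0 < C := by linarith
  have hR := s.hR
  refine ⟨C, hC1, fun η hη => ?_⟩
  set δ : ℝ := min η (s.R / 8) / (2 * (1 + 2 * C * C)) with hδ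
  have hmin : 0 < min η (s.R / 8) := lt_min hη (by linarith)
  have hδ0 : 0 < δ := by positivity
  have hδ1 : δ * (1 + 2 * C * C) < min η (s.R / 8) := by
    rw [hδ, div_mul_eq_mul_div, div_lt_iff₀ (by positivity)]
    nlinarith [mul_pos hC0 hC0]
  obtain ⟨n₀, hn₀⟩ := s.small_dist hδ0
  refine ⟨n₀, fun n hn Q hQ t ht z hzQ hzV hzt => ?_⟩
  obtain ⟨hQO, -, habs⟩ := hQ
  have ht0 : 0 < t := by linarith [ht.1]
  obtain ⟨y, hyt, hyU⟩ := s.hcirc t ht0
  -- rotation from z to y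
  have hzp : z - s.p ≠ 0 := by
    intro h; rw [h, norm_zero] at hzt; exact ht0.ne hzt
  set q : ℂ := (y - s.p) / (z - s.p) with hq
  have hq1 : ‖q‖ = 1 := by
    rw [hq, norm_div, hyt, hzt, div_self ht0.ne']
  have hq0 : q ≠ 0 := by
    intro h; rw [h, norm_zero] at hq1; exact zero_ne_one hq1
  have hlogre : (Complex.log q).re = 0 := by
    rw [Complex.log_re, hq1, Real.log_one]
  set κ : ℝ → ℂ := fun x => s.p + (z - s.p) * Complex.exp (x * Complex.log q) with hκdef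
  have hκc : Continuous κ := by fun_prop
  have hκt : ∀ x, ‖κ x - s.p‖ = t := by
    intro x
    simp only [hκdef, add_sub_cancel_left, norm_mul, hzt, Complex.norm_exp]
    have : ((x : ℂ) * Complex.log q).re = 0 := by simp [hlogre]
    rw [this, Real.exp_zero, mul_one]
  have hκ0 : κ 0 = z := by simp [hκdef]
  have hκ1 : κ 1 = y := by
    simp only [hκdef, Complex.ofReal_one, one_mul, Complex.exp_log hq0]
    rw [hq, mul_div_cancel₀ _ hzp]
    ring
  obtain ⟨t', ht', htU, htψ⟩ := s.exit (n := n) hκc.continuousOn (by rw [hκ0]; exact hzV)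
    (by rw [hκ1]; exact fun h => hyU h.1)
  set z' := κ t' with hz'
  have hz'U : z' ∈ s.U := htU t' ⟨ht'.1.le, le_rfl⟩
  have hz'Q : z' ∈ Q := by
    have h1 : κ '' Icc 0 t' ⊆ Q := by
      refine habs _ (isPreconnected_Icc.image _ hκc.continuousOn) ?_ ⟨z, ⟨0, ⟨le_rfl, ht'.1.le⟩, hκ0⟩,
        hzQ⟩
      rintro _ ⟨x, hx, rfl⟩
      refine ⟨htU x hx, ?_, ?_⟩
      · rw [hκt]; linarith [ht.1]
      · rw [hκt]; linarith [ht.2]
    exact h1 ⟨t', ⟨ht'.1.le, le_rfl⟩, rfl⟩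
  have hz't : ‖z' - s.p‖ = t := hκt t'
  have hinf := hn₀ n hn z' hz'U (by rw [hz't]; linarith [ht.2]) htψ
  obtain ⟨w, hwU, hwF, hwsz, Z, hZ, hZU, hzZ, hwZ, hZb⟩ := hC n z' hz'U htψ
  have hszpos := s.sz_pos hwU hwF
  have hsz : s.sz n w < C * δ := hwsz.trans_lt (by gcongr)
  have hCsz : C * s.sz n w < C * (C * δ) := by gcongr
  have hzw : ‖z' - w‖ ≤ C * s.sz n w := by
    have := hZb hzZ
    rwa [mem_closedBall, dist_eq_norm] at this
  have hyZ : ∀ y ∈ Z, ‖y - z'‖ < s.R / 8 := by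
    intro y hy
    have h2 : ‖y - w‖ ≤ C * s.sz n w := by
      have := hZb hy
      rwa [mem_closedBall, dist_eq_norm] at this
    have h3 : ‖y - z'‖ ≤ ‖y - w‖ + ‖w - z'‖ := norm_sub_le_norm_sub_add_norm_sub _ _ _
    rw [norm_sub_rev w z'] at h3
    have h4 := hδ1.trans_le (min_le_right η (s.R / 8))
    nlinarith
  have hring : ∀ y ∈ Z, s.R / 4 ≤ ‖y - s.p‖ ∧ ‖y - s.p‖ < 3 * s.R / 4 := by
    intro y hy
    have h1 := hyZ y hy
    have h2 : ‖y - s.p‖ ≤ ‖y - z'‖ + ‖z' - s.p‖ := norm_sub_le_norm_sub_add_norm_sub _ _ _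
    have h3 : ‖z' - s.p‖ ≤ ‖z' - y‖ + ‖y - s.p‖ := norm_sub_le_norm_sub_add_norm_sub _ _ _
    rw [norm_sub_rev z' y] at h3
    constructor <;> linarith [ht.1, ht.2]
  have hZQ : Z ⊆ Q := habs Z hZ (fun y hy => ⟨hZU hy, (hring y hy).1, by linarith [(hring y hy).2]⟩)
    ⟨z', hzZ, hz'Q⟩
  refine ⟨w, hZQ hwZ, hwF, ?_, (hring w hwZ).2, ?_⟩
  · have h4 := hδ1.trans_le (min_le_left η (s.R / 8))
    nlinarith
  · rw [← hz't]
    have h1 := abs_norm_sub_norm_le (z' - s.p) (w - s.p)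
    have h2 : z' - s.p - (w - s.p) = z' - w := by ring
    rw [h2] at h1
    exact h1.trans hzw

end Setup

end Pool.Agent.BB
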