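import Pool.Agent.BB.Core6

/-!
# Basin boundaries: many preimages of the same generation
-/

open Set Metric Filter Topology MeasureTheory

namespace Pool.Agent.BB

namespace Setup

variable (s : Setup)

lemma countable_preimages (n : ℕ) : {w | w ∈ s.U ∧ s.F^[n] w = s.u₀}.Countable := by
  refine Set.PairwiseDisjoint.countable_of_isOpen (s := fun w => s.tile n w) ?_ ?_ ?_
  · intro v hv v' hv' hne
    exact s.tile_disjoint hv.1 hv.2 hv'.1 hv'.2 hne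
  · intro v hv
    exact s.tile_open hv.1 hv.2
  · intro v hv
    exact closure_nonempty_iff.mp ⟨v, s.tile_closure hv.1 hv.2⟩

/-- One channel contributes a fixed amount. -/
theorem one_channel : ∃ c : ℝ, 0 < c ∧ ∀ η : ℝ, 0 < η → ∀ Q : Set ℂ, s.Channel Q →
    ∃ n₁ : ℕ, ∀ n ≥ n₁, ∃ W : Finset ℂ,
      (∀ w ∈ W, w ∈ Q ∧ s.F^[n] w = s.u₀ ∧ ‖w - s.p‖ < 3 * s.R / 4 ∧ s.sz n w < η) ∧
      c ≤ ∑ w ∈ W, s.sz n w := by
  obtain ⟨C, hC1, hC⟩ := s.crossing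
  have hC0 : 0 < C := by linarith
  have hR := s.hR
  refine ⟨s.R / 16 / (2 * C), by positivity, fun η hη Q hQ => ?_⟩
  obtain ⟨n₀, hn₀⟩ := hC η hη
  set I : Set ℝ := Ioo (3 * s.R / 8) (s.R / 2) with hI
  set E : ℕ → Set ℝ := fun n => {t | t ∈ I ∧ ∃ z ∈ Q, z ∈ s.V n ∧ ‖z - s.p‖ = t} with hE
  have hEmono : Monotone E := by
    intro m n hmn t ht
    obtain ⟨h1, z, h2, h3, h4⟩ := ht
    exact ⟨h1, z, h2, s.V_mono hmn h3, h4⟩
  have hEU : ⋃ n, E n = I := by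
    apply Subset.antisymm
    · exact iUnion_subset fun n t ht => ht.1
    · intro t ht
      obtain ⟨z, hz, hzt⟩ := hQ.2.1 t ⟨by linarith [ht.1], ht.2⟩
      obtain ⟨m, hm⟩ := s.V_union (s.O_sub (hQ.1 hz)).1
      exact mem_iUnion.mpr ⟨m, ht, z, hz, hm, hzt⟩
  have hlim : Tendsto (fun n => volume (E n)) atTop (𝓝 (volume I)) := by
    rw [← hEU]
    exact tendsto_measure_iUnion_atTop hEmono
  have hvol : ENNReal.ofReal (s.R / 16) < volume I := by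
    rw [hI, Real.volume_Ioo]
    exact (ENNReal.ofReal_lt_ofReal_iff (by linarith)).mpr (by linarith)
  obtain ⟨n₂, hn₂⟩ := (hlim.eventually (lt_mem_nhds hvol)).exists_forall_of_atTop
  refine ⟨max n₀ n₂, fun n hn => ?_⟩
  have hnn₀ : n ≥ n₀ := (le_max_left _ _).trans hn
  have hnn₂ : n ≥ n₂ := (le_max_right _ _).trans hn
  set P : Set ℂ := {w | w ∈ Q ∧ s.F^[n] w = s.u₀ ∧ s.sz n w < η ∧ ‖w - s.p‖ < 3 * s.R / 4} with hP
  have hPc : P.Countable := by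
    refine (s.countable_preimages n).mono ?_
    intro w hw
    exact ⟨(s.O_sub (hQ.1 hw.1)).1, hw.2.1⟩
  have hcov : E n ⊆ ⋃ w ∈ P, closedBall ‖w - s.p‖ (C * s.sz n w) := by
    rintro t ⟨htI, z, hzQ, hzV, hzt⟩
    obtain ⟨w, hwQ, hwF, hwsz, hwp, hwt⟩ := hn₀ n hnn₀ Q hQ t htI z hzQ hzV hzt
    refine mem_iUnion₂.mpr ⟨w, ⟨hwQ, hwF, hwsz, hwp⟩, ?_⟩
    rw [mem_closedBall, Real.dist_eq]
    exact hwt
  have hszpos : ∀ w : P, 0 < s.sz n w.1 := fun w =>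
    s.sz_pos (s.O_sub (hQ.1 w.2.1)).1 w.2.2.1
  have hmeas : ENNReal.ofReal (s.R / 16) < ∑' w : P, ENNReal.ofReal (2 * (C * s.sz n w.1)) := by
    calc ENNReal.ofReal (s.R / 16) < volume (E n) := hn₂ n hnn₂
      _ ≤ volume (⋃ w ∈ P, closedBall ‖w - s.p‖ (C * s.sz n w)) := measure_mono hcov
      _ ≤ ∑' w : P, volume (closedBall ‖w.1 - s.p‖ (C * s.sz n w.1)) := measure_biUnion_le _ hPc _
      _ = ∑' w : P, ENNReal.ofReal (2 * (C * s.sz n w.1)) := by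
          congr 1
          ext w
          rw [Real.volume_closedBall]
  rw [ENNReal.tsum_eq_iSup_sum, lt_iSup_iff] at hmeas
  obtain ⟨A, hA⟩ := hmeas
  rw [← ENNReal.ofReal_sum_of_nonneg (fun w _ => by have := hszpos w; positivity)] at hA
  have hA2 : s.R / 16 < ∑ w ∈ A, 2 * (C * s.sz n w.1) := by
    by_contra hcon
    push Not at hcon
    exact absurd hA (not_lt.mpr (ENNReal.ofReal_le_ofReal hcon))
  refine ⟨A.map (Function.Embedding.subtype _), ?_, ?_⟩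
  · intro w hw
    rw [Finset.mem_map] at hw
    obtain ⟨w', -, rfl⟩ := hw
    exact ⟨w'.2.1, w'.2.2.1, w'.2.2.2.2, w'.2.2.2.1⟩
  · rw [Finset.sum_map]
    simp only [Function.Embedding.subtype_apply]
    rw [div_le_iff₀ (by positivity), Finset.sum_mul]
    refine hA2.le.trans (le_of_eq ?_)
    exact Finset.sum_congr rfl fun w _ => by ring

/-- The main lemma. -/
theorem main_lemma : ∃ c : ℝ, 0 < c ∧ ∃ Cb : ℝ, 1 ≤ Cb ∧ ∀ η : ℝ, 0 < η → ∀ (n : ℕ) (A : Finset ℂ),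
    (∀ v ∈ A, v ∈ s.O ∧ s.F^[n] v = s.u₀ ∧ ‖v - s.p‖ < s.R / 8 ∧ Cb * s.sz n v < s.R / 8) →
    ∃ (n' : ℕ) (W : Finset ℂ),
      (∀ w ∈ W, w ∈ s.O ∧ s.F^[n'] w = s.u₀ ∧ ‖w - s.p‖ < 3 * s.R / 4 ∧ s.sz n' w < η) ∧
      c * A.card ≤ ∑ w ∈ W, s.sz n' w := by
  obtain ⟨c, hc0, hc⟩ := s.one_channel
  obtain ⟨Cb, hCb1, hCb⟩ := s.tile_boundary
  refine ⟨c, hc0, Cb, hCb1, fun η hη n A hA => ?_⟩
  have h1 : ∀ v ∈ A, ∃ Q : Set ℂ, Q ⊆ s.tile n v ∧ s.Channel Q := by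
    intro v hv
    obtain ⟨a1, a2, a3, a4⟩ := hA v hv
    exact s.channel hCb a1 a2 a3 a4
  choose! Q hQt hQc using h1
  have h2 : ∀ v ∈ A, ∃ n₁ : ℕ, ∀ n ≥ n₁, ∃ W : Finset ℂ,
      (∀ w ∈ W, w ∈ Q v ∧ s.F^[n] w = s.u₀ ∧ ‖w - s.p‖ < 3 * s.R / 4 ∧ s.sz n w < η) ∧
      c ≤ ∑ w ∈ W, s.sz n w := fun v hv => hc η hη (Q v) (hQc v hv)
  choose! N hN using h2
  set n' := A.sup N with hn'
  have h3 : ∀ v ∈ A, ∃ W : Finset ℂ,
      (∀ w ∈ W, w ∈ Q v ∧ s.F^[n'] w = s.u₀ ∧ ‖w - s.p‖ < 3 * s.R / 4 ∧ s.sz n' w < η) ∧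
      c ≤ ∑ w ∈ W, s.sz n' w := fun v hv => hN v hv n' (Finset.le_sup hv)
  choose! W hW1 hW2 using h3
  refine ⟨n', A.biUnion W, ?_, ?_⟩
  · intro w hw
    rw [Finset.mem_biUnion] at hw
    obtain ⟨v, hv, hw⟩ := hw
    obtain ⟨a1, a2, a3, a4⟩ := hW1 v hv w hw
    exact ⟨(hQc v hv).1 a1, a2, a3, a4⟩
  · rw [Finset.sum_biUnion]
    · calc c * A.card = ∑ v ∈ A, c := by rw [Finset.sum_const, nsmul_eq_mul, mul_comm]
        _ ≤ ∑ v ∈ A, ∑ w ∈ W v, s.sz n' w := Finset.sum_le_sum fun v hv => hW2 v hv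
    · intro v hv v' hv' hne
      rw [Function.onFun, Finset.disjoint_left]
      intro w hw hw'
      have h4 := s.tile_disjoint (s.O_sub (hA v hv).1).1 (hA v hv).2.1
        (s.O_sub (hA v' hv').1).1 (hA v' hv').2.1 hne
      exact Set.disjoint_left.mp h4 (hQt v hv (hW1 v hv w hw).1) (hQt v' hv' (hW1 v' hv' w hw').1)

end Setup

end Pool.Agent.BB
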