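import Pool.Agent.BB.Defs

/-!
# Lower bound for the Hausdorff dimension of the limit set of an iterated function system

`ifs_dim`: finitely many continuous self maps `h i` of a compact set with disjoint images and
`r i * dist x y ≤ dist (h i x) (h i y)`, `∑ r i > 1`, have a limit set of dimension `> 1`.
The proof maps the limit set onto `[0,1)` by an `s`-Hölder map, `s > 1`.
-/

open Set Metric Filter Topology

namespace Pool.Agent.BB

namespace IFS

/-- covering of an interval by half open intervals of prescribed lengths -/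
theorem digits_aux {ι : Type} (S : Finset ι) (p : ι → ℝ) :
    ∃ c : ι → ℝ, ∀ t : ℝ, 0 ≤ t → t < ∑ i ∈ S, p i → ∃ i ∈ S, c i ≤ t ∧ t < c i + p i := by
  classical
  induction S using Finset.induction_on with
  | empty => exact ⟨fun _ => 0, fun t h0 h1 => by simp at h1; linarith⟩
  | insert a S ha ih =>
    obtain ⟨c, hc⟩ := ih
    refine ⟨Function.update c a (∑ i ∈ S, p i), fun t h0 h1 => ?_⟩
    rw [Finset.sum_insert ha] at h1
    by_cases h : t < ∑ i ∈ S, p i
    · obtain ⟨i, hi, h2, h3⟩ := hc t h0 h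
      have hne : i ≠ a := fun e => ha (e ▸ hi)
      exact ⟨i, Finset.mem_insert_of_mem hi, by rwa [Function.update_of_ne hne],
        by rwa [Function.update_of_ne hne]⟩
    · refine ⟨a, Finset.mem_insert_self _ _, ?_, ?_⟩
      · rw [Function.update_self]; linarith
      · rw [Function.update_self]; linarith

theorem exists_exponent {ι : Type} [Fintype ι] (r : ι → ℝ) (hr : ∀ i, 0 < r i)
    (hsum : 1 < ∑ i, r i) : ∃ s : NNReal, 1 < s ∧ 1 ≤ ∑ i, r i ^ (s:ℝ) := by
  have hc : Continuous (fun s : NNReal => ∑ i, r i ^ (s:ℝ)) := by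
    refine continuous_finsetSum _ fun i _ => ?_
    exact (Real.continuous_const_rpow (hr i).ne').comp NNReal.continuous_coe
  have h1 : ∀ᶠ s : NNReal in 𝓝 1, 1 < ∑ i, r i ^ (s:ℝ) := by
    refine (hc.continuousAt (x := 1)).eventually (lt_mem_nhds ?_)
    simpa using hsum
  have h2 : ∀ᶠ s : NNReal in 𝓝[>] 1, 1 < ∑ i, r i ^ (s:ℝ) := nhdsWithin_le_nhds h1
  obtain ⟨s, hs, hs1⟩ := (h2.and self_mem_nhdsWithin).exists
  exact ⟨s, hs1, hs.le⟩

section word
variable {ι : Type} {D : Set ℂ} {h : ι → ℂ → ℂ}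

theorem word_congr {ω ω' : ℕ → ι} {n : ℕ} (hω : ∀ k < n, ω k = ω' k) :
    word h ω n = word h ω' n := by
  induction n with
  | zero => rfl
  | succ n ih =>
    simp only [word]
    rw [ih fun k hk => hω k (hk.trans n.lt_succ_self), hω n n.lt_succ_self]

theorem word_mapsTo (hmaps : ∀ i, MapsTo (h i) D D) (ω : ℕ → ι) (n : ℕ) :
    MapsTo (word h ω n) D D := by
  induction n with
  | zero => exact mapsTo_id D
  | succ n ih => exact ih.comp (hmaps _)

theorem word_continuousOn (hc : ∀ i, ContinuousOn (h i) D) (hmaps : ∀ i, MapsTo (h i) D D)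
    (ω : ℕ → ι) (n : ℕ) : ContinuousOn (word h ω n) D := by
  induction n with
  | zero => exact continuousOn_id
  | succ n ih => exact ih.comp (hc _) (hmaps _)

theorem word_lower (hmaps : ∀ i, MapsTo (h i) D D) {r : ι → ℝ} (hr : ∀ i, 0 < r i)
    (hlow : ∀ i, ∀ x ∈ D, ∀ y ∈ D, r i * dist x y ≤ dist (h i x) (h i y)) (ω : ℕ → ι) (n : ℕ) :
    ∀ x ∈ D, ∀ y ∈ D, (∏ k ∈ Finset.range n, r (ω k)) * dist x y ≤
      dist (word h ω n x) (word h ω n y) := by
  induction n with
  | zero => intro x _ y _; simp [word]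
  | succ n ih =>
    intro x hx y hy
    rw [Finset.prod_range_succ, mul_assoc]
    refine (mul_le_mul_of_nonneg_left (hlow _ x hx y hy)
      (Finset.prod_nonneg fun k _ => (hr _).le)).trans ?_
    exact ih _ (hmaps _ hx) _ (hmaps _ hy)

theorem word_succ_image (ω : ℕ → ι) (n : ℕ) :
    word h ω (n + 1) '' D = word h ω n '' (h (ω n) '' D) := by
  simp only [word]; rw [image_comp]

theorem exists_point (hD : IsCompact D) (hne : D.Nonempty)
    (hc : ∀ i, ContinuousOn (h i) D) (hmaps : ∀ i, MapsTo (h i) D D) (ω : ℕ → ι) :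
    ∃ x : ℂ, ∀ n, x ∈ word h ω n '' D := by
  have hcomp : ∀ n, IsCompact (word h ω n '' D) := fun n =>
    hD.image_of_continuousOn (word_continuousOn hc hmaps ω n)
  have := IsCompact.nonempty_iInter_of_sequence_nonempty_isCompact_isClosed
    (fun n => word h ω n '' D) (fun n => ?_) (fun n => hne.image _) (hcomp 0)
    (fun n => (hcomp n).isClosed)
  · obtain ⟨x, hx⟩ := this
    exact ⟨x, fun n => mem_iInter.1 hx n⟩
  · rw [word_succ_image]
    exact image_mono ((hmaps _).image_subset)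

end word

/-- A map `g` on `[0,1)` with `|t - t'| ≤ C * dist (g t) (g t') ^ s` has image of dimension
at least `s`. -/
theorem dim_of_holder {g : ℝ → ℂ} {s : NNReal} (hs : 0 < s) {C : ℝ}
    (hg : ∀ t ∈ Ico (0:ℝ) 1, ∀ t' ∈ Ico (0:ℝ) 1, |t - t'| ≤ C * dist (g t) (g t') ^ (s:ℝ)) :
    (s : ENNReal) ≤ dimH (g '' Ico (0:ℝ) 1) := by
  have hs' : (0:ℝ) < s := hs
  have hinj : InjOn g (Ico (0:ℝ) 1) := by
    intro t ht t' ht' he
    have := hg t ht t' ht'
    rw [he, dist_self, Real.zero_rpow hs'.ne', mul_zero] at this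
    have := abs_nonpos_iff.1 this
    linarith
  set F := Function.invFunOn g (Ico (0:ℝ) 1) with hF
  have hFg : ∀ t ∈ Ico (0:ℝ) 1, F (g t) = t := fun t ht => hinj.leftInvOn_invFunOn ht
  have himg : F '' (g '' Ico (0:ℝ) 1) = Ico (0:ℝ) 1 := hinj.leftInvOn_invFunOn.image_image
  have hH : HolderOnWith (Real.toNNReal C) s F (g '' Ico (0:ℝ) 1) := by
    rintro _ ⟨t, ht, rfl⟩ _ ⟨t', ht', rfl⟩
    rw [hFg t ht, hFg t' ht', edist_nndist, edist_nndist,
      ← ENNReal.coe_rpow_of_nonneg _ s.coe_nonneg, ← ENNReal.coe_mul, ENNReal.coe_le_coe,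
      ← NNReal.coe_le_coe, NNReal.coe_mul, NNReal.coe_rpow, coe_nndist, coe_nndist,
      Real.coe_toNNReal', Real.dist_eq]
    refine (hg t ht t' ht').trans ?_
    exact mul_le_mul_of_nonneg_right (le_max_left _ _) (Real.rpow_nonneg dist_nonneg _)
  have h1 : dimH (F '' (g '' Ico (0:ℝ) 1)) ≤ dimH (g '' Ico (0:ℝ) 1) / s := hH.dimH_image_le hs
  have h2 : dimH (Ico (0:ℝ) 1) = 1 := by
    have : (interior (Ico (0:ℝ) 1)).Nonempty := by
      rw [interior_Ico]; exact ⟨1/2, by norm_num, by norm_num⟩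
    rw [Real.dimH_of_nonempty_interior this]; simp
  rw [himg, h2] at h1
  have h3 : (s : ENNReal) ≠ 0 := by exact_mod_cast hs.ne'
  rw [ENNReal.le_div_iff_mul_le (Or.inl h3) (Or.inl ENNReal.coe_ne_top), one_mul] at h1
  exact h1

theorem exists_delta {ι : Type} [Fintype ι] {D : Set ℂ} (hD : IsCompact D) {h : ι → ℂ → ℂ}
    (hc : ∀ i, ContinuousOn (h i) D)
    (hdisj : ∀ i j, i ≠ j → Disjoint (h i '' D) (h j '' D)) :
    ∃ δ : ℝ, 0 < δ ∧ ∀ i j, i ≠ j → ∀ x ∈ h i '' D, ∀ y ∈ h j '' D, δ ≤ dist x y := by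
  have h1 : ∀ i j, ∀ᶠ δ : ℝ in 𝓝[>] 0,
      i ≠ j → ∀ x ∈ h i '' D, ∀ y ∈ h j '' D, δ ≤ dist x y := by
    intro i j
    by_cases hij : i = j
    · exact Eventually.of_forall fun _ h => absurd hij h
    obtain ⟨r, hr0, hr⟩ := Metric.exists_pos_forall_lt_edist
      (hD.image_of_continuousOn (hc i)) (hD.image_of_continuousOn (hc j)).isClosed
      (hdisj i j hij)
    filter_upwards [Ioo_mem_nhdsGT (show (0:ℝ) < r from hr0)] with δ hδ _ x hx y hy
    have := hr x hx y hy
    rw [edist_nndist, ENNReal.coe_lt_coe, ← NNReal.coe_lt_coe, coe_nndist] at this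
    exact hδ.2.le.trans this.le
  have h2 : ∀ᶠ δ : ℝ in 𝓝[>] 0, ∀ i j,
      i ≠ j → ∀ x ∈ h i '' D, ∀ y ∈ h j '' D, δ ≤ dist x y :=
    eventually_all.2 fun i => eventually_all.2 fun j => h1 i j
  obtain ⟨δ, h3, h4⟩ := (h2.and self_mem_nhdsWithin).exists
  exact ⟨δ, h4, h3⟩

end IFS

open IFS in
theorem ifs_dim_nontrivial {ι : Type} [Fintype ι] [Nontrivial ι] {D : Set ℂ} (hD : IsCompact D)
    (hne : D.Nonempty)
    (h : ι → ℂ → ℂ) (hc : ∀ i, ContinuousOn (h i) D) (hmaps : ∀ i, MapsTo (h i) D D)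
    (hdisj : ∀ i j, i ≠ j → Disjoint (h i '' D) (h j '' D))
    (r : ι → ℝ) (hr : ∀ i, 0 < r i)
    (hlow : ∀ i, ∀ x ∈ D, ∀ y ∈ D, r i * dist x y ≤ dist (h i x) (h i y))
    (hsum : 1 < ∑ i, r i) :
    1 < dimH {x : ℂ | ∃ ω : ℕ → ι, ∀ n, x ∈ word h ω n '' D} := by
  classical
  obtain ⟨s, hs1, hs2⟩ := exists_exponent r hr hsum
  set A := ∑ i, r i ^ (s:ℝ) with hA
  have hA0 : 0 < A := lt_of_lt_of_le one_pos hs2
  set p : ι → ℝ := fun i => r i ^ (s:ℝ) / A with hp
  have hp0 : ∀ i, 0 < p i := fun i => div_pos (Real.rpow_pos_of_pos (hr i) _) hA0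
  have hpr : ∀ i, p i ≤ r i ^ (s:ℝ) := fun i =>
    div_le_self (Real.rpow_pos_of_pos (hr i) _).le hs2
  have hpsum : ∑ i, p i = 1 := by
    rw [hp, ← Finset.sum_div, div_self hA0.ne']
  have hp1 : ∀ i, p i < 1 := by
    intro i
    obtain ⟨j, hj⟩ := exists_ne i
    have : p i + p j ≤ ∑ i, p i := by
      rw [← Finset.sum_pair hj.symm]
      exact Finset.sum_le_sum_of_subset_of_nonneg (Finset.subset_univ _)
        fun k _ _ => (hp0 k).le
    linarith [hp0 j]
  obtain ⟨i₀, hi₀⟩ := Finite.exists_max p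
  obtain ⟨c, hcd⟩ := digits_aux Finset.univ p
  rw [hpsum] at hcd
  have hd' : ∀ t : ℝ, ∃ i, t ∈ Ico (0:ℝ) 1 → c i ≤ t ∧ t < c i + p i := by
    intro t
    by_cases ht : t ∈ Ico (0:ℝ) 1
    · obtain ⟨i, _, hi⟩ := hcd t ht.1 ht.2
      exact ⟨i, fun _ => hi⟩
    · exact ⟨i₀, fun h => absurd h ht⟩
  choose d hd using hd'
  set T : ℝ → ℝ := fun t => (t - c (d t)) / p (d t) with hT
  have hTm : ∀ t ∈ Ico (0:ℝ) 1, T t ∈ Ico (0:ℝ) 1 := by
    intro t ht
    obtain ⟨h1, h2⟩ := hd t ht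
    refine ⟨div_nonneg (by linarith) (hp0 _).le, ?_⟩
    rw [div_lt_one (hp0 _)]; linarith
  have hTn : ∀ n, ∀ t ∈ Ico (0:ℝ) 1, T^[n] t ∈ Ico (0:ℝ) 1 := by
    intro n
    induction n with
    | zero => exact fun t ht => ht
    | succ n ih => intro t ht; rw [Function.iterate_succ_apply']; exact hTm _ (ih t ht)
  have hTt : ∀ t, t = c (d t) + p (d t) * T t := by
    intro t
    simp only [hT]
    rw [mul_div_cancel₀ _ (hp0 _).ne']; ring
  set code : ℝ → ℕ → ι := fun t n => d (T^[n] t) with hcode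
  have hcodeq : ∀ n, ∀ t t' : ℝ, (∀ k < n, code t k = code t' k) →
      t - t' = (∏ k ∈ Finset.range n, p (code t k)) * (T^[n] t - T^[n] t') := by
    intro n t t'
    induction n with
    | zero => intro _; simp
    | succ n ih =>
      intro hk
      have h1 := ih fun k hkn => hk k (hkn.trans n.lt_succ_self)
      have h2 := hk n n.lt_succ_self
      rw [Finset.prod_range_succ, Function.iterate_succ_apply', Function.iterate_succ_apply',
        h1, mul_assoc]
      congr 1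
      have h3 := hTt (T^[n] t)
      have h4 := hTt (T^[n] t')
      simp only [hcode] at h2 ⊢
      rw [← h2] at h4
      linear_combination h3 - h4
  have hbound : ∀ n, ∀ t ∈ Ico (0:ℝ) 1, ∀ t' ∈ Ico (0:ℝ) 1, (∀ k < n, code t k = code t' k) →
      |t - t'| ≤ ∏ k ∈ Finset.range n, p (code t k) := by
    intro n t ht t' ht' hk
    rw [hcodeq n t t' hk, abs_mul,
      abs_of_nonneg (Finset.prod_nonneg fun k _ => (hp0 _).le)]
    refine mul_le_of_le_one_right (Finset.prod_nonneg fun k _ => (hp0 _).le) ?_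
    have h1 := hTn n t ht
    have h2 := hTn n t' ht'
    rw [abs_le]
    constructor <;> linarith [h1.1, h1.2, h2.1, h2.2]
  have hprodle : ∀ n, ∀ t : ℝ, ∏ k ∈ Finset.range n, p (code t k) ≤ p i₀ ^ n := by
    intro n t
    calc ∏ k ∈ Finset.range n, p (code t k) ≤ ∏ k ∈ Finset.range n, p i₀ :=
          Finset.prod_le_prod (fun k _ => (hp0 _).le) fun k _ => hi₀ _
      _ = p i₀ ^ n := by simp
  have hdiff : ∀ t ∈ Ico (0:ℝ) 1, ∀ t' ∈ Ico (0:ℝ) 1, t ≠ t' → ∃ n, code t n ≠ code t' n := by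
    intro t ht t' ht' hne'
    by_contra hcon
    push Not at hcon
    have h1 : ∀ n, |t - t'| ≤ p i₀ ^ n := fun n =>
      (hbound n t ht t' ht' fun k _ => hcon k).trans (hprodle n t)
    have h2 : Tendsto (fun n => p i₀ ^ n) atTop (𝓝 0) :=
      tendsto_pow_atTop_nhds_zero_of_lt_one (hp0 _).le (hp1 _)
    have h3 : |t - t'| ≤ 0 := ge_of_tendsto' h2 h1
    exact hne' (by linarith [abs_nonpos_iff.1 h3])
  obtain ⟨δ, hδ0, hδ⟩ := exists_delta hD hc hdisj
  choose x hx using fun ω : ℕ → ι => exists_point hD hne hc hmaps ω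
  set g : ℝ → ℂ := fun t => x (code t) with hg
  have hgH : ∀ t ∈ Ico (0:ℝ) 1, ∀ t' ∈ Ico (0:ℝ) 1,
      |t - t'| ≤ (δ ^ (s:ℝ))⁻¹ * dist (g t) (g t') ^ (s:ℝ) := by
    intro t ht t' ht'
    by_cases hne' : t = t'
    · subst hne'
      rw [sub_self, abs_zero]
      exact mul_nonneg (inv_nonneg.2 (Real.rpow_nonneg hδ0.le _))
        (Real.rpow_nonneg dist_nonneg _)
    have hex := hdiff t ht t' ht' hne'
    set n := Nat.find hex with hn
    have hn1 : code t n ≠ code t' n := Nat.find_spec hex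
    have hn2 : ∀ k < n, code t k = code t' k := fun k hk => by
      by_contra hcon; exact Nat.find_min hex hk hcon
    have h1 := hbound n t ht t' ht' hn2
    -- the points
    have h2 := hx (code t) (n + 1)
    have h3 := hx (code t') (n + 1)
    rw [word_succ_image] at h2 h3
    obtain ⟨y, hy, hyx⟩ := h2
    obtain ⟨y', hy', hyx'⟩ := h3
    rw [← word_congr hn2] at hyx'
    have hyD : y ∈ D := (hmaps _).image_subset hy
    have hyD' : y' ∈ D := (hmaps _).image_subset hy'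
    have h4 := word_lower hmaps hr hlow (code t) n y hyD y' hyD'
    rw [hyx, hyx'] at h4
    have h5 : δ ≤ dist y y' := hδ _ _ hn1 y hy y' hy'
    have hR0 : 0 ≤ ∏ k ∈ Finset.range n, r (code t k) :=
      Finset.prod_nonneg fun k _ => (hr _).le
    have h6 : (∏ k ∈ Finset.range n, r (code t k)) * δ ≤ dist (g t) (g t') :=
      (mul_le_mul_of_nonneg_left h5 hR0).trans h4
    have h7 : ∏ k ∈ Finset.range n, p (code t k) ≤
        (∏ k ∈ Finset.range n, r (code t k)) ^ (s:ℝ) := by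
      rw [← Real.finsetProd_rpow _ _ fun k _ => (hr _).le]
      exact Finset.prod_le_prod (fun k _ => (hp0 _).le) fun k _ => hpr _
    have h8 : ((∏ k ∈ Finset.range n, r (code t k)) * δ) ^ (s:ℝ) ≤
        dist (g t) (g t') ^ (s:ℝ) :=
      Real.rpow_le_rpow (mul_nonneg hR0 hδ0.le) h6 s.coe_nonneg
    rw [Real.mul_rpow hR0 hδ0.le] at h8
    have hδs : 0 < δ ^ (s:ℝ) := Real.rpow_pos_of_pos hδ0 _
    calc |t - t'| ≤ (∏ k ∈ Finset.range n, r (code t k)) ^ (s:ℝ) := h1.trans h7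
      _ = (δ ^ (s:ℝ))⁻¹ * ((∏ k ∈ Finset.range n, r (code t k)) ^ (s:ℝ) * δ ^ (s:ℝ)) := by
          field_simp
      _ ≤ (δ ^ (s:ℝ))⁻¹ * dist (g t) (g t') ^ (s:ℝ) :=
          mul_le_mul_of_nonneg_left h8 (inv_nonneg.2 hδs.le)
  have hdim := dim_of_holder (lt_trans one_pos hs1) hgH
  have hsub : g '' Ico (0:ℝ) 1 ⊆ {x : ℂ | ∃ ω : ℕ → ι, ∀ n, x ∈ word h ω n '' D} := by
    rintro _ ⟨t, _, rfl⟩
    exact ⟨code t, hx (code t)⟩
  exact (show (1 : ENNReal) < s by exact_mod_cast hs1).trans_le (hdim.trans (dimH_mono hsub))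

/-- The version with a set with at least two points in place of at least two maps. -/
theorem ifs_dim {ι : Type} [Fintype ι] {D : Set ℂ} (hD : IsCompact D) (hne : D.Nontrivial)
    (h : ι → ℂ → ℂ) (hc : ∀ i, ContinuousOn (h i) D) (hmaps : ∀ i, MapsTo (h i) D D)
    (hdisj : ∀ i j, i ≠ j → Disjoint (h i '' D) (h j '' D))
    (r : ι → ℝ) (hr : ∀ i, 0 < r i)
    (hlow : ∀ i, ∀ x ∈ D, ∀ y ∈ D, r i * dist x y ≤ dist (h i x) (h i y))
    (hsum : 1 < ∑ i, r i) :
    1 < dimH {x : ℂ | ∃ ω : ℕ → ι, ∀ n, x ∈ word h ω n '' D} := by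
  rcases subsingleton_or_nontrivial ι with hι | hι
  · exfalso
    -- one map: `r * diam ≤ diam`
    have hex : Nonempty ι := by
      by_contra hcon
      rw [not_nonempty_iff] at hcon
      simp at hsum
      linarith
    obtain ⟨i⟩ := hex
    have hsum' : ∑ j, r j = r i := by
      rw [Finset.sum_eq_single i]
      · intro j _ hj; exact absurd (Subsingleton.elim j i) hj
      · intro hi; exact absurd (Finset.mem_univ i) hi
    rw [hsum'] at hsum
    have hb : Bornology.IsBounded D := hD.isBounded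
    have h1 : ∀ x ∈ D, ∀ y ∈ D, dist x y ≤ diam D / r i := by
      intro x hx y hy
      rw [le_div_iff₀ (hr i), mul_comm]
      exact (hlow i x hx y hy).trans (dist_le_diam_of_mem hb (hmaps i hx) (hmaps i hy))
    have h2 : diam D ≤ diam D / r i :=
      diam_le_of_forall_dist_le (div_nonneg diam_nonneg (hr i).le) h1
    have h3 : 0 < diam D := Metric.diam_pos hne hb
    rw [le_div_iff₀ (hr i)] at h2
    nlinarith
  · exact ifs_dim_nontrivial hD hne.nonempty h hc hmaps hdisj r hr hlow hsum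

end Pool.Agent.BB
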