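import Pool.Agent.BB.Core7
import Pool.Agent.BB.IFS

/-!
# Basin boundaries: the iterated function system
-/

open Set Metric Filter Topology MeasureTheory

namespace Pool.Agent.BB

namespace Setup

variable (s : Setup)

/-- connected sets which meet `U` and are mapped into `U` are contained in `U` -/
lemma sub_U {Z : Set ℂ} (hZ : IsPreconnected Z) (n : ℕ) (hF : ∀ z ∈ Z, s.F^[n] z ∈ s.U)
    (hne : (Z ∩ s.U).Nonempty) : Z ⊆ s.U :=
  hZ.subset_of_closure_inter_subset s.hUo hne fun z hz => s.cl_iter n hz.1 (hF z hz.2)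

/-- branches map `O` into `O` -/
lemma branch_O {n : ℕ} {v : ℂ} {h : ℂ → ℂ} (hd : DifferentiableOn ℂ h (ball s.p (2 * s.R)))
    (he : ∀ x ∈ ball s.p (2 * s.R), s.F^[n] (h x) = x) (h0 : h s.u₀ = v) (hv : v ∈ s.O)
    (hmaps : ∀ x ∈ ball s.p s.R, h x ∈ ball s.p s.R) : MapsTo h s.O s.O := by
  have hsub : s.O ⊆ ball s.p (2 * s.R) := fun x hx =>
    ball_subset_ball (by linarith [s.hR]) (s.O_sub hx).2
  have hc : IsPreconnected (h '' s.O) :=
    s.O_preconn.image h (hd.continuousOn.mono hsub)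
  have hvm : v ∈ h '' s.O := ⟨s.u₀, s.u₀_O, h0⟩
  have h1 : h '' s.O ⊆ s.U := by
    refine s.sub_U hc n ?_ ⟨v, hvm, (s.O_sub hv).1⟩
    rintro _ ⟨x, hx, rfl⟩
    rw [he x (hsub hx)]
    exact (s.O_sub hx).1
  have h2 : h '' s.O ⊆ s.O := by
    refine s.sub_O hc (fun z hz => ⟨h1 hz, ?_⟩) hvm hv
    obtain ⟨x, hx, rfl⟩ := hz
    exact hmaps x (s.O_sub hx).2
  exact fun x hx => h2 ⟨x, hx, rfl⟩

/-- two branches of the same generation which meet are equal -/
lemma branch_unique {n : ℕ} {h h' : ℂ → ℂ} (hd : DifferentiableOn ℂ h (ball s.p (2 * s.R)))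
    (he : ∀ x ∈ ball s.p (2 * s.R), s.F^[n] (h x) = x)
    (hd' : DifferentiableOn ℂ h' (ball s.p (2 * s.R)))
    (he' : ∀ x ∈ ball s.p (2 * s.R), s.F^[n] (h' x) = x) {x y : ℂ}
    (hx : x ∈ ball s.p (2 * s.R)) (hy : y ∈ ball s.p (2 * s.R)) (hxy : h x = h' y) :
    h s.u₀ = h' s.u₀ := by
  have h1 : x = y := by rw [← he x hx, ← he' y hy, hxy]
  subst h1
  have h2 := lift_unique (s.iter_diff n) isOpen_ball (convex_ball _ _).isPreconnected hd hd'
    (fun z hz => by rw [he z hz, he' z hz]) hx hxy (by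
      have h3 := s.deriv_mul isOpen_ball hd (E' := id) (fun z hz => he z hz) hx
      intro h0
      rw [h0, zero_mul, deriv_id] at h3
      exact zero_ne_one h3)
  exact h2 s.u₀_ball2

theorem stages {K η : ℝ} (hη : 0 < η) : ∃ (n' : ℕ) (W : Finset ℂ),
    (∀ w ∈ W, w ∈ s.O ∧ s.F^[n'] w = s.u₀ ∧ ‖w - s.p‖ < 3 * s.R / 4 ∧ s.sz n' w < η) ∧
      K ≤ ∑ w ∈ W, s.sz n' w := by
  obtain ⟨c, hc0, Cb, hCb1, hmain⟩ := s.main_lemma
  obtain ⟨Cd, hCd1, hbr⟩ := s.branch
  have hR := s.hR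
  have hCb0 : 0 < Cb := by linarith
  have hCd0 : 0 < Cd := by linarith
  -- stage 0
  set δ : ℝ := min (s.R / 32) (min (s.R / (16 * Cb * Cd)) (1 / (32 * Cd))) with hδ
  have hδ0 : 0 < δ := by
    rw [hδ]; simp only [lt_min_iff]; refine ⟨by positivity, by positivity, by positivity⟩
  have hδ1 : δ ≤ s.R / 32 := min_le_left _ _
  have hδ2 : δ ≤ s.R / (16 * Cb * Cd) := (min_le_right _ _).trans (min_le_left _ _)
  have hδ3 : δ ≤ 1 / (32 * Cd) := (min_le_right _ _).trans (min_le_right _ _)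
  obtain ⟨n₀, v₀, hv₀O, hv₀F, hv₀p, hv₀sz⟩ := s.stage0 hδ0
  have hsz0 : 0 < s.sz n₀ v₀ := s.sz_pos (s.O_sub hv₀O).1 hv₀F
  have hCbδ : Cb * δ < s.R / 8 := by
    have : Cb * δ ≤ Cb * (s.R / (16 * Cb * Cd)) := by gcongr
    have h2 : Cb * (s.R / (16 * Cb * Cd)) = s.R / 16 / Cd := by field_simp
    have h3 : s.R / 16 / Cd ≤ s.R / 16 := div_le_self (by positivity) hCd1
    linarith
  have hCdδ : Cd * δ ≤ 1 / 32 := by
    have : Cd * δ ≤ Cd * (1 / (32 * Cd)) := by gcongr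
    have h2 : Cd * (1 / (32 * Cd)) = 1 / 32 := by field_simp
    linarith
  -- stage 1
  obtain ⟨N, hN⟩ := exists_nat_ge (K / c)
  set η₁ : ℝ := min 1 (c / (N + 1)) with hη₁
  have hη₁0 : 0 < η₁ := by rw [hη₁]; simp only [lt_min_iff]; exact ⟨one_pos, by positivity⟩
  obtain ⟨n₁, W₁, hW₁, hW₁s⟩ := hmain η₁ hη₁0 n₀ {v₀} (by
    intro v hv
    rw [Finset.mem_singleton] at hv
    subst hv
    refine ⟨hv₀O, hv₀F, by linarith, ?_⟩
    have : Cb * s.sz n₀ v < Cb * δ := by gcongr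
    linarith)
  have hcard : (N : ℝ) ≤ W₁.card := by
    have h1 : ∑ w ∈ W₁, s.sz n₁ w ≤ W₁.card * η₁ := by
      rw [← nsmul_eq_mul]
      exact Finset.sum_le_card_nsmul _ _ _ fun w hw => (hW₁ w hw).2.2.2.le
    have h2 : c ≤ W₁.card * (c / (N + 1)) := by
      calc c = c * (({v₀} : Finset ℂ).card : ℝ) := by simp
        _ ≤ _ := hW₁s
        _ ≤ W₁.card * η₁ := h1
        _ ≤ W₁.card * (c / (N + 1)) := by gcongr; exact min_le_right _ _
    rw [mul_div_assoc', le_div_iff₀ (by positivity)] at h2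
    have h3 : ((N : ℝ) + 1) ≤ W₁.card := by
      have h4 : c * ((N : ℝ) + 1) ≤ c * W₁.card := by linarith
      exact le_of_mul_le_mul_left h4 hc0
    linarith
  -- stage 2
  obtain ⟨h, hd, he, h0, hinj, hdist, hder⟩ := hbr n₀ v₀ hv₀F
  have hmapsR : ∀ x ∈ closedBall s.p s.R, ‖h x - s.p‖ < s.R / 8 := by
    intro x hx
    have h1 := (hdist x hx s.u₀ (ball_subset_closedBall s.u₀_ball)).1
    rw [h0] at h1
    have h2 : ‖x - s.u₀‖ ≤ 2 * s.R := by
      rw [← dist_eq_norm]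
      have h3 := dist_triangle_right x s.u₀ s.p
      have h4 := mem_closedBall.mp hx
      have h5 := mem_ball.mp s.u₀_ball
      linarith
    have h6 : ‖h x - v₀‖ ≤ 1 / 32 * (2 * s.R) := by
      calc ‖h x - v₀‖ ≤ Cd * s.sz n₀ v₀ * ‖x - s.u₀‖ := h1
        _ ≤ Cd * δ * (2 * s.R) := by gcongr
        _ ≤ 1 / 32 * (2 * s.R) := by gcongr
    have h7 : ‖h x - s.p‖ ≤ ‖h x - v₀‖ + ‖v₀ - s.p‖ := norm_sub_le_norm_sub_add_norm_sub _ _ _
    linarith
  have hO : MapsTo h s.O s.O := by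
    refine s.branch_O hd he h0 hv₀O fun x hx => ?_
    rw [mem_ball, dist_eq_norm]
    have := hmapsR x (ball_subset_closedBall hx)
    linarith
  have hW₁ball : ∀ w ∈ W₁, w ∈ ball s.p s.R := fun w hw => (s.O_sub (hW₁ w hw).1).2
  have hb2 : ball s.p s.R ⊆ ball s.p (2 * s.R) := ball_subset_ball (by linarith)
  have hF2 : ∀ w ∈ W₁, s.F^[n₁ + n₀] (h w) = s.u₀ := by
    intro w hw
    rw [Function.iterate_add_apply, he w (hb2 (hW₁ball w hw)), (hW₁ w hw).2.1]
  obtain ⟨n', W, hW, hWs⟩ := hmain η hη (n₁ + n₀) (W₁.image h) (by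
    intro v hv
    rw [Finset.mem_image] at hv
    obtain ⟨w, hw, rfl⟩ := hv
    refine ⟨hO (hW₁ w hw).1, hF2 w hw, hmapsR w (ball_subset_closedBall (hW₁ball w hw)), ?_⟩
    -- size
    have h1 : deriv s.F^[n₁ + n₀] (h w) = deriv s.F^[n₁] w * deriv s.F^[n₀] (h w) := by
      have e1 : s.F^[n₁ + n₀] = s.F^[n₁] ∘ s.F^[n₀] := Function.iterate_add _ _ _
      rw [e1, deriv_comp _ (s.iter_diff n₁ _) (s.iter_diff n₀ _), he w (hb2 (hW₁ball w hw))]
    have h2 : deriv s.F^[n₀] (h w) * deriv h w = 1 := by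
      have h3 := s.deriv_mul isOpen_ball hd (E' := id) (fun z hz => he z hz)
        (hb2 (hW₁ball w hw))
      rw [h3, deriv_id]
    have h4 : s.sz (n₁ + n₀) (h w) = s.sz n₁ w * ‖deriv h w‖ := by
      simp only [sz]
      rw [h1, norm_mul, mul_inv]
      congr 1
      have h5 : ‖deriv s.F^[n₀] (h w)‖ * ‖deriv h w‖ = 1 := by
        rw [← norm_mul, h2, norm_one]
      exact (eq_inv_of_mul_eq_one_right h5).symm
    rw [h4]
    have h6 := hder w (ball_subset_closedBall (hW₁ball w hw))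
    have h7 := (hW₁ w hw).2.2.2
    have h8 : 0 < s.sz n₁ w := s.sz_pos (s.O_sub (hW₁ w hw).1).1 (hW₁ w hw).2.1
    calc Cb * (s.sz n₁ w * ‖deriv h w‖) ≤ Cb * (1 * (Cd * δ)) := by
          gcongr
          · exact h7.le.trans (min_le_left _ _)
          · exact h6.trans (by gcongr)
      _ = Cd * (Cb * δ) := by ring
      _ ≤ Cd * (Cb * (s.R / (16 * Cb * Cd))) := by gcongr
      _ = s.R / 16 := by field_simp
      _ < s.R / 8 := by linarith)
  refine ⟨n', W, hW, ?_⟩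
  have hcardi : (W₁.image h).card = W₁.card := by
    apply Finset.card_image_of_injOn
    exact hinj.mono fun w hw => hb2 (hW₁ball w hw)
  rw [hcardi] at hWs
  refine le_trans ?_ hWs
  have h1 : K ≤ N * c := by rwa [div_le_iff₀ hc0] at hN
  calc K ≤ N * c := h1
    _ ≤ W₁.card * c := by gcongr
    _ = c * W₁.card := mul_comm _ _

/-- The core theorem: a compact set of dimension `> 1` in the boundary. -/
theorem core : ∃ Λ : Set ℂ, 1 < dimH Λ ∧ Λ ⊆ closedBall s.p s.R ∧ Λ ⊆ closure s.O ∧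
    ∃ m : ℕ, 1 ≤ m ∧ ∀ x ∈ Λ, ∀ n : ℕ, s.F^[m * n] x ∈ closedBall s.p s.R := by
  obtain ⟨Cd, hCd1, hbr⟩ := s.branch
  have hR := s.hR
  have hCd0 : 0 < Cd := by linarith
  set η : ℝ := min 1 (1 / (8 * Cd)) with hη
  have hη0 : 0 < η := by rw [hη]; simp only [lt_min_iff]; exact ⟨one_pos, by positivity⟩
  have hηCd : Cd * η ≤ 1 / 8 := by
    have h1 : Cd * η ≤ Cd * (1 / (8 * Cd)) := by gcongr; exact min_le_right _ _
    have h2 : Cd * (1 / (8 * Cd)) = 1 / 8 := by field_simp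
    linarith
  obtain ⟨m, W, hW, hWs⟩ := s.stages (K := 2 * Cd) hη0
  have hWne : W.Nonempty := by
    rw [Finset.nonempty_iff_ne_empty]
    rintro rfl
    simp at hWs
    linarith
  have hm : 1 ≤ m := by
    by_contra hcon
    have : m = 0 := by omega
    subst this
    obtain ⟨w, hw⟩ := hWne
    have h1 := (hW w hw).2.2.2
    have h2 : s.sz 0 w = 1 := by simp [sz]
    rw [h2] at h1
    exact absurd (h1.trans_le (min_le_left _ _)) (lt_irrefl _)
  have hbr' : ∀ i : {x // x ∈ W}, ∃ h : ℂ → ℂ, DifferentiableOn ℂ h (ball s.p (2 * s.R)) ∧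
      (∀ x ∈ ball s.p (2 * s.R), s.F^[m] (h x) = x) ∧ h s.u₀ = i.1 ∧
      InjOn h (ball s.p (2 * s.R)) ∧
      (∀ x ∈ closedBall s.p s.R, ∀ y ∈ closedBall s.p s.R,
        ‖h x - h y‖ ≤ Cd * s.sz m i.1 * ‖x - y‖ ∧ s.sz m i.1 * ‖x - y‖ ≤ Cd * ‖h x - h y‖) ∧
      (∀ x ∈ closedBall s.p s.R, ‖deriv h x‖ ≤ Cd * s.sz m i.1) :=
    fun i => hbr m i.1 (hW i.1 i.2).2.1
  choose h hd he h0 hinj hdist hder using hbr'
  have hszpos : ∀ i : {x // x ∈ W}, 0 < s.sz m i.1 := fun i =>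
    s.sz_pos (s.O_sub (hW i.1 i.2).1).1 (hW i.1 i.2).2.1
  have hszle : ∀ i : {x // x ∈ W}, Cd * s.sz m i.1 ≤ 1 / 8 := fun i => by
    have := (hW i.1 i.2).2.2.2
    have h1 : Cd * s.sz m i.1 ≤ Cd * η := by gcongr
    linarith
  have hdiam : ∀ x ∈ closedBall s.p s.R, ‖x - s.u₀‖ ≤ 2 * s.R := by
    intro x hx
    rw [← dist_eq_norm]
    have h3 := dist_triangle_right x s.u₀ s.p
    have h4 := mem_closedBall.mp hx
    have h5 := mem_ball.mp s.u₀_ball
    linarith
  have hmapsR : ∀ i, ∀ x ∈ closedBall s.p s.R, h i x ∈ ball s.p s.R := by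
    intro i x hx
    have h1 := (hdist i x hx s.u₀ (ball_subset_closedBall s.u₀_ball)).1
    rw [h0] at h1
    have h6 : ‖h i x - i.1‖ ≤ 1 / 8 * (2 * s.R) := by
      refine h1.trans ?_
      have := hszle i
      have := hdiam x hx
      gcongr
    have h7 : ‖h i x - s.p‖ ≤ ‖h i x - i.1‖ + ‖i.1 - s.p‖ := norm_sub_le_norm_sub_add_norm_sub _ _ _
    have h8 := (hW i.1 i.2).2.2.1
    rw [mem_ball, dist_eq_norm]
    linarith
  have hmapsO : ∀ i, MapsTo (h i) s.O s.O := fun i =>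
    s.branch_O (hd i) (he i) (h0 i) (hW i.1 i.2).1 fun x hx =>
      hmapsR i x (ball_subset_closedBall hx)
  have hsub := s.closedBall_sub
  refine ⟨{x : ℂ | ∃ ω : ℕ → {x // x ∈ W}, ∀ n, x ∈ word h ω n '' closedBall s.p s.R}, ?_, ?_, ?_,
    m, hm, ?_⟩
  · refine ifs_dim (isCompact_closedBall _ _) ⟨s.p, mem_closedBall_self hR.le, s.u₀,
      ball_subset_closedBall s.u₀_ball, fun h => s.hpU (h ▸ s.u₀_mem)⟩ h
      (fun i => (hd i).continuousOn.mono hsub)
      (fun i x hx => ball_subset_closedBall (hmapsR i x hx)) ?_ (fun i => s.sz m i.1 / Cd)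
      (fun i => div_pos (hszpos i) hCd0) ?_ ?_
    · intro i j hij
      rw [Set.disjoint_left]
      rintro z ⟨x, hx, rfl⟩ ⟨y, hy, hyx⟩
      have h1 := s.branch_unique (hd i) (he i) (hd j) (he j) (hsub hx) (hsub hy) hyx.symm
      rw [h0, h0] at h1
      exact hij (Subtype.ext h1)
    · intro i x hx y hy
      have h1 := (hdist i x hx y hy).2
      rw [dist_eq_norm, dist_eq_norm, div_mul_eq_mul_div, div_le_iff₀ hCd0]
      linarith
    · rw [← Finset.sum_div, lt_div_iff₀ hCd0]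
      have h1 : ∑ i : {x // x ∈ W}, s.sz m i.1 = ∑ w ∈ W, s.sz m w :=
        Finset.sum_coe_sort W (fun w => s.sz m w)
      rw [h1]
      linarith
  · rintro x ⟨ω, hω⟩
    obtain ⟨y, hy, hyx⟩ := hω 0
    simp only [word, id] at hyx
    rw [← hyx]; exact hy
  · -- closure of O
    rintro x ⟨ω, hω⟩
    have hwO : ∀ n, MapsTo (word h ω n) s.O s.O := by
      intro n
      induction n with
      | zero => intro z hz; exact hz
      | succ n ih => intro z hz; exact ih (hmapsO (ω n) hz)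
    have hlip : ∀ n, ∀ y ∈ closedBall s.p s.R, ∀ z ∈ closedBall s.p s.R,
        ‖word h ω n y - word h ω n z‖ ≤ (1 / 8) ^ n * ‖y - z‖ := by
      intro n
      induction n with
      | zero => intro y _ z _; simp [word]
      | succ n ih =>
        intro y hy z hz
        have h1 := ih (h (ω n) y) (ball_subset_closedBall (hmapsR _ y hy)) (h (ω n) z)
          (ball_subset_closedBall (hmapsR _ z hz))
        have h2 := (hdist (ω n) y hy z hz).1
        have h3 := hszle (ω n)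
        calc ‖word h ω (n + 1) y - word h ω (n + 1) z‖
            = ‖word h ω n (h (ω n) y) - word h ω n (h (ω n) z)‖ := rfl
          _ ≤ (1 / 8) ^ n * ‖h (ω n) y - h (ω n) z‖ := h1
          _ ≤ (1 / 8) ^ n * (1 / 8 * ‖y - z‖) := by
              gcongr
              exact h2.trans (by gcongr)
          _ = (1 / 8) ^ (n + 1) * ‖y - z‖ := by ring
    rw [Metric.mem_closure_iff]
    intro ε hε
    obtain ⟨n, hn⟩ := exists_pow_lt_of_lt_one (show (0:ℝ) < ε / (2 * s.R) by positivity)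
      (show (1/8 : ℝ) < 1 by norm_num)
    obtain ⟨y, hy, hyx⟩ := hω n
    refine ⟨word h ω n s.u₀, hwO n s.u₀_O, ?_⟩
    rw [← hyx, dist_eq_norm]
    have h1 := hlip n y hy s.u₀ (ball_subset_closedBall s.u₀_ball)
    have h2 := hdiam y hy
    calc ‖word h ω n y - word h ω n s.u₀‖ ≤ (1 / 8) ^ n * ‖y - s.u₀‖ := h1
      _ ≤ (1 / 8) ^ n * (2 * s.R) := by gcongr
      _ < ε / (2 * s.R) * (2 * s.R) := by gcongr
      _ = ε := by field_simp
  · rintro x ⟨ω, hω⟩ n
    obtain ⟨y, hy, hyx⟩ := hω n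
    have key : ∀ n, ∀ y ∈ closedBall s.p s.R, s.F^[m * n] (word h ω n y) = y := by
      intro n
      induction n with
      | zero => intro y _; simp [word]
      | succ n ih =>
        intro y hy
        have h1 := ih (h (ω n) y) (ball_subset_closedBall (hmapsR _ y hy))
        have h2 : m * (n + 1) = m + m * n := by ring
        rw [h2, Function.iterate_add_apply]
        have h3 : word h ω (n + 1) y = word h ω n (h (ω n) y) := rfl
        rw [h3, h1, he (ω n) y (hsub hy)]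
    rw [← hyx, key n y hy]
    exact hy

end Setup

end Pool.Agent.BB
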