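import Pool.Agent.BB.Core8

/-!
# Basin boundaries: transfer to all components of the basin
-/

open Set Metric Filter Topology MeasureTheory

namespace Pool.Agent.BB

lemma countable_zeros {g : ℂ → ℂ} (hg : Differentiable ℂ g) {x : ℂ} (hx : g x ≠ 0) :
    {z | g z = 0}.Countable := by
  have h1 : g ⁻¹' {0}ᶜ ∈ codiscrete ℂ :=
    AnalyticOnNhd.preimage_zero_mem_codiscrete (fun z _ => hg.analyticAt z) hx
  have h2 : {z | g z = 0} ⊆ ⋃ n : ℕ, (closedBall (0:ℂ) n \ g ⁻¹' {0}ᶜ) := by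
    intro z hz
    obtain ⟨n, hn⟩ := exists_nat_ge ‖z‖
    refine mem_iUnion.mpr ⟨n, by simpa using hn, ?_⟩
    simpa using hz
  refine Set.Countable.mono h2 (countable_iUnion fun n => ?_)
  refine Set.Finite.countable ?_
  exact (isCompact_closedBall (0:ℂ) n).finite_sdiff_of_mem_codiscreteWithin
    (codiscreteWithin_mono (subset_univ _) h1)

/-- first exit time from an open set -/
lemma first_exit {κ : ℝ → ℂ} (hκ : ContinuousOn κ (Icc 0 1)) {V : Set ℂ} (hV : IsOpen V)
    (h0 : κ 0 ∈ V) (h1 : κ 1 ∉ V) : ∃ t ∈ Ioc (0:ℝ) 1, κ t ∉ V ∧ κ t ∈ closure V ∧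
      ∀ x ∈ Ico 0 t, κ x ∈ V := by
  set B : Set ℝ := Icc 0 1 ∩ κ ⁻¹' Vᶜ with hB
  have hBc : IsClosed B := hκ.preimage_isClosed_of_isClosed isClosed_Icc hV.isClosed_compl
  have hBcomp : IsCompact B := isCompact_Icc.of_isClosed_subset hBc inter_subset_left
  have hBne : B.Nonempty := ⟨1, ⟨by norm_num, le_rfl⟩, h1⟩
  have htB : sInf B ∈ B := hBcomp.sInf_mem hBne
  set t := sInf B with ht
  have hlt : ∀ x ∈ Ico 0 t, κ x ∈ V := by
    intro x hx
    by_contra hcon
    have : x ∈ B := ⟨⟨hx.1, hx.2.le.trans htB.1.2⟩, hcon⟩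
    exact absurd (csInf_le hBcomp.bddBelow this) (not_le.mpr hx.2)
  have ht0 : 0 < t := by
    rcases eq_or_lt_of_le htB.1.1 with h | h
    · exfalso
      apply htB.2
      rw [← h]; exact h0
    · exact h
  have hct : ContinuousWithinAt κ (Ico 0 t) t :=
    (hκ t htB.1).mono fun x hx => ⟨hx.1, hx.2.le.trans htB.1.2⟩
  have htcl : t ∈ closure (Ico 0 t) := by
    rw [closure_Ico ht0.ne]; exact ⟨ht0.le, le_rfl⟩
  have hmem : κ t ∈ closure V := by
    have := hct.mem_closure_image htcl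
    refine closure_mono ?_ this
    rintro _ ⟨x, hx, rfl⟩
    exact hlt x hx
  exact ⟨t, ⟨ht0, htB.1.2⟩, htB.2, hmem, hlt⟩

/-- the closure of a component of an open set meets the open set only in the component -/
lemma closure_comp {B : Set ℂ} (hB : IsOpen B) {z₀ z : ℂ}
    (hz : z ∈ closure (connectedComponentIn B z₀)) (hzB : z ∈ B) :
    z ∈ connectedComponentIn B z₀ := by
  have h1 : IsOpen (connectedComponentIn B z) := hB.connectedComponentIn
  rw [_root_.mem_closure_iff] at hz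
  obtain ⟨y, hy1, hy2⟩ := hz _ h1 (mem_connectedComponentIn hzB)
  have h2 := connectedComponentIn_eq hy1
  have h3 := connectedComponentIn_eq hy2
  rw [h3, ← h2]
  exact mem_connectedComponentIn hzB

namespace Setup

variable (s : Setup)

theorem transfer (hζ : s.φ 0 ∉ closedBall s.p s.R) {B : Set ℂ} (hB : IsOpen B)
    (hUB : s.U ⊆ B) (hBcl : ∀ z ∈ closure s.U, z ∈ B → z ∈ s.U) {z₀ : ℂ} (hz₀ : z₀ ∈ B)
    {G : ℂ → ℂ} (hG : Differentiable ℂ G) (hGne : ∃ x, deriv G x ≠ 0)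
    (hGB : ∀ x, G x ∈ B → x ∈ B) (hFB : ∀ n x, s.F^[n] x ∈ B → x ∈ B)
    (hGU : MapsTo G (connectedComponentIn B z₀) s.U) :
    1 < dimH (frontier (connectedComponentIn B z₀)) := by
  obtain ⟨Λ, hΛdim, hΛR, hΛO, m, hm, hΛF⟩ := s.core
  set U' := connectedComponentIn B z₀ with hU'
  have hU'o : IsOpen U' := hB.connectedComponentIn
  have hU'c : IsPreconnected U' := isPreconnected_connectedComponentIn
  have hU'B : U' ⊆ B := connectedComponentIn_subset _ _
  have hz₀U' : z₀ ∈ U' := mem_connectedComponentIn hz₀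
  have hR := s.hR
  -- Λ is disjoint from B
  have hΛB : ∀ x ∈ Λ, x ∉ B := by
    intro x hx hxB
    have hxU : x ∈ s.U := hBcl x (closure_mono (fun z hz => (s.O_sub hz).1) (hΛO hx)) hxB
    have h1 : Tendsto (fun n : ℕ => s.F^[n] x) atTop (𝓝 (s.φ 0)) := by
      have h2 : ContinuousAt s.φ 0 :=
        s.hφ.continuousOn.continuousAt (isOpen_ball.mem_nhds (mem_ball_self one_pos))
      have h3 := h2.tendsto.comp (s.hlim x hxU)
      refine h3.congr fun n => ?_
      exact (s.hψφ _ (s.iter_mem hxU n)).2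
    have h2 : Tendsto (fun n : ℕ => m * n) atTop atTop :=
      tendsto_id.const_mul_atTop' (by omega : 0 < m)
    have h3 := h1.comp h2
    exact hζ (isClosed_closedBall.mem_of_tendsto h3 (Eventually.of_forall fun n => hΛF x hx n))
  -- noncritical boundary point
  have hunc : ¬ (frontier U').Countable := by
    intro hc
    have hconn : IsPreconnected (frontier U')ᶜ :=
      (hc.isConnected_compl_of_one_lt_rank (by
        simp only [Complex.rank_real_complex, Nat.one_lt_ofNat])).isPreconnected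
    have h1 : (frontier U')ᶜ ⊆ U' := by
      refine hconn.subset_left_of_subset_union hU'o (isClosed_closure (s := U')).isOpen_compl
        (disjoint_compl_right_iff_subset.mpr subset_closure) ?_ ?_
      · intro z hz
        by_cases h : z ∈ U'
        · exact Or.inl h
        · right
          intro hcl
          exact hz ⟨hcl, by rwa [hU'o.interior_eq]⟩
      · refine ⟨z₀, ?_, hz₀U'⟩
        rintro ⟨-, h⟩
        rw [hU'o.interior_eq] at h
        exact h hz₀U'
    have h2 : Λ ⊆ frontier U' := by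
      intro x hx
      by_contra hcon
      exact hΛB x hx (hU'B (h1 hcon))
    have h3 : dimH Λ = 0 := (hc.mono h2).dimH_zero
    rw [h3] at hΛdim
    exact absurd hΛdim (by simp)
  obtain ⟨x', hx'F, hx'd⟩ : ∃ x' ∈ frontier U', deriv G x' ≠ 0 := by
    by_contra hcon
    push Not at hcon
    obtain ⟨x₀, hx₀⟩ := hGne
    have hdG : Differentiable ℂ (deriv G) := hG.deriv
    exact hunc ((countable_zeros hdG hx₀).mono fun z hz => hcon z hz)
  have hx'U : x' ∉ U' := by
    have := hx'F.2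
    rwa [hU'o.interior_eq] at this
  -- local inverse
  have hst := ((hG.analyticAt x').hasStrictDerivAt).hasStrictFDerivAt_equiv hx'd
  set e := hst.toOpenPartialHomeomorph G with he
  have hes : x' ∈ e.source := hst.mem_toOpenPartialHomeomorph_source
  have hecoe : ∀ x, e x = G x := fun x => by rw [he]; rfl
  obtain ⟨ε, hε, hεs⟩ : ∃ ε > 0, closedBall x' ε ⊆ e.source :=
    nhds_basis_closedBall.mem_iff.mp (e.open_source.mem_nhds hes)
  set K1 : Set ℂ := G '' closedBall x' ε with hK1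
  have hK1c : IsCompact K1 := (isCompact_closedBall _ _).image hG.continuous
  have hK1t : K1 ⊆ e.target := by
    rintro _ ⟨x, hx, rfl⟩
    rw [← hecoe]
    exact e.map_source (hεs hx)
  obtain ⟨δ₀, hδ₀, hδ₀t⟩ := hK1c.exists_cthickening_subset_open e.open_target hK1t
  -- path in U'
  obtain ⟨z1, hz1b, hz1U⟩ : (ball x' ε ∩ U').Nonempty := by
    have := hx'F.1
    rw [_root_.mem_closure_iff] at this
    exact this _ isOpen_ball (mem_ball_self hε)
  set κ' : ℝ → ℂ := fun x => z1 + (x : ℂ) * (x' - z1) with hκ'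
  have hκ'c : Continuous κ' := by fun_prop
  have hκ'b : ∀ x ∈ Icc (0:ℝ) 1, κ' x ∈ closedBall x' ε := by
    intro x hx
    have h1 : κ' x - x' = ((1 - x : ℝ) : ℂ) * (z1 - x') := by
      simp only [hκ']; push_cast; ring
    rw [mem_closedBall, dist_eq_norm, h1, norm_mul, Complex.norm_real,
      Real.norm_of_nonneg (by linarith [hx.2])]
    have h2 : ‖z1 - x'‖ ≤ ε := by
      rw [← dist_eq_norm]; exact (mem_ball.mp hz1b).le
    have h3 : 0 ≤ ‖z1 - x'‖ := norm_nonneg _
    nlinarith [hx.1, hx.2]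
  obtain ⟨τ, hτ, hτU, hτcl, hτlt⟩ := first_exit (κ := κ') hκ'c.continuousOn hU'o
    (by simpa [hκ'] using hz1U) (by simpa [hκ'] using hx'U)
  have hτB : κ' τ ∉ B := fun h => hτU (closure_comp hB hτcl h)
  set κ : ℝ → ℂ := fun x => G (κ' (τ * x)) with hκ
  have hκc : Continuous κ := hG.continuous.comp (hκ'c.comp (by fun_prop))
  have hκ0 : κ 0 ∈ s.U := by
    simp only [hκ, mul_zero]
    apply hGU
    simpa [hκ'] using hz1U
  have hκ1 : κ 1 ∉ s.U := by
    simp only [hκ, mul_one]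
    exact fun h => hτB (hGB _ (hUB h))
  have hτmem : ∀ x ∈ Icc (0:ℝ) 1, τ * x ∈ Icc (0:ℝ) 1 := by
    intro x hx
    exact ⟨mul_nonneg hτ.1.le hx.1, by nlinarith [hx.1, hx.2, hτ.1, hτ.2]⟩
  have hκK : ∀ x ∈ Icc (0:ℝ) 1, κ x ∈ K1 := fun x hx => ⟨_, hκ'b _ (hτmem x hx), rfl⟩
  -- constants
  obtain ⟨C, hC1, hC⟩ := s.cell
  obtain ⟨Cd, hCd1, hbr⟩ := s.branch
  have hC0 : 0 < C := by linarith
  have hCd0 : 0 < Cd := by linarith
  set δ : ℝ := δ₀ / (C * (2 * C + 2 * s.R * Cd)) with hδ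
  have hden : 0 < C * (2 * C + 2 * s.R * Cd) := by positivity
  have hδpos : 0 < δ := by positivity
  obtain ⟨n₀, hn₀⟩ := s.small_dist_compact hK1c hδpos
  obtain ⟨n₁, hn₁⟩ := s.V_union hκ0
  set n := max n₀ n₁ with hn
  obtain ⟨t, ht, htU, htψ⟩ := s.exit (n := n) hκc.continuousOn (s.V_mono (le_max_right _ _) hn₁)
    (fun h => hκ1 h.1)
  have hκtU : κ t ∈ s.U := htU t ⟨ht.1.le, le_rfl⟩
  have ht1 : t < 1 := by
    rcases eq_or_lt_of_le ht.2 with h | h
    · exfalso; rw [h] at hκtU; exact hκ1 hκtU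
    · exact h
  have htI : t ∈ Icc (0:ℝ) 1 := ⟨ht.1.le, ht.2⟩
  have hinf := hn₀ n (le_max_left _ _) (κ t) hκtU (hκK t htI) htψ
  obtain ⟨w, hwU, hwF, hwsz, Z, hZ, hZU, htZ, hwZ, hZb⟩ := hC n (κ t) hκtU htψ
  have hszpos := s.sz_pos hwU hwF
  have hsz : s.sz n w < C * δ := hwsz.trans_lt (by gcongr)
  have hδeq : (2 * C + 2 * s.R * Cd) * (C * δ) = δ₀ := by
    rw [hδ]; field_simp
  have hbound : (2 * C + 2 * s.R * Cd) * s.sz n w ≤ δ₀ := by
    rw [← hδeq]; gcongr
  have htw : ‖κ t - w‖ ≤ C * s.sz n w := by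
    have := hZb htZ
    rwa [mem_closedBall, dist_eq_norm] at this
  have hthick : ∀ y : ℂ, ‖y - κ t‖ ≤ δ₀ → y ∈ e.target := by
    intro y hy
    apply hδ₀t
    exact mem_cthickening_of_dist_le y (κ t) δ₀ K1 (hκK t htI) (by rwa [dist_eq_norm])
  have hZt : Z ⊆ e.target := by
    intro y hy
    apply hthick
    have h2 : ‖y - w‖ ≤ C * s.sz n w := by
      have := hZb hy
      rwa [mem_closedBall, dist_eq_norm] at this
    have h3 : ‖y - κ t‖ ≤ ‖y - w‖ + ‖w - κ t‖ := norm_sub_le_norm_sub_add_norm_sub _ _ _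
    rw [norm_sub_rev w] at h3
    have h4 : 0 ≤ 2 * s.R * Cd * s.sz n w := by positivity
    nlinarith
  -- the point w' in U'
  have hκ't : κ' (τ * t) ∈ U' := by
    apply hτlt
    exact ⟨mul_nonneg hτ.1.le ht.1.le, by nlinarith [hτ.1]⟩
  have hsymm : e.symm (κ t) = κ' (τ * t) := by
    have h1 : κ t = e (κ' (τ * t)) := by rw [hecoe]
    rw [h1]
    exact e.left_inv (hεs (hκ'b _ (hτmem t htI)))
  have hZ' : e.symm '' Z ⊆ U' := by
    have h1 : IsPreconnected (e.symm '' Z) :=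
      hZ.image _ (e.continuousOn_symm.mono hZt)
    have h2 : e.symm '' Z ⊆ B := by
      rintro _ ⟨y, hy, rfl⟩
      apply hGB
      rw [← hecoe, e.right_inv (hZt hy)]
      exact hUB (hZU hy)
    have h3 := h1.subset_connectedComponentIn (x := κ' (τ * t)) ⟨κ t, htZ, hsymm⟩ h2
    have h4 : U' = connectedComponentIn B (κ' (τ * t)) := connectedComponentIn_eq hκ't
    rw [h4]; exact h3
  obtain ⟨h, hd, hhe, h0, hinj, hdist, -⟩ := hbr n w hwF
  have hsub := s.closedBall_sub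
  have hht : ∀ x ∈ closedBall s.p s.R, h x ∈ e.target := by
    intro x hx
    apply hthick
    have h1 := (hdist x hx s.u₀ (ball_subset_closedBall s.u₀_ball)).1
    rw [h0] at h1
    have h2 : ‖x - s.u₀‖ ≤ 2 * s.R := by
      rw [← dist_eq_norm]
      have h3 := dist_triangle_right x s.u₀ s.p
      have h4 := mem_closedBall.mp hx
      have h5 := mem_ball.mp s.u₀_ball
      linarith
    have h3 : ‖h x - w‖ ≤ Cd * s.sz n w * (2 * s.R) := h1.trans (by gcongr)
    have h4 : ‖h x - κ t‖ ≤ ‖h x - w‖ + ‖w - κ t‖ := norm_sub_le_norm_sub_add_norm_sub _ _ _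
    rw [norm_sub_rev w] at h4
    have h5 : 0 ≤ C * s.sz n w := by positivity
    nlinarith
  set Θ : ℂ → ℂ := fun x => e.symm (h x) with hΘ
  have hΘc : ContinuousOn Θ (closedBall s.p s.R) :=
    e.continuousOn_symm.comp (hd.continuousOn.mono hsub) hht
  have hGΘ : ∀ x ∈ closedBall s.p s.R, s.F^[n] (G (Θ x)) = x := by
    intro x hx
    rw [hΘ, ← hecoe]
    simp only
    rw [e.right_inv (hht x hx), hhe x (hsub hx)]
  have hOR : s.O ⊆ closedBall s.p s.R := fun x hx => ball_subset_closedBall (s.O_sub hx).2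
  have hΘO : Θ '' s.O ⊆ U' := by
    have h1 : IsPreconnected (Θ '' s.O) := s.O_preconn.image _ (hΘc.mono hOR)
    have h2 : Θ '' s.O ⊆ B := by
      rintro _ ⟨y, hy, rfl⟩
      apply hGB
      apply hFB n
      rw [hGΘ y (hOR hy)]
      exact hUB (s.O_sub hy).1
    have hwmem : e.symm w ∈ U' := hZ' ⟨w, hwZ, rfl⟩
    have h3 := h1.subset_connectedComponentIn (x := e.symm w)
      ⟨s.u₀, s.u₀_O, by simp only [hΘ]; rw [h0]⟩ h2
    have h4 : U' = connectedComponentIn B (e.symm w) := connectedComponentIn_eq hwmem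
    rw [h4]; exact h3
  have hΘΛ : Θ '' Λ ⊆ frontier U' := by
    rintro _ ⟨x, hx, rfl⟩
    refine ⟨?_, ?_⟩
    · have h1 : ContinuousWithinAt Θ s.O x := (hΘc x (hΛR hx)).mono hOR
      exact closure_mono hΘO (h1.mem_closure_image (hΛO hx))
    · rw [hU'o.interior_eq]
      intro hcon
      have h1 : Θ x ∈ B := hU'B hcon
      have h2 : G (Θ x) ∈ s.U := hGU hcon
      have h3 : s.F^[n] (G (Θ x)) ∈ s.U := s.iter_mem h2 n
      rw [hGΘ x (hΛR hx)] at h3
      exact hΛB x hx (hUB h3)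
  have hdimΘ : dimH Λ ≤ dimH (Θ '' Λ) := by
    have h1 : Λ = (fun x => s.F^[n] (G x)) '' (Θ '' Λ) := by
      rw [image_image]
      ext x
      constructor
      · intro hx; exact ⟨x, hx, hGΘ x (hΛR hx)⟩
      · rintro ⟨y, hy, hyx⟩
        have hyx' : s.F^[n] (G (Θ y)) = x := hyx
        rw [hGΘ y (hΛR hy)] at hyx'
        have hyx := hyx'
        rw [← hyx]; exact hy
    have h2 : Differentiable ℂ (fun x => s.F^[n] (G x)) := (s.iter_diff n).comp hG
    have h3 : ContDiff ℂ 1 (fun x => s.F^[n] (G x)) := h2.contDiff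
    have h4 : ContDiffOn ℝ 1 (fun x => s.F^[n] (G x)) univ := (h3.restrict_scalars ℝ).contDiffOn
    calc dimH Λ = dimH ((fun x => s.F^[n] (G x)) '' (Θ '' Λ)) := by rw [← h1]
      _ ≤ dimH (Θ '' Λ) := h4.dimH_image_le convex_univ (subset_univ _)
  exact hΛdim.trans_le (hdimΘ.trans (dimH_mono hΘΛ))

end Setup

end Pool.Agent.BB
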