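import Mathlib

/-!
# Basin boundaries (MP_b9540e_an): definitions

`SingVals g U` is the set of critical and asymptotic values of the restriction of `g` to `U`,
`PostSing f` the closed postsingular set of the entire function `f`.
-/

open Set Metric Filter Topology

namespace Pool.Agent.BB

/-- Critical and asymptotic values of `g` restricted to `U`. -/
def SingVals (g : ℂ → ℂ) (U : Set ℂ) : Set ℂ :=
  {w | (∃ z ∈ U, g z = w ∧ deriv g z = 0) ∨
    (∃ γ : ℝ → ℂ, ContinuousOn γ (Ico 0 1) ∧ (∀ t ∈ Ico (0:ℝ) 1, γ t ∈ U) ∧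
      (∀ K ⊆ U, IsCompact K → ∀ᶠ t in 𝓝[<] (1:ℝ), γ t ∉ K) ∧
      Tendsto (fun t => g (γ t)) (𝓝[<] (1:ℝ)) (𝓝 w))}

/-- The closure of the forward orbits of the singular values of `f`. -/
def PostSing (f : ℂ → ℂ) : Set ℂ := closure (⋃ n : ℕ, f^[n] '' SingVals f univ)

/-- The basin of the cycle of a periodic point `ζ` of period `p`. -/
def Basin (f : ℂ → ℂ) (p : ℕ) (ζ : ℂ) : Set ℂ :=
  {z | ∃ j < p, Tendsto (fun n : ℕ => f^[p * n] z) atTop (𝓝 (f^[j] ζ))}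

/-- Compositions `h (ω 0) ∘ ⋯ ∘ h (ω (n-1))`. -/
def word {ι : Type} (h : ι → ℂ → ℂ) (ω : ℕ → ι) : ℕ → ℂ → ℂ
  | 0 => id
  | n + 1 => word h ω n ∘ h (ω n)

end Pool.Agent.BB
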