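import Pool.Agent.BB.Main

/-!
# Basin boundaries: construction of the setup and the main theorem
-/

open Set Metric Filter Topology MeasureTheory

namespace Pool.Agent.BB

variable {f : ℂ → ℂ} {k : ℕ} {ζ : ℂ}

/-- The setup exists. -/
theorem exists_setup (hf : Differentiable ℂ f) (hk : 1 ≤ k)
    (hζ : f^[k] ζ = ζ) (hattr : ‖deriv f^[k] ζ‖ < 1)
    (hunb : ¬ Bornology.IsBounded (connectedComponentIn (Basin f k ζ) ζ))
    (hsing : ∃ K ⊆ connectedComponentIn (Basin f k ζ) ζ, IsCompact K ∧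
      SingVals f^[k] (connectedComponentIn (Basin f k ζ) ζ) ∩
        connectedComponentIn (Basin f k ζ) ζ ⊆ K)
    (hpost : ¬ frontier (connectedComponentIn (Basin f k ζ) ζ) ⊆ PostSing f) :
    ∃ s : Setup, s.F = f^[k] ∧ s.U = connectedComponentIn (Basin f k ζ) ζ ∧
      s.φ 0 ∉ closedBall s.p s.R := by
  set B := Basin f k ζ with hB
  set U := connectedComponentIn B ζ with hU
  set F := f^[k] with hFdef
  have hF : Differentiable ℂ F := hf.iterate k
  have hBo : IsOpen B := basin_open hf hk hζ hattr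
  have hAo : IsOpen (Att F ζ) := att_open hF hζ hattr
  have hAB : Att F ζ ⊆ B := att_sub_basin hf hk hζ
  have hζA : ζ ∈ Att F ζ := self_mem_att hζ
  have hζU : ζ ∈ U := mem_connectedComponentIn (hAB hζA)
  have hUo : IsOpen U := hBo.connectedComponentIn
  have hUc : IsPreconnected U := isPreconnected_connectedComponentIn
  have hUB : U ⊆ B := connectedComponentIn_subset _ _
  have hUA : U ⊆ Att F ζ := comp_sub_att hf hk hζ hattr
  have hclU : ∀ z ∈ closure U, z ∈ B → z ∈ U := fun z hz hzB => closure_comp hBo hz hzB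
  have hFB : ∀ z, F z ∈ B ↔ z ∈ B := fun z => basin_iter hf hk hζ k
  have hFU : MapsTo F U U := by
    have h1 : IsPreconnected (F '' U) := hUc.image F hF.continuous.continuousOn
    have h2 : F '' U ⊆ B := by
      rintro _ ⟨z, hz, rfl⟩
      exact (hFB z).mpr (hUB hz)
    have h3 := h1.subset_connectedComponentIn (x := ζ) ⟨ζ, hζU, hζ⟩ h2
    exact fun z hz => h3 ⟨z, hz, rfl⟩
  have hcl : ∀ z ∈ closure U, F z ∈ U → z ∈ U := fun z hz hFz =>
    hclU z hz ((hFB z).mp (hUB hFz))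
  -- boundary point
  obtain ⟨p₀, hp₀F, hp₀P⟩ := Set.not_subset.mp hpost
  have hp₀U : p₀ ∉ U := by
    have := hp₀F.2
    rwa [hUo.interior_eq] at this
  have hUne : U ≠ univ := fun h => hp₀U (h ▸ mem_univ _)
  -- Riemann map
  have hopen : IsOpen (Att F ζ \ U) := by
    have h1 : Att F ζ \ U = Att F ζ ∩ (closure U)ᶜ := by
      ext z
      constructor
      · rintro ⟨h1, h2⟩
        exact ⟨h1, fun h3 => h2 (hclU z h3 (hAB h1))⟩
      · rintro ⟨h1, h2⟩
        exact ⟨h1, fun h3 => h2 (subset_closure h3)⟩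
    rw [h1]
    exact hAo.inter isClosed_closure.isOpen_compl
  have hsq := sqrt_of_hull hAo hUo hUc hUA hopen
    (fun K hKA hK a ha => att_hull hF hζ hattr hKA hK ha)
  obtain ⟨φ, ψ, hφ, hψ, hφψ, hψφ, hφ0⟩ := riemann_map hUo hUc hUne hsq hζU
  have hφinj : InjOn φ (ball 0 1) := by
    intro x hx y hy hxy
    rw [← (hφψ x hx).2, ← (hφψ y hy).2, hxy]
  have hψζ : ψ ζ = 0 := by
    rw [← hφ0]
    exact (hφψ 0 (mem_ball_self one_pos)).2
  -- Schwarz
  have hschwarz : ∀ z ∈ U, ‖ψ (F z)‖ ≤ ‖ψ z‖ := by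
    intro z hz
    have hd : DifferentiableOn ℂ (fun w => ψ (F (φ w))) (ball 0 1) := by
      refine hψ.comp (hF.comp_differentiableOn hφ) ?_
      intro w hw
      exact hFU (hφψ w hw).1
    have hm : MapsTo (fun w => ψ (F (φ w))) (ball 0 1) (ball 0 1) := fun w hw =>
      (hψφ _ (hFU (hφψ w hw).1)).1
    have h0 : (fun w => ψ (F (φ w))) 0 = 0 := by
      simp only [hφ0]
      rw [hζ, hψζ]
    have h1 := Complex.norm_le_norm_of_mapsTo_ball hd (hm.mono_right ball_subset_closedBall) h0 (z := ψ z)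
      (by simpa using (hψφ z hz).1)
    simp only [(hψφ z hz).2] at h1
    exact h1
  have hlim : ∀ z ∈ U, Tendsto (fun n : ℕ => ψ (F^[n] z)) atTop (𝓝 0) := by
    intro z hz
    have h1 : ContinuousAt ψ ζ := hψ.continuousOn.continuousAt (hUo.mem_nhds hζU)
    have h2 := h1.tendsto.comp (hUA hz)
    rw [hψζ] at h2
    exact h2
  -- singular values
  obtain ⟨K, hKU, hKc, hKs⟩ := hsing
  obtain ⟨ρ₀, hρ₀, hρ₀K⟩ : ∃ r ∈ Ioo (0:ℝ) 1, ψ '' K ⊆ ball 0 r := by
    have hc : IsCompact (ψ '' K) := hKc.image_of_continuousOn (hψ.continuousOn.mono hKU)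
    refine exists_pos_lt_subset_ball one_pos hc.isClosed ?_
    rintro _ ⟨z, hz, rfl⟩
    exact (hψφ z (hKU hz)).1
  have hsv : ∀ w ∈ U, ρ₀ < ‖ψ w‖ → w ∉ SingVals F U := by
    intro w hw hlt hs
    have h1 : ψ w ∈ ball (0:ℂ) ρ₀ := hρ₀K ⟨w, hKs ⟨hs, hw⟩, rfl⟩
    rw [mem_ball_zero_iff] at h1
    exact absurd h1 (not_lt.mpr hlt.le)
  obtain ⟨ρ, hρ1, hρ2⟩ := exists_between hρ₀.2
  set ρ' := max ρ (1 / 2) with hρ'
  have hρ'1 : ρ' < 1 := max_lt hρ2 (by norm_num)
  -- radii
  obtain ⟨R₀, hR₀, hR₀P⟩ : ∃ r > 0, ball p₀ r ⊆ (PostSing f)ᶜ :=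
    Metric.isOpen_iff.mp (isClosed_closure (s := ⋃ n : ℕ, f^[n] '' SingVals f univ)).isOpen_compl
      p₀ hp₀P
  obtain ⟨ε₁, hε₁, hε₁K⟩ : ∃ r > 0, ball p₀ r ⊆ (φ '' closedBall 0 ρ')ᶜ := by
    have hc : IsCompact (φ '' closedBall 0 ρ') :=
      (isCompact_closedBall _ _).image_of_continuousOn
        (hφ.continuousOn.mono (closedBall_subset_ball hρ'1))
    refine Metric.isOpen_iff.mp hc.isClosed.isOpen_compl p₀ ?_
    rintro ⟨x, hx, hxp⟩
    apply hp₀U
    rw [← hxp]
    exact (hφψ x (closedBall_subset_ball hρ'1 hx)).1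
  have hdist : 0 < dist p₀ ζ := dist_pos.mpr (fun h => hp₀U (h ▸ hζU))
  obtain ⟨M, hM2, hM⟩ := radial_tail
  have hM0 : 0 < M := by linarith
  set R := min (R₀ / 4) (dist p₀ ζ / 4) with hR
  have hR0 : 0 < R := lt_min (by positivity) (by positivity)
  have hR1 : R ≤ R₀ / 4 := min_le_left _ _
  have hR2 : R ≤ dist p₀ ζ / 4 := min_le_right _ _
  set ε := min ε₁ (R / M) with hε
  have hε0 : 0 < ε := lt_min hε₁ (by positivity)
  have hεR : ε ≤ R / M := min_le_right _ _
  have hRM : R / M ≤ R / 2 := by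
    gcongr
  obtain ⟨us, husb, husU⟩ : (ball p₀ ε ∩ U).Nonempty := by
    have := hp₀F.1
    rw [_root_.mem_closure_iff] at this
    exact this _ isOpen_ball (mem_ball_self hε0)
  have hUcl : IsClosed Uᶜ := hUo.isClosed_compl
  obtain ⟨p, hpU, hpd⟩ := hUcl.exists_infDist_eq_dist ⟨p₀, hp₀U⟩ us
  have hd1 : dist us p < ε := by
    rw [← hpd]
    exact (infDist_le_dist_of_mem (show p₀ ∈ Uᶜ from hp₀U)).trans_lt (mem_ball.mp husb)
  have hd0 : 0 < dist us p := dist_pos.mpr (fun h => hpU (h ▸ husU))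
  have hball : ball us ‖us - p‖ ⊆ U := by
    intro y hy
    by_contra hcon
    rw [← dist_eq_norm, mem_ball, dist_comm] at hy
    have := infDist_le_dist_of_mem (x := us) (show y ∈ Uᶜ from hcon)
    rw [hpd] at this
    linarith
  have hpcl : p ∈ closure U := by
    have h1 : p ∈ closure (ball us ‖us - p‖) := by
      rw [← dist_eq_norm, closure_ball us hd0.ne', mem_closedBall, dist_comm]
    exact closure_mono hball h1
  have hpA : p ∉ Att F ζ := fun h => hpU (hclU p hpcl (hAB h))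
  have hpp₀ : dist p p₀ < 2 * ε := by
    have h1 := dist_triangle_left p p₀ us
    have h2 := mem_ball.mp husb
    linarith
  -- radial tail
  have hψus : ρ' < ‖ψ us‖ := by
    by_contra hcon
    push Not at hcon
    apply hε₁K (ball_subset_ball (min_le_left _ _) husb)
    exact ⟨ψ us, by simpa using hcon, (hψφ us husU).2⟩
  have hψus1 : ‖ψ us‖ < 1 := by simpa using (hψφ us husU).1
  have hψus2 : 1 / 2 ≤ ‖ψ us‖ := (le_max_right _ _).trans hψus.le
  have hψus0 : 0 < ‖ψ us‖ := by linarith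
  set c₀ : ℂ := ψ us / ((‖ψ us‖ : ℝ) : ℂ) with hc₀
  have hc₀1 : ‖c₀‖ = 1 := by
    rw [hc₀, norm_div, Complex.norm_real, norm_norm, div_self hψus0.ne']
  have hrc : (((‖ψ us‖ : ℝ) : ℂ)) * c₀ = ψ us := by
    rw [hc₀, mul_div_cancel₀]
    exact_mod_cast hψus0.ne'
  have hφus : φ (((‖ψ us‖ : ℝ) : ℂ) * c₀) = us := by rw [hrc]; exact (hψφ us husU).2
  have hpim : p ∉ φ '' ball 0 1 := by
    rintro ⟨x, hx, hxp⟩
    exact hpU (hxp ▸ (hφψ x hx).1)
  obtain ⟨c, hc1, hcus, hctail⟩ := hM φ p ‖ψ us‖ c₀ hφ hφinj hpim hψus2 hψus1 hc₀1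
  rw [hφus] at hcus hctail
  have hc0 : c ≠ 0 := by
    intro h; rw [h, norm_zero] at hc1; exact zero_ne_one hc1
  have hcball : ∀ x ∈ ball (0:ℂ) 1, c * x ∈ ball (0:ℂ) 1 := by
    intro x hx
    rw [mem_ball_zero_iff] at hx ⊢
    rwa [norm_mul, hc1, one_mul]
  have hnormψ : ∀ z, ‖c⁻¹ * ψ z‖ = ‖ψ z‖ := by
    intro z
    rw [norm_mul, norm_inv, hc1, inv_one, one_mul]
  have hMd : M * ‖us - p‖ ≤ R := by
    rw [← dist_eq_norm]
    calc M * dist us p ≤ M * (R / M) := by gcongr; exact hd1.le.trans hεR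
      _ = R := by field_simp
  refine ⟨{
    F := F
    hF := hF
    U := U
    hUo := hUo
    φ := fun x => φ (c * x)
    ψ := fun z => c⁻¹ * ψ z
    hφ := hφ.comp (by fun_prop) (fun x hx => hcball x hx)
    hψ := hψ.const_mul _
    hφψ := ?_
    hψφ := ?_
    hFU := hFU
    hcl := hcl
    hschwarz := ?_
    hlim := ?_
    hunb := hunb
    ρ₀ := ρ₀
    ρ := ρ
    r₁ := ‖ψ us‖
    hρ₀ := hρ₀.1
    hρ := hρ1
    hρr := (le_max_left _ _).trans_lt hψus
    hr₁ := hψus1
    hsing := ?_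
    p := p
    R := R
    hR := hR0
    hpU := hpU
    hbr := ?_
    hcirc := ?_
    htail := ?_
    us := us
    hus := hball
    hus0 := ?_
    husR := ?_ }, rfl, rfl, ?_⟩
  · intro x hx
    obtain ⟨h1, h2⟩ := hφψ _ (hcball x hx)
    refine ⟨h1, ?_⟩
    rw [h2, inv_mul_cancel_left₀ hc0]
  · intro z hz
    obtain ⟨h1, h2⟩ := hψφ z hz
    refine ⟨?_, ?_⟩
    · rw [mem_ball_zero_iff, hnormψ]
      simpa using h1
    · rw [mul_inv_cancel_left₀ hc0, h2]
  · intro z hz
    rw [hnormψ, hnormψ]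
    exact hschwarz z hz
  · intro z hz
    have := (hlim z hz).const_mul c⁻¹
    simpa using this
  · intro w hw hlt
    rw [hnormψ] at hlt
    exact hsv w hw hlt
  · intro n v hv
    have hFn : F^[n] = f^[k * n] := by rw [hFdef, Function.iterate_mul]
    rw [hFn] at hv ⊢
    refine branch_exists hf isOpen_ball (convex_ball _ _) ?_ (k * n) v hv
    intro x hx
    apply hR₀P
    rw [mem_ball] at hx ⊢
    have h1 := dist_triangle x p p₀
    have h2 : R / 2 ≤ R₀ / 8 := by linarith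
    linarith
  · intro t ht
    obtain ⟨y, hy1, hy2⟩ := att_circle hF hζ hattr hpA ht
    exact ⟨y, hy1, fun h => hy2 (hUA h)⟩
  · intro x hx1 hx2
    have h1 := hctail x hx1 hx2
    rw [mem_ball, dist_eq_norm]
    have h2 : φ (c * (x : ℂ)) = φ ((x : ℂ) * c) := by rw [mul_comm]
    rw [h2]
    exact h1.trans_le hMd
  · rw [mem_ball, dist_eq_norm]
    have h2 : φ (c * ((‖ψ us‖ : ℝ) : ℂ)) = φ (((‖ψ us‖ : ℝ) : ℂ) * c) := by rw [mul_comm]
    rw [h2]
    have h3 : 0 < ‖us - p‖ := by rw [← dist_eq_norm]; exact hd0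
    linarith
  · rw [← dist_eq_norm]
    have : R / 2 < R := by linarith
    linarith
  · simp only [mul_zero, hφ0]
    rw [mem_closedBall, not_le]
    have h1 := dist_triangle p₀ p ζ
    rw [dist_comm p₀ p] at h1
    rw [dist_comm ζ p]
    linarith

/-- **Main theorem.** -/
theorem main (hf : Differentiable ℂ f) (hk : 1 ≤ k)
    (hζ : f^[k] ζ = ζ) (hattr : ‖deriv f^[k] ζ‖ < 1)
    (hunb : ¬ Bornology.IsBounded (connectedComponentIn (Basin f k ζ) ζ))
    (hsing : ∃ K ⊆ connectedComponentIn (Basin f k ζ) ζ, IsCompact K ∧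
      SingVals f^[k] (connectedComponentIn (Basin f k ζ) ζ) ∩
        connectedComponentIn (Basin f k ζ) ζ ⊆ K)
    (hpost : ¬ frontier (connectedComponentIn (Basin f k ζ) ζ) ⊆ PostSing f)
    {z : ℂ} (hz : z ∈ Basin f k ζ) :
    1 < dimH (frontier (connectedComponentIn (Basin f k ζ) z)) := by
  obtain ⟨s, hsF, hsU, hsζ⟩ := exists_setup hf hk hζ hattr hunb hsing hpost
  have hBo : IsOpen (Basin f k ζ) := basin_open hf hk hζ hattr
  have hζA : ζ ∈ Att f^[k] ζ := self_mem_att hζ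
  have hζB : ζ ∈ Basin f k ζ := att_sub_basin hf hk hζ hζA
  have hUB : s.U ⊆ Basin f k ζ := by rw [hsU]; exact connectedComponentIn_subset _ _
  -- an iterate of z lands in U
  obtain ⟨m, hm⟩ : ∃ m : ℕ, f^[m] z ∈ s.U := by
    obtain ⟨i, hi⟩ := (basin_iff hf hk hζ).mp hz
    have hζU : ζ ∈ s.U := by rw [hsU]; exact mem_connectedComponentIn hζB
    obtain ⟨n, hn⟩ := (hi.eventually (s.hUo.mem_nhds hζU)).exists
    refine ⟨k * n + i, ?_⟩
    rw [Function.iterate_add_apply, Function.iterate_mul]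
    exact hn
  refine s.transfer hsζ hBo hUB ?_ hz (hf.iterate m) ?_ (fun x hx => (basin_iter hf hk hζ m).mp hx)
    ?_ ?_
  · intro x hx hxB
    rw [hsU] at hx ⊢
    exact closure_comp hBo hx hxB
  · by_contra hcon
    push Not at hcon
    have hconst : ∀ x, f^[m] x = f^[m] z := fun x =>
      is_const_of_deriv_eq_zero (hf.iterate m) hcon x z
    have huniv : Basin f k ζ = univ := by
      rw [eq_univ_iff_forall]
      intro x
      rw [← basin_iter hf hk hζ m, hconst x]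
      exact hUB hm
    apply s.hpU
    rw [hsU, huniv, connectedComponentIn_univ]
    have : connectedComponent ζ = (univ : Set ℂ) := PreconnectedSpace.connectedComponent_eq_univ ζ
    rw [this]
    exact mem_univ _
  · intro n x hx
    rw [hsF, ← Function.iterate_mul] at hx
    exact (basin_iter hf hk hζ (k * n)).mp hx
  · -- components are mapped into U
    have hU'c : IsPreconnected (connectedComponentIn (Basin f k ζ) z) :=
      isPreconnected_connectedComponentIn
    have h1 : IsPreconnected (f^[m] '' connectedComponentIn (Basin f k ζ) z) :=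
      hU'c.image _ (hf.iterate m).continuous.continuousOn
    have h2 : f^[m] '' connectedComponentIn (Basin f k ζ) z ⊆ Basin f k ζ := by
      rintro _ ⟨x, hx, rfl⟩
      exact (basin_iter hf hk hζ m).mpr (connectedComponentIn_subset _ _ hx)
    have h3 := h1.subset_connectedComponentIn (x := f^[m] z)
      ⟨z, mem_connectedComponentIn hz, rfl⟩ h2
    have h4 : connectedComponentIn (Basin f k ζ) ζ =
        connectedComponentIn (Basin f k ζ) (f^[m] z) :=
      connectedComponentIn_eq (by rw [← hsU]; exact hm)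
    intro x hx
    rw [hsU, h4]
    exact h3 ⟨x, hx, rfl⟩

end Pool.Agent.BB
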