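import Mathlib

/-!
The Riemann mapping theorem for plane domains on which every nonvanishing holomorphic function has
a holomorphic square root.
-/

set_option autoImplicit false

open Set Metric Filter Topology Complex

namespace Pool.Agent.BB

namespace RMT

/-- Ultralimits in compact sets. -/
lemma exists_ultra_limit {X : Type*} [TopologicalSpace X] (𝒰 : Ultrafilter ℕ) (u : ℕ → X)
    {K : Set X} (hK : IsCompact K) (hu : ∀ i, u i ∈ K) : ∃ x ∈ K, Tendsto u 𝒰 (𝓝 x) := by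
  obtain ⟨x, hx, hle⟩ := hK.ultrafilter_le_nhds (𝒰.map u) (by
    rw [le_principal_iff]
    exact (Eventually.of_forall hu : ∀ᶠ i in (𝒰 : Filter ℕ), u i ∈ K))
  exact ⟨x, hx, hle⟩

/-- Montel's theorem along an ultrafilter on an arbitrary open set. -/
theorem exists_holo_limit {U : Set ℂ} (hUo : IsOpen U) (h : ℕ → ℂ → ℂ) (R : ℝ) (hR : 0 ≤ R)
    (hd : ∀ i, DifferentiableOn ℂ (h i) U)
    (hb : ∀ i, ∀ ζ ∈ U, ‖h i ζ‖ ≤ R) (𝒰 : Ultrafilter ℕ) :
    ∃ g : ℂ → ℂ, DifferentiableOn ℂ g U ∧ (∀ ζ ∈ U, ‖g ζ‖ ≤ R) ∧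
      TendstoLocallyUniformlyOn h g (𝒰 : Filter ℕ) U := by
  have hlim : ∀ ζ : ℂ, ∃ y, ζ ∈ U → Tendsto (fun i => h i ζ) 𝒰 (𝓝 y) ∧ ‖y‖ ≤ R := by
    intro ζ
    by_cases hζ : ζ ∈ U
    · obtain ⟨y, hy1, hy⟩ := exists_ultra_limit 𝒰 (fun i => h i ζ) (isCompact_closedBall (0 : ℂ) R)
        (fun i => by rw [mem_closedBall_zero_iff]; exact hb i ζ hζ)
      exact ⟨y, fun _ => ⟨hy, by simpa using hy1⟩⟩
    · exact ⟨0, fun h => absurd h hζ⟩
  choose g hg using hlim
  have hunif : TendstoLocallyUniformlyOn h g (𝒰 : Filter ℕ) U := by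
    rw [Metric.tendstoLocallyUniformlyOn_iff]
    intro ε hε x hx
    obtain ⟨ρ, hρ0, hsub⟩ := Metric.isOpen_iff.mp hUo x hx
    set L : ℝ := (2 * R) / ρ with hL
    have hL0 : 0 ≤ L := by positivity
    have hlip : ∀ i, ∀ y ∈ ball x ρ, dist (h i y) (h i x) ≤ L * dist y x := by
      intro i y hy
      apply dist_le_div_mul_dist_of_mapsTo_ball ((hd i).mono hsub) _ hy
      intro y' hy'
      rw [mem_closedBall, dist_eq_norm]
      calc ‖h i y' - h i x‖ ≤ ‖h i y'‖ + ‖h i x‖ := norm_sub_le _ _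
        _ ≤ R + R := add_le_add (hb i _ (hsub hy')) (hb i _ hx)
        _ = 2 * R := by ring
    have hglip : ∀ y ∈ ball x ρ, dist (g y) (g x) ≤ L * dist y x := by
      intro y hy
      have h1 := (hg y (hsub hy)).1
      have h2 := (hg x hx).1
      exact le_of_tendsto (h1.dist h2) (Eventually.of_forall (fun i => hlip i y hy))
    set η : ℝ := min ρ (ε / (3 * (L + 1))) with hη
    have hη0 : 0 < η := lt_min hρ0 (by positivity)
    refine ⟨ball x η, mem_nhdsWithin_of_mem_nhds (ball_mem_nhds x hη0), ?_⟩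
    have hev : ∀ᶠ i in (𝒰 : Filter ℕ), dist (h i x) (g x) < ε / 3 :=
      (hg x hx).1.eventually (ball_mem_nhds (g x) (by positivity : 0 < ε / 3))
    filter_upwards [hev] with i hi y hy
    have hyρ : y ∈ ball x ρ := ball_subset_ball (min_le_left _ _) hy
    have hyd : L * dist y x ≤ ε / 3 := by
      have h3 : dist y x ≤ ε / (3 * (L + 1)) := (le_of_lt hy).trans (min_le_right _ _)
      calc L * dist y x ≤ (L + 1) * (ε / (3 * (L + 1))) := by
            apply mul_le_mul (by linarith) h3 dist_nonneg (by linarith)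
        _ = ε / 3 := by field_simp
    calc dist (g y) (h i y) ≤ dist (g y) (g x) + dist (g x) (h i x) + dist (h i x) (h i y) :=
          dist_triangle4 _ _ _ _
      _ < ε / 3 + ε / 3 + ε / 3 := by
          have h4 := hglip y hyρ
          have h5 := hlip i y hyρ
          rw [dist_comm (g x), dist_comm (h i x) (h i y)]
          linarith
      _ = ε := by ring
  exact ⟨g, hunif.differentiableOn (Eventually.of_forall hd) hUo, fun ζ hζ => (hg ζ hζ).2, hunif⟩

/-- Hurwitz' theorem: a locally uniform limit of nonvanishing holomorphic functions which vanishes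
at a point vanishes near this point. -/
theorem hurwitz_zero {l : Filter ℕ} [l.NeBot] {F : ℕ → ℂ → ℂ} {G : ℂ → ℂ} {U : Set ℂ}
    (hUo : IsOpen U) (hF : ∀ n, DifferentiableOn ℂ (F n) U) (hne : ∀ n, ∀ z ∈ U, F n z ≠ 0)
    (hlim : TendstoLocallyUniformlyOn F G l U) {z₂ : ℂ} (hz₂ : z₂ ∈ U) (h0 : G z₂ = 0) :
    ∀ᶠ z in 𝓝 z₂, G z = 0 := by
  have hG : DifferentiableOn ℂ G U := hlim.differentiableOn (Eventually.of_forall hF) hUo
  have hga : AnalyticOnNhd ℂ G U := hG.analyticOnNhd hUo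
  rcases (hga z₂ hz₂).eventually_eq_zero_or_eventually_ne_zero with h | h
  · exact h
  · exfalso
    rw [eventually_nhdsWithin_iff, Metric.eventually_nhds_iff_ball] at h
    obtain ⟨ρ, hρ, h⟩ := h
    -- a small closed ball where the convergence is uniform
    rw [Metric.tendstoLocallyUniformlyOn_iff] at hlim
    obtain ⟨r', hr'0, hr'⟩ := Metric.isOpen_iff.mp hUo z₂ hz₂
    set r : ℝ := min (ρ / 2) (r' / 2) with hr
    have hr0 : 0 < r := lt_min (by linarith) (by linarith)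
    have hrρ : r < ρ := (min_le_left _ _).trans_lt (by linarith)
    have hrr' : r < r' := (min_le_right _ _).trans_lt (by linarith)
    have hsub : closedBall z₂ r ⊆ U := (closedBall_subset_ball hrr').trans hr'
    have hsph : IsCompact (sphere z₂ r) := isCompact_sphere z₂ r
    have hnon : (sphere z₂ r).Nonempty := NormedSpace.sphere_nonempty.mpr hr0.le
    have hcont : ContinuousOn (fun z => ‖G z‖) (sphere z₂ r) :=
      (hG.continuousOn.mono (sphere_subset_closedBall.trans hsub)).norm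
    obtain ⟨w, hw, hmin⟩ := hsph.exists_isMinOn hnon hcont
    have hm0 : 0 < ‖G w‖ := by
      rw [norm_pos_iff]
      apply h w
      · rw [mem_ball]
        rw [mem_sphere] at hw
        rw [hw]; exact hrρ
      · intro hww
        rw [mem_singleton_iff] at hww
        rw [hww, mem_sphere, dist_self] at hw
        linarith
    set m : ℝ := ‖G w‖ with hm
    have hunif : ∀ᶠ n in l, ∀ z ∈ closedBall z₂ r, dist (G z) (F n z) < m / 4 := by
      have hcpt : IsCompact (closedBall z₂ r) := isCompact_closedBall _ _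
      have : TendstoLocallyUniformlyOn F G l (closedBall z₂ r) := by
        rw [Metric.tendstoLocallyUniformlyOn_iff]
        intro ε hε x hx
        obtain ⟨t, ht, h'⟩ := hlim ε hε x (hsub hx)
        exact ⟨t, nhdsWithin_mono _ hsub ht, h'⟩
      have h2 := (tendstoLocallyUniformlyOn_iff_tendstoUniformlyOn_of_compact hcpt).mp this
      rw [Metric.tendstoUniformlyOn_iff] at h2
      exact h2 (m / 4) (by linarith)
    obtain ⟨j, hj⟩ := hunif.exists
    have hd : DiffContOnCl ℂ (fun z => (F j z)⁻¹) (ball z₂ r) := by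
      apply DifferentiableOn.diffContOnCl
      rw [closure_ball z₂ hr0.ne']
      exact ((hF j).mono hsub).inv (fun z hz => hne j z (hsub hz))
    have hbd := Complex.norm_le_of_forall_mem_frontier_norm_le (C := 2 / m) isBounded_ball hd
      (by
        intro z hz
        rw [frontier_ball z₂ hr0.ne'] at hz
        have h1 : m ≤ ‖G z‖ := hmin hz
        have h2 := hj z (sphere_subset_closedBall hz)
        rw [dist_eq_norm] at h2
        have h3 : m / 2 ≤ ‖F j z‖ := by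
          have := norm_sub_norm_le (G z) (F j z)
          linarith
        rw [norm_inv, inv_eq_one_div, div_le_div_iff₀ (by linarith) hm0]
        linarith)
      (z := z₂) (by rw [closure_ball z₂ hr0.ne']; exact mem_closedBall_self hr0.le)
    rw [norm_inv] at hbd
    have hz2c : z₂ ∈ closedBall z₂ r := mem_closedBall_self hr0.le
    have h4 := hj z₂ hz2c
    rw [h0, dist_zero_left] at h4
    have h5 : 0 < ‖F j z₂‖ := norm_pos_iff.mpr (hne j z₂ hz₂)
    rw [inv_eq_one_div, div_le_div_iff₀ h5 hm0] at hbd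
    linarith

/-- The disc automorphism vanishing at `a`. -/
noncomputable def mob (a ζ : ℂ) : ℂ := (ζ - a) / (1 - (starRingEnd ℂ) a * ζ)

lemma den_ne {a ζ : ℂ} (ha : ‖a‖ < 1) (hζ : ‖ζ‖ < 1) : 1 - (starRingEnd ℂ) a * ζ ≠ 0 := by
  intro h
  have h1 : (starRingEnd ℂ) a * ζ = 1 := (sub_eq_zero.mp h).symm
  have h2 : ‖(starRingEnd ℂ) a * ζ‖ = 1 := by rw [h1, norm_one]
  rw [norm_mul, RCLike.norm_conj] at h2
  nlinarith [norm_nonneg a, norm_nonneg ζ]

lemma mob_lt {a ζ : ℂ} (ha : ‖a‖ < 1) (hζ : ‖ζ‖ < 1) : ‖mob a ζ‖ < 1 := by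
  have hden := den_ne ha hζ
  rw [mob, norm_div, div_lt_one (norm_pos_iff.mpr hden)]
  apply lt_of_pow_lt_pow_left₀ 2 (norm_nonneg _)
  rw [← normSq_eq_norm_sq, ← normSq_eq_norm_sq, normSq_apply, normSq_apply]
  have ha2 : a.re * a.re + a.im * a.im < 1 := by
    have : ‖a‖ ^ 2 < 1 := by nlinarith [norm_nonneg a]
    rwa [← normSq_eq_norm_sq, normSq_apply] at this
  have hz2 : ζ.re * ζ.re + ζ.im * ζ.im < 1 := by
    have : ‖ζ‖ ^ 2 < 1 := by nlinarith [norm_nonneg ζ]
    rwa [← normSq_eq_norm_sq, normSq_apply] at this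
  simp only [sub_re, sub_im, one_re, one_im, mul_re, mul_im, conj_re, conj_im]
  nlinarith [mul_pos (sub_pos.mpr ha2) (sub_pos.mpr hz2)]

lemma mob_inj {a ζ ξ : ℂ} (ha : ‖a‖ < 1) (hζ : ‖ζ‖ < 1) (hξ : ‖ξ‖ < 1)
    (h : mob a ζ = mob a ξ) : ζ = ξ := by
  have h1 := den_ne ha hζ
  have h2 := den_ne ha hξ
  rw [mob, mob, div_eq_div_iff h1 h2] at h
  have h3 : (ζ - ξ) * (1 - (starRingEnd ℂ) a * a) = 0 := by linear_combination h
  rcases mul_eq_zero.mp h3 with h4 | h4
  · exact sub_eq_zero.mp h4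
  · exact absurd h4 (den_ne ha ha)

lemma mob_hasDerivAt {a ζ : ℂ} (ha : ‖a‖ < 1) (hζ : ‖ζ‖ < 1) :
    HasDerivAt (mob a) ((1 - (starRingEnd ℂ) a * a) / (1 - (starRingEnd ℂ) a * ζ) ^ 2) ζ := by
  have h1 : HasDerivAt (fun ζ : ℂ => ζ - a) 1 ζ := (hasDerivAt_id ζ).sub_const a
  have h2 : HasDerivAt (fun ζ : ℂ => 1 - (starRingEnd ℂ) a * ζ) (-((starRingEnd ℂ) a)) ζ := by
    have := ((hasDerivAt_id ζ).const_mul ((starRingEnd ℂ) a)).const_sub 1
    simpa using this
  have h3 : HasDerivAt (mob a) _ ζ := h1.div h2 (den_ne ha hζ)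
  refine h3.congr_deriv ?_
  congr 1
  ring

end RMT

open RMT

theorem riemann_map {U : Set ℂ} (hUo : IsOpen U) (hUc : IsPreconnected U) (hU : U ≠ univ)
    (hsq : ∀ u : ℂ → ℂ, DifferentiableOn ℂ u U → (∀ z ∈ U, u z ≠ 0) →
      ∃ s : ℂ → ℂ, DifferentiableOn ℂ s U ∧ ∀ z ∈ U, s z ^ 2 = u z)
    {z₀ : ℂ} (hz₀ : z₀ ∈ U) :
    ∃ φ ψ : ℂ → ℂ, DifferentiableOn ℂ φ (ball 0 1) ∧ DifferentiableOn ℂ ψ U ∧
      (∀ ζ ∈ ball (0:ℂ) 1, φ ζ ∈ U ∧ ψ (φ ζ) = ζ) ∧ (∀ z ∈ U, ψ z ∈ ball (0:ℂ) 1 ∧ φ (ψ z) = z) ∧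
      φ 0 = z₀ := by
  have hda : ∀ {F : ℂ → ℂ}, DifferentiableOn ℂ F U → ∀ z ∈ U, DifferentiableAt ℂ F z :=
    fun hF z hz => hF.differentiableAt (hUo.mem_nhds hz)
  -- square roots have the expected derivative
  have hsqd : ∀ {u s : ℂ → ℂ}, DifferentiableOn ℂ u U → DifferentiableOn ℂ s U →
      (∀ z ∈ U, s z ^ 2 = u z) → ∀ z ∈ U, 2 * s z * deriv s z = deriv u z := by
    intro u s hu hs hsu z hz
    have h1 : HasDerivAt (fun w => s w ^ 2) (2 * s z * deriv s z) z := by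
      have := (hda hs z hz).hasDerivAt.fun_pow 2
      simpa using this
    have h2 : (fun w => s w ^ 2) =ᶠ[𝓝 z] u := by
      filter_upwards [hUo.mem_nhds hz] with w hw using hsu w hw
    rw [← h2.deriv_eq, h1.deriv]
  -- the class of competitors
  set 𝓕 : Set (ℂ → ℂ) := {F | DifferentiableOn ℂ F U ∧ InjOn F U ∧ MapsTo F U (ball 0 1) ∧
    F z₀ = 0 ∧ ∀ z ∈ U, deriv F z ≠ 0} with h𝓕
  -- Step A: nonempty
  have hne : 𝓕.Nonempty := by
    obtain ⟨a, ha⟩ := (ne_univ_iff_exists_notMem U).mp hU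
    obtain ⟨s, hs, hs2⟩ := hsq (fun z => z - a) (differentiableOn_id.sub_const a)
      (fun z hz h => ha (by rwa [sub_eq_zero.mp h] at hz))
    have hs0 : ∀ z ∈ U, s z ≠ 0 := by
      intro z hz h
      have := hs2 z hz
      rw [h] at this
      have h2 : z = a := by
        have h3 : z - a = 0 := by rw [← this]; ring
        exact sub_eq_zero.mp h3
      exact ha (h2 ▸ hz)
    have hsd : ∀ z ∈ U, deriv s z ≠ 0 := by
      intro z hz h
      have h1 := hsqd (differentiableOn_id.sub_const a) hs hs2 z hz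
      rw [h, mul_zero] at h1
      have h2 : deriv (fun z : ℂ => z - a) z = 1 := by simp
      rw [show deriv (fun x : ℂ => id x - a) z = 1 from by simp] at h1
      exact zero_ne_one h1
    have hsneg : ∀ z ∈ U, ∀ w ∈ U, s z ≠ - s w := by
      intro z hz w hw h
      have h1 : z - a = w - a := by rw [← hs2 z hz, ← hs2 w hw, h]; ring
      have h2 : z = w := by linear_combination h1
      subst h2
      have h3 : s z = 0 := by linear_combination h / 2
      exact hs0 z hz h3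
    have hsinj : InjOn s U := by
      intro z hz w hw h
      have h1 : z - a = w - a := by rw [← hs2 z hz, ← hs2 w hw, h]
      linear_combination h1
    have himg : s '' U ∈ 𝓝 (s z₀) := by
      have hst : HasStrictDerivAt s (deriv s z₀) z₀ :=
        (hs.analyticAt (hUo.mem_nhds hz₀)).hasStrictDerivAt
      rw [← hst.map_nhds_eq (hsd z₀ hz₀)]
      exact Filter.image_mem_map (hUo.mem_nhds hz₀)
    obtain ⟨r, hr0, hr⟩ := Metric.mem_nhds_iff.mp himg
    have hfar : ∀ z ∈ U, r ≤ ‖s z + s z₀‖ := by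
      intro z hz
      by_contra hlt
      push Not at hlt
      have h1 : - s z ∈ ball (s z₀) r := by
        rw [mem_ball, dist_eq_norm, show - s z - s z₀ = -(s z + s z₀) by ring, norm_neg]
        exact hlt
      obtain ⟨w, hw, hw2⟩ := hr h1
      exact hsneg w hw z hz hw2
    have hne0 : ∀ z ∈ U, s z + s z₀ ≠ 0 := fun z hz h => by
      have := hfar z hz
      rw [h, norm_zero] at this
      linarith
    set F1 : ℂ → ℂ := fun z => (r / 4 : ℝ) / (s z + s z₀) with hF1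
    have hF1b : ∀ z ∈ U, ‖F1 z‖ ≤ 1 / 4 := by
      intro z hz
      change ‖((r / 4 : ℝ) : ℂ) / (s z + s z₀)‖ ≤ 1 / 4
      rw [norm_div, norm_real, Real.norm_eq_abs, abs_of_pos (by linarith : 0 < r / 4),
        div_le_iff₀ (norm_pos_iff.mpr (hne0 z hz))]
      linarith [hfar z hz]
    have hF1d : DifferentiableOn ℂ F1 U :=
      (differentiableOn_const _).div (hs.add_const _) hne0
    refine ⟨fun z => F1 z - F1 z₀, hF1d.sub_const _, ?_, ?_, by simp, ?_⟩
    · intro z hz w hw h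
      have h1 : F1 z = F1 w := by
        have : F1 z - F1 z₀ = F1 w - F1 z₀ := h
        linear_combination this
      have h2 : (r / 4 : ℝ) / (s z + s z₀) = ((r / 4 : ℝ) : ℂ) / (s w + s z₀) := h1
      rw [div_eq_div_iff (hne0 z hz) (hne0 w hw)] at h2
      have hrne : ((r / 4 : ℝ) : ℂ) ≠ 0 := by
        rw [Ne, ofReal_eq_zero]; linarith
      have h3 := mul_left_cancel₀ hrne h2
      apply hsinj hz hw
      linear_combination -h3
    · intro z hz
      rw [mem_ball_zero_iff]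
      calc ‖F1 z - F1 z₀‖ ≤ ‖F1 z‖ + ‖F1 z₀‖ := norm_sub_le _ _
        _ ≤ 1 / 4 + 1 / 4 := add_le_add (hF1b z hz) (hF1b z₀ hz₀)
        _ < 1 := by norm_num
    · intro z hz
      have h1 : HasDerivAt (fun z => F1 z - F1 z₀)
          (-(((r / 4 : ℝ) : ℂ) * deriv s z) / (s z + s z₀) ^ 2) z := by
        have h2 : HasDerivAt (fun z => s z + s z₀) (deriv s z) z :=
          (hda hs z hz).hasDerivAt.add_const _
        have h3 : HasDerivAt (fun z => F1 z - F1 z₀) _ z :=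
          ((hasDerivAt_const z ((r / 4 : ℝ) : ℂ)).div h2 (hne0 z hz)).sub_const (F1 z₀)
        refine h3.congr_deriv ?_
        congr 1
        ring
      rw [h1.deriv]
      apply div_ne_zero
      · rw [neg_ne_zero]
        apply mul_ne_zero _ (hsd z hz)
        rw [Ne, ofReal_eq_zero]; linarith
      · exact pow_ne_zero _ (hne0 z hz)
  -- Step B: maximising sequence
  obtain ⟨ρ, hρ0, hρ⟩ := Metric.isOpen_iff.mp hUo z₀ hz₀
  have hbdd : ∀ F ∈ 𝓕, ‖deriv F z₀‖ ≤ 1 / ρ := by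
    intro F hF
    apply Complex.norm_deriv_le_div_of_mapsTo_ball (hF.1.mono hρ) _ hρ0
    intro z hz
    rw [hF.2.2.2.1]
    exact ball_subset_closedBall (hF.2.2.1 (hρ hz))
  set S : Set ℝ := (fun F => ‖deriv F z₀‖) '' 𝓕 with hS
  have hSne : S.Nonempty := hne.image _
  have hSb : BddAbove S := ⟨1 / ρ, by rintro _ ⟨F, hF, rfl⟩; exact hbdd F hF⟩
  obtain ⟨v, -, hv, hvS⟩ := exists_seq_tendsto_sSup hSne hSb
  set M := sSup S with hM
  have hM0 : 0 < M := by
    obtain ⟨F, hF⟩ := hne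
    exact lt_of_lt_of_le (norm_pos_iff.mpr (hF.2.2.2.2 z₀ hz₀)) (le_csSup hSb ⟨F, hF, rfl⟩)
  choose F hF hFv using hvS
  -- Step C: limit
  set 𝒰 : Ultrafilter ℕ := Filter.hyperfilter ℕ with h𝒰
  have h𝒰le : (𝒰 : Filter ℕ) ≤ atTop := by
    rw [← Nat.cofinite_eq_atTop]; exact Filter.hyperfilter_le_cofinite
  obtain ⟨G, hGd, hGb, hGlim⟩ := exists_holo_limit hUo F 1 zero_le_one (fun i => (hF i).1)
    (fun i ζ hζ => by
      have := (hF i).2.2.1 hζ
      rw [mem_ball_zero_iff] at this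
      exact this.le) 𝒰
  have hderlim := hGlim.deriv (Eventually.of_forall fun i => (hF i).1) hUo
  have hG'0 : ‖deriv G z₀‖ = M := by
    have h1 : Tendsto (fun i => ‖deriv (F i) z₀‖) (𝒰 : Filter ℕ) (𝓝 ‖deriv G z₀‖) :=
      ((hderlim.tendsto_at hz₀).norm)
    have h2 : Tendsto (fun i => ‖deriv (F i) z₀‖) (𝒰 : Filter ℕ) (𝓝 M) := by
      have : (fun i => ‖deriv (F i) z₀‖) = v := funext hFv
      rw [this]
      exact hv.mono_left h𝒰le
    exact tendsto_nhds_unique h1 h2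
  have hG0 : G z₀ = 0 := by
    have h1 := hGlim.tendsto_at hz₀
    have h2 : (fun i => F i z₀) = fun _ => (0 : ℂ) := funext fun i => (hF i).2.2.2.1
    rw [h2] at h1
    exact (tendsto_nhds_unique h1 tendsto_const_nhds)
  have hG'ne : deriv G z₀ ≠ 0 := by
    rw [← norm_pos_iff, hG'0]; exact hM0
  have hGa : AnalyticOnNhd ℂ G U := hGd.analyticOnNhd hUo
  -- G is nowhere locally constant
  have hnc : ∀ z ∈ U, ∀ c : ℂ, ¬ ∀ᶠ w in 𝓝 z, G w = c := by
    intro z hz c hc
    have h1 : EqOn G (fun _ => c) U :=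
      hGa.eqOn_of_preconnected_of_eventuallyEq analyticOnNhd_const hUc hz hc
    apply hG'ne
    have h2 : G =ᶠ[𝓝 z₀] fun _ => c := by
      filter_upwards [hUo.mem_nhds hz₀] with w hw using h1 hw
    rw [h2.deriv_eq]
    simp
  -- injectivity
  have hGinj : InjOn G U := by
    intro z1 hz1 z2 hz2 heq
    by_contra hne12
    have hUo' : IsOpen (U \ {z1}) := hUo.sdiff isClosed_singleton
    have hz2' : z2 ∈ U \ {z1} := ⟨hz2, fun h => hne12 h.symm⟩
    have hconv : TendstoLocallyUniformlyOn (fun n z => F n z - F n z1) (fun z => G z - G z1)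
        (𝒰 : Filter ℕ) (U \ {z1}) := by
      have h1 : TendstoLocallyUniformlyOn F G (𝒰 : Filter ℕ) (U \ {z1}) :=
        hGlim.mono sdiff_subset
      have h2 := hGlim.tendsto_at hz1
      rw [Metric.tendstoLocallyUniformlyOn_iff] at h1 ⊢
      intro ε hε x hx
      obtain ⟨t, ht, h3⟩ := h1 (ε / 2) (by linarith) x hx
      refine ⟨t, ht, ?_⟩
      have h4 : ∀ᶠ n in (𝒰 : Filter ℕ), dist (F n z1) (G z1) < ε / 2 :=
        h2.eventually (ball_mem_nhds _ (by linarith : 0 < ε / 2))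
      filter_upwards [h3, h4] with n hn3 hn4 y hy
      have h5 := hn3 y hy
      calc dist (G y - G z1) (F n y - F n z1) ≤ dist (G y) (F n y) + dist (G z1) (F n z1) :=
            dist_sub_sub_le _ _ _ _
        _ < ε / 2 + ε / 2 := by rw [dist_comm (G z1)]; linarith
        _ = ε := by ring
    have h0 := hurwitz_zero hUo' (fun n => ((hF n).1.mono sdiff_subset).sub_const _)
      (fun n z hz h => hz.2 ((hF n).2.1 hz.1 hz1 (sub_eq_zero.mp h))) hconv hz2'
      (by simp only [heq, sub_self])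
    exact hnc z2 hz2 (G z1) (by filter_upwards [h0] with w hw using sub_eq_zero.mp hw)
  -- derivative nowhere zero
  have hG'n : ∀ z ∈ U, deriv G z ≠ 0 := by
    intro z hz hzero
    have h0 := hurwitz_zero hUo (fun n => (hF n).1.deriv hUo) (fun n z hz => (hF n).2.2.2.2 z hz)
      hderlim hz hzero
    have hda' : AnalyticOnNhd ℂ (deriv G) U := hGa.deriv
    have h1 : EqOn (deriv G) 0 U := hda'.eqOn_zero_of_preconnected_of_eventuallyEq_zero hUc hz h0
    exact hG'ne (h1 hz₀)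
  have hGopen : ∀ V ⊆ U, IsOpen V → IsOpen (G '' V) := by
    intro V hVU hV
    rw [isOpen_iff_mem_nhds]
    rintro _ ⟨z, hz, rfl⟩
    have hst : HasStrictDerivAt G (deriv G z) z := (hGa z (hVU hz)).hasStrictDerivAt
    rw [← hst.map_nhds_eq (hG'n z (hVU hz))]
    exact Filter.image_mem_map (hV.mem_nhds hz)
  have hGlt : MapsTo G U (ball 0 1) := by
    intro z hz
    rw [mem_ball_zero_iff]
    by_contra hge
    push Not at hge
    have h1 : G '' U ∈ 𝓝 (G z) := (hGopen U subset_rfl hUo).mem_nhds ⟨z, hz, rfl⟩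
    have h2 : G '' U ⊆ closedBall 0 1 := by
      rintro _ ⟨w, hw, rfl⟩
      rw [mem_closedBall_zero_iff]; exact hGb w hw
    have h3 : closedBall (0:ℂ) 1 ∈ 𝓝 (G z) := mem_of_superset h1 h2
    have h4 : G z ∈ interior (closedBall (0:ℂ) 1) := mem_interior_iff_mem_nhds.mpr h3
    rw [interior_closedBall _ one_ne_zero, mem_ball_zero_iff] at h4
    linarith
  -- Step D: surjectivity
  have hGsurj : ball (0:ℂ) 1 ⊆ G '' U := by
    intro w0 hw0
    by_contra hnot
    rw [mem_ball_zero_iff] at hw0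
    have hGz : ∀ z ∈ U, ‖G z‖ < 1 := fun z hz => by simpa using hGlt hz
    have hw0ne : w0 ≠ 0 := by
      rintro rfl
      exact hnot ⟨z₀, hz₀, hG0⟩
    set u : ℂ → ℂ := fun z => mob w0 (G z) with hu
    have hud : ∀ z ∈ U, HasDerivAt u
        ((1 - (starRingEnd ℂ) w0 * w0) / (1 - (starRingEnd ℂ) w0 * G z) ^ 2 * deriv G z) z :=
      fun z hz => (mob_hasDerivAt hw0 (hGz z hz)).comp z (hda hGd z hz).hasDerivAt
    have hudO : DifferentiableOn ℂ u U := fun z hz => (hud z hz).differentiableAt.differentiableWithinAt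
    have hune : ∀ z ∈ U, u z ≠ 0 := by
      intro z hz h
      have h1 : G z - w0 = 0 := by
        have h2 : (G z - w0) / (1 - (starRingEnd ℂ) w0 * G z) = 0 := h
        rcases div_eq_zero_iff.mp h2 with h3 | h3
        · exact h3
        · exact absurd h3 (den_ne hw0 (hGz z hz))
      exact hnot ⟨z, hz, sub_eq_zero.mp h1⟩
    obtain ⟨s, hs, hs2⟩ := hsq u hudO hune
    have hult : ∀ z ∈ U, ‖u z‖ < 1 := fun z hz => mob_lt hw0 (hGz z hz)
    have hslt : ∀ z ∈ U, ‖s z‖ < 1 := by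
      intro z hz
      have h1 := hult z hz
      rw [← hs2 z hz, norm_pow] at h1
      by_contra hge
      push Not at hge
      nlinarith [norm_nonneg (s z)]
    set b : ℂ := s z₀ with hb
    have hb1 : ‖b‖ < 1 := hslt z₀ hz₀
    have hb2 : b ^ 2 = - w0 := by
      rw [hb, hs2 z₀ hz₀, hu]
      simp [mob, hG0]
    have hbne : b ≠ 0 := by
      rintro h
      rw [h] at hb2
      apply hw0ne
      linear_combination hb2
    have hsd : ∀ z ∈ U, deriv s z ≠ 0 := by
      intro z hz h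
      have h1 := hsqd hudO hs hs2 z hz
      rw [h, mul_zero, (hud z hz).deriv] at h1
      have h2 : (1 - (starRingEnd ℂ) w0 * w0) / (1 - (starRingEnd ℂ) w0 * G z) ^ 2 * deriv G z ≠ 0 :=
        mul_ne_zero (div_ne_zero (den_ne hw0 hw0) (pow_ne_zero _ (den_ne hw0 (hGz z hz))))
          (hG'n z hz)
      exact h2 h1.symm
    set H : ℂ → ℂ := fun z => mob b (s z) with hH
    have hHd : ∀ z ∈ U, HasDerivAt H
        ((1 - (starRingEnd ℂ) b * b) / (1 - (starRingEnd ℂ) b * s z) ^ 2 * deriv s z) z :=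
      fun z hz => (mob_hasDerivAt hb1 (hslt z hz)).comp z (hda hs z hz).hasDerivAt
    have hH𝓕 : H ∈ 𝓕 := by
      refine ⟨fun z hz => (hHd z hz).differentiableAt.differentiableWithinAt, ?_, ?_, ?_, ?_⟩
      · intro z hz w hw h
        have h1 : s z = s w := mob_inj hb1 (hslt z hz) (hslt w hw) h
        have h2 : u z = u w := by rw [← hs2 z hz, ← hs2 w hw, h1]
        exact hGinj hz hw (mob_inj hw0 (hGz z hz) (hGz w hw) h2)
      · intro z hz
        rw [mem_ball_zero_iff]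
        exact mob_lt hb1 (hslt z hz)
      · simp [hH, mob, hb]
      · intro z hz
        rw [(hHd z hz).deriv]
        exact mul_ne_zero (div_ne_zero (den_ne hb1 hb1) (pow_ne_zero _ (den_ne hb1 (hslt z hz))))
          (hsd z hz)
    have hle : ‖deriv H z₀‖ ≤ M := le_csSup hSb ⟨H, hH𝓕, rfl⟩
    -- compute the derivative
    have hconj : ∀ a : ℂ, (starRingEnd ℂ) a * a = ((‖a‖ ^ 2 : ℝ) : ℂ) := by
      intro a
      rw [mul_comm, mul_conj, normSq_eq_norm_sq]
    have h1 : ‖deriv H z₀‖ * (1 - ‖b‖ ^ 2) = ‖deriv s z₀‖ := by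
      have hpos : 0 < 1 - ‖b‖ ^ 2 := by nlinarith [norm_nonneg b]
      rw [(hHd z₀ hz₀).deriv, norm_mul, norm_div, norm_pow, ← hb, hconj b]
      have h2 : ‖(1 : ℂ) - ((‖b‖ ^ 2 : ℝ) : ℂ)‖ = 1 - ‖b‖ ^ 2 := by
        rw [← ofReal_one, ← ofReal_sub, norm_real, Real.norm_eq_abs, abs_of_pos hpos]
      rw [h2]
      field_simp
    have h2 : 2 * ‖b‖ * ‖deriv s z₀‖ = (1 - ‖w0‖ ^ 2) * M := by
      have h3 := hsqd hudO hs hs2 z₀ hz₀
      rw [(hud z₀ hz₀).deriv, hG0, mul_zero, sub_zero, one_pow, div_one, hconj w0] at h3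
      have hpos : 0 < 1 - ‖w0‖ ^ 2 := by nlinarith [norm_nonneg w0]
      have h4 : ‖(1 : ℂ) - ((‖w0‖ ^ 2 : ℝ) : ℂ)‖ = 1 - ‖w0‖ ^ 2 := by
        rw [← ofReal_one, ← ofReal_sub, norm_real, Real.norm_eq_abs, abs_of_pos hpos]
      have h5 := congrArg norm h3
      rw [norm_mul, norm_mul, norm_mul, h4, hG'0] at h5
      simpa using h5
    have hwb : ‖w0‖ = ‖b‖ ^ 2 := by
      rw [← norm_neg, ← hb2, norm_pow]
    set β : ℝ := ‖b‖ with hβ
    have hβ0 : 0 < β := norm_pos_iff.mpr hbne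
    rw [hwb] at h2
    -- 2 β (1-β²) ‖H'‖ = (1-β⁴) M
    have h6 : 2 * β * (‖deriv H z₀‖ * (1 - β ^ 2)) = (1 - (β ^ 2) ^ 2) * M := by rw [h1, h2]
    have hpos : 0 < 1 - β ^ 2 := by nlinarith
    have h7 : 2 * β * ‖deriv H z₀‖ = (1 + β ^ 2) * M := by
      have h8 : (2 * β * ‖deriv H z₀‖) * (1 - β ^ 2) = ((1 + β ^ 2) * M) * (1 - β ^ 2) := by
        nlinarith [h6]
      exact mul_right_cancel₀ hpos.ne' h8
    have h9 : 2 * β * ‖deriv H z₀‖ ≤ 2 * β * M :=
      mul_le_mul_of_nonneg_left hle (by linarith)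
    nlinarith [mul_pos hM0 (pow_pos (sub_pos.mpr hb1) 2)]
  -- Step E: the inverse
  have hex : ∀ ζ : ℂ, ∃ z ∈ U, ζ ∈ ball (0:ℂ) 1 → G z = ζ := by
    intro ζ
    by_cases hζ : ζ ∈ ball (0:ℂ) 1
    · obtain ⟨z, hz, h⟩ := hGsurj hζ
      exact ⟨z, hz, fun _ => h⟩
    · exact ⟨z₀, hz₀, fun h => absurd h hζ⟩
  choose φ hφU hφG using hex
  refine ⟨φ, G, ?_, hGd, fun ζ hζ => ⟨hφU ζ, hφG ζ hζ⟩, fun z hz => ⟨hGlt hz, ?_⟩, ?_⟩
  · intro ζ hζ
    have hcont : ContinuousAt φ ζ := by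
      rw [ContinuousAt, tendsto_def]
      intro V hV
      obtain ⟨V', hV'V, hV'o, hV'm⟩ := _root_.mem_nhds_iff.mp hV
      have h1 : G '' (V' ∩ U) ∈ 𝓝 ζ :=
        (hGopen _ inter_subset_right (hV'o.inter hUo)).mem_nhds
          ⟨φ ζ, ⟨hV'm, hφU ζ⟩, hφG ζ hζ⟩
      filter_upwards [h1, isOpen_ball.mem_nhds hζ] with ξ hξ hξb
      obtain ⟨z, ⟨hzV, hzU⟩, hzξ⟩ := hξ
      have h2 : φ ξ = z := hGinj (hφU ξ) hzU (by rw [hφG ξ hξb, hzξ])
      rw [mem_preimage, h2]
      exact hV'V hzV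
    have hst : HasStrictDerivAt G (deriv G (φ ζ)) (φ ζ) := (hGa _ (hφU ζ)).hasStrictDerivAt
    have h3 := hst.of_local_left_inverse (g := φ) (a := ζ) hcont (hG'n _ (hφU ζ))
      (by filter_upwards [isOpen_ball.mem_nhds hζ] with ξ hξ using hφG ξ hξ)
    exact h3.hasDerivAt.differentiableAt.differentiableWithinAt
  · exact hGinj (hφU _) hz (hφG _ (hGlt hz))
  · exact hGinj (hφU 0) hz₀ (by rw [hφG 0 (mem_ball_self one_pos), hG0])

end Pool.Agent.BB
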