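import Pool.Agent.BB.Koebe

/-!
# Radial tails (MP_b9540e_an, module Radial)

`radial_tail`: length-area argument. Near a given radius there is a radius whose tail stays in a disc
around an omitted point.
-/

open Set Metric Filter Topology MeasureTheory
open scoped ENNReal

namespace Pool.Agent.BB

/-- change of variables for injective holomorphic maps -/
lemma lintegral_image_holo {s : Set ℂ} (hs : MeasurableSet s) {f : ℂ → ℂ}
    (hf : ∀ z ∈ s, DifferentiableAt ℂ f z) (hi : InjOn f s) (g : ℂ → ℝ≥0∞) :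
    ∫⁻ w in f '' s, g w = ∫⁻ z in s, ENNReal.ofReal (‖deriv f z‖ ^ 2) * g (f z) := by
  have h1 := lintegral_image_eq_lintegral_abs_det_fderiv_mul volume hs
    (f := f) (f' := fun z => (ContinuousLinearMap.toSpanSingleton ℂ (deriv f z)).restrictScalars ℝ)
    (fun z hz => ((hf z hz).hasDerivAt.hasFDerivAt.restrictScalars ℝ).hasFDerivWithinAt) hi g
  rw [h1]
  refine setLIntegral_congr_fun hs fun z hz => ?_
  congr 2
  simp [ContinuousLinearMap.det, LinearMap.det_restrictScalars,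
      Algebra.norm_complex_eq, Complex.normSq_eq_norm_sq]

lemma crossing {u : ℝ → ℝ} {a b A B : ℝ} (hab : a ≤ b) (hu : ContinuousOn u (Icc a b))
    (ha : u a ≤ A) (hb : B ≤ u b) (hAB : A < B) :
    ∃ s t, a ≤ s ∧ s < t ∧ t ≤ b ∧ u s ≤ A ∧ B ≤ u t ∧ ∀ x ∈ Ioo s t, A < u x ∧ u x < B := by
  have hK : IsCompact (Icc a b ∩ u ⁻¹' Ici B) :=
    isCompact_Icc.of_isClosed_subset (hu.preimage_isClosed_of_isClosed isClosed_Icc isClosed_Ici)
      inter_subset_left
  obtain ⟨t, ht, htl⟩ := hK.exists_isLeast ⟨b, ⟨hab, le_rfl⟩, hb⟩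
  have hsub : Icc a t ⊆ Icc a b := Icc_subset_Icc_right ht.1.2
  have hK2 : IsCompact (Icc a t ∩ u ⁻¹' Iic A) :=
    isCompact_Icc.of_isClosed_subset
      ((hu.mono hsub).preimage_isClosed_of_isClosed isClosed_Icc isClosed_Iic) inter_subset_left
  obtain ⟨s, hs, hsl⟩ := hK2.exists_isGreatest ⟨a, ⟨le_rfl, ht.1.1⟩, ha⟩
  have htB : B ≤ u t := ht.2
  have hsA : u s ≤ A := hs.2
  have hst : s < t := by
    rcases hs.1.2.lt_or_eq with h | h
    · exact h
    · subst h; linarith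
  refine ⟨s, t, hs.1.1, hst, ht.1.2, hsA, htB, fun x hx => ⟨?_, ?_⟩⟩
  · by_contra hle
    push Not at hle
    have := hsl (a := x) ⟨⟨hs.1.1.trans hx.1.le, hx.2.le⟩, hle⟩
    linarith [hx.1]
  · by_contra hle
    push Not at hle
    have := htl (a := x) ⟨⟨hs.1.1.trans hx.1.le, hx.2.le.trans ht.1.2⟩, hle⟩
    linarith [hx.2]

lemma ray_bound {h h' : ℝ → ℂ} {a b A B ℓ : ℝ} (hab : a ≤ b) (hA : 0 < A) (hAB : A < B)
    (hd : ∀ x ∈ Icc a b, HasDerivAt h (h' x) x) (hc : ContinuousOn h' (Icc a b))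
    (h0 : ∀ x ∈ Icc a b, h x ≠ 0)
    (ha : ‖h a‖ ≤ A) (hb : B ≤ ‖h b‖) (hℓ : b - a ≤ ℓ) (hℓ0 : 0 < ℓ) :
    ENNReal.ofReal ((Real.log (B / A)) ^ 2 / ℓ) ≤
      ∫⁻ x in Ioo a b, ENNReal.ofReal (‖h' x‖ ^ 2) *
        indicator {w : ℂ | A ≤ ‖w‖ ∧ ‖w‖ ≤ B} (fun w => ENNReal.ofReal (1 / ‖w‖ ^ 2)) (h x) := by
  have hcont : ContinuousOn h (Icc a b) := fun x hx => (hd x hx).continuousAt.continuousWithinAt
  obtain ⟨s, t, has, hst, htb, hus, hut, hx⟩ := crossing hab hcont.norm ha hb hAB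
  have hsub : Icc s t ⊆ Icc a b := Icc_subset_Icc has htb
  set v : ℝ → ℝ := fun x => inner ℝ (h x) (h' x) / ‖h x‖ ^ 2 with hv
  have hvc : ContinuousOn v (Icc s t) := by
    refine ContinuousOn.div ?_ ?_ ?_
    · exact (hcont.mono hsub).inner (hc.mono hsub)
    · exact (hcont.mono hsub).norm.pow 2
    · intro x hx
      have := norm_pos_iff.mpr (h0 x (hsub hx))
      positivity
  have hder : ∀ x ∈ Icc s t, HasDerivAt (fun x => Real.log (‖h x‖ ^ 2) / 2) (v x) x := by
    intro x hx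
    have h1 := (hd x (hsub hx)).norm_sq
    have hne : ‖h x‖ ^ 2 ≠ 0 := by
      have := norm_pos_iff.mpr (h0 x (hsub hx))
      positivity
    have h2 := (h1.log hne).div_const 2
    refine h2.congr_deriv ?_
    rw [hv]
    simp only
    field_simp
  have hvi : IntervalIntegrable v volume s t :=
    (hvc.mono (by rw [uIcc_of_le hst.le])).intervalIntegrable
  have hftc : ∫ x in s..t, v x = Real.log (‖h t‖ ^ 2) / 2 - Real.log (‖h s‖ ^ 2) / 2 :=
    intervalIntegral.integral_eq_sub_of_hasDerivAt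
      (fun x hx => hder x (by rwa [uIcc_of_le hst.le] at hx)) hvi
  set L := Real.log (B / A) with hL
  have hL0 : 0 < L := Real.log_pos (by rw [one_lt_div hA]; exact hAB)
  have hns : 0 < ‖h s‖ := norm_pos_iff.mpr (h0 s (hsub ⟨le_rfl, hst.le⟩))
  have hLle : L ≤ ∫ x in s..t, v x := by
    rw [hftc, Real.log_pow, Real.log_pow, hL, Real.log_div (by linarith) hA.ne']
    have e1 : Real.log B ≤ Real.log ‖h t‖ := Real.log_le_log (by linarith) hut
    have e2 : Real.log ‖h s‖ ≤ Real.log A := Real.log_le_log hns hus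
    push_cast
    linarith
  set lam := L / ℓ with hlam
  have hlam0 : 0 < lam := by positivity
  have hv2i : IntervalIntegrable (fun x => v x ^ 2) volume s t :=
    ((hvc.pow 2).mono (by rw [uIcc_of_le hst.le])).intervalIntegrable
  have hquad : L ^ 2 / ℓ ≤ ∫ x in s..t, v x ^ 2 := by
    have e1 : ∫ x in s..t, (2 * lam * v x - lam ^ 2) ≤ ∫ x in s..t, v x ^ 2 := by
      apply intervalIntegral.integral_mono_on hst.le
        ((hvi.const_mul _).sub intervalIntegrable_const) hv2i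
      intro x _
      nlinarith [sq_nonneg (v x - lam)]
    rw [intervalIntegral.integral_sub (hvi.const_mul _) intervalIntegrable_const,
      intervalIntegral.integral_const_mul, intervalIntegral.integral_const, smul_eq_mul] at e1
    refine le_trans ?_ e1
    have e2 : (t - s) * lam ^ 2 ≤ ℓ * lam ^ 2 := by gcongr; linarith
    have e3 : 2 * lam * L ≤ 2 * lam * ∫ x in s..t, v x := by gcongr
    have e4 : L ^ 2 / ℓ = 2 * lam * L - ℓ * lam ^ 2 := by
      rw [hlam]; field_simp; ring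
    linarith
  calc ENNReal.ofReal (L ^ 2 / ℓ) ≤ ENNReal.ofReal (∫ x in s..t, v x ^ 2) :=
        ENNReal.ofReal_le_ofReal hquad
    _ = ∫⁻ x in Ioc s t, ENNReal.ofReal (v x ^ 2) := by
        rw [intervalIntegral.integral_of_le hst.le]
        apply ofReal_integral_eq_lintegral_ofReal
        · exact (intervalIntegrable_iff_integrableOn_Ioc_of_le hst.le).mp hv2i
        · exact Eventually.of_forall fun x => sq_nonneg _
    _ = ∫⁻ x in Ioo s t, ENNReal.ofReal (v x ^ 2) := by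
        rw [Measure.restrict_congr_set Ioo_ae_eq_Ioc]
    _ ≤ ∫⁻ x in Ioo s t, ENNReal.ofReal (‖h' x‖ ^ 2) *
        indicator {w : ℂ | A ≤ ‖w‖ ∧ ‖w‖ ≤ B} (fun w => ENNReal.ofReal (1 / ‖w‖ ^ 2)) (h x) := by
        refine setLIntegral_mono' measurableSet_Ioo fun x hxm => ?_
        obtain ⟨hx1, hx2⟩ := hx x hxm
        rw [indicator_of_mem (by exact ⟨hx1.le, hx2.le⟩), ← ENNReal.ofReal_mul (by positivity)]
        apply ENNReal.ofReal_le_ofReal
        have hp : 0 < ‖h x‖ := by linarith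
        have e1 : |inner ℝ (h x) (h' x)| ≤ ‖h x‖ * ‖h' x‖ := abs_real_inner_le_norm _ _
        rw [hv]
        simp only
        rw [div_pow, mul_one_div, div_le_div_iff₀ (by positivity) (by positivity)]
        have e2 : (inner ℝ (h x) (h' x)) ^ 2 ≤ (‖h x‖ * ‖h' x‖) ^ 2 := by
          rw [← sq_abs]; gcongr
        calc (inner ℝ (h x) (h' x)) ^ 2 * ‖h x‖ ^ 2 ≤ (‖h x‖ * ‖h' x‖) ^ 2 * ‖h x‖ ^ 2 := by gcongr
          _ = ‖h' x‖ ^ 2 * (‖h x‖ ^ 2) ^ 2 := by ring
    _ ≤ _ := lintegral_mono_set (Ioo_subset_Ioo has htb)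

lemma lintegral_rect {a b c d : ℝ} {G : ℂ → ℝ≥0∞}
    (hG : AEMeasurable G (volume.restrict (Ioo a b ×ℂ Ioo c d))) :
    ∫⁻ ξ in (Ioo a b ×ℂ Ioo c d), G ξ =
      ∫⁻ y in Ioo c d, ∫⁻ x in Ioo a b, G (x + y * Complex.I) := by
  have hmp := Complex.volume_preserving_equiv_real_prod.symm
  have hme : MeasurableEmbedding Complex.measurableEquivRealProd.symm :=
    Complex.measurableEquivRealProd.symm.measurableEmbedding
  have hpre : Complex.measurableEquivRealProd.symm ⁻¹' (Ioo a b ×ℂ Ioo c d) =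
      Ioo a b ×ˢ Ioo c d := by
    ext ⟨x, y⟩
    simp [Complex.mem_reProdIm, Complex.measurableEquivRealProd]
  have h1 := hmp.setLIntegral_comp_preimage_emb hme G (Ioo a b ×ℂ Ioo c d)
  rw [← h1, hpre, Measure.volume_eq_prod, ← Measure.prod_restrict]
  have h2 : AEMeasurable (fun q : ℝ × ℝ => G (Complex.measurableEquivRealProd.symm q))
      ((volume.restrict (Ioo a b)).prod (volume.restrict (Ioo c d))) := by
    rw [Measure.prod_restrict, ← Measure.volume_eq_prod, ← hpre]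
    exact hG.comp_quasiMeasurePreserving (hmp.restrict_preimage_emb hme _).quasiMeasurePreserving
  rw [lintegral_prod_symm _ h2]
  congr 1
  ext y
  congr 1
  ext x
  congr 1
  apply Complex.ext <;> simp [Complex.measurableEquivRealProd]

lemma lintegral_ring (p : ℂ) {A B : ℝ} (hA : 0 < A) (hAB : A < B) :
    ∫⁻ w, indicator {w : ℂ | A ≤ ‖w‖ ∧ ‖w‖ ≤ B} (fun w => ENNReal.ofReal (1 / ‖w‖ ^ 2)) (w - p) ≤
      ENNReal.ofReal (2 * Real.pi * Real.log (B / A)) := by
  set R : Set ℂ := Icc (Real.log A) (Real.log B) ×ℂ Ioc (-Real.pi) Real.pi with hR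
  have hRm : MeasurableSet R := by
    rw [hR, Complex.reProdIm]
    exact (measurableSet_Icc.preimage Complex.measurable_re).inter
      (measurableSet_Ioc.preimage Complex.measurable_im)
  have hB : 0 < B := hA.trans hAB
  set f : ℂ → ℂ := fun ξ => p + Complex.exp ξ with hf
  have hfd : ∀ ξ, HasDerivAt f (Complex.exp ξ) ξ := fun ξ => (Complex.hasDerivAt_exp ξ).const_add p
  have hfi : InjOn f R := by
    intro x hx y hy e
    have e1 : Complex.exp x = Complex.exp y := by
      have : p + Complex.exp x = p + Complex.exp y := e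
      exact add_left_cancel this
    have hx2 := hx.2
    have hy2 := hy.2
    rw [← Complex.log_exp hx2.1 hx2.2, ← Complex.log_exp hy2.1 hy2.2, e1]
  have hsub : {w : ℂ | A ≤ ‖w - p‖ ∧ ‖w - p‖ ≤ B} ⊆ f '' R := by
    rintro w ⟨h1, h2⟩
    have hne : w - p ≠ 0 := norm_pos_iff.mp (by linarith)
    refine ⟨Complex.log (w - p), ?_, ?_⟩
    · rw [hR, Complex.mem_reProdIm, Complex.log_re, Complex.log_im]
      exact ⟨⟨Real.log_le_log hA h1, Real.log_le_log (by linarith) h2⟩,
        Complex.arg_mem_Ioc _⟩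
    · simp [hf, Complex.exp_log hne]
  calc ∫⁻ w, indicator {w : ℂ | A ≤ ‖w‖ ∧ ‖w‖ ≤ B} (fun w => ENNReal.ofReal (1 / ‖w‖ ^ 2)) (w - p)
      ≤ ∫⁻ w, indicator (f '' R) (fun w => ENNReal.ofReal (1 / ‖w - p‖ ^ 2)) w := by
        refine lintegral_mono fun w => ?_
        by_cases hw : A ≤ ‖w - p‖ ∧ ‖w - p‖ ≤ B
        · rw [indicator_of_mem (by exact hw), indicator_of_mem (hsub hw)]
        · rw [indicator_of_notMem (by exact hw)]
          exact zero_le
    _ = ∫⁻ w in f '' R, ENNReal.ofReal (1 / ‖w - p‖ ^ 2) := by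
        rw [lintegral_indicator]
        exact measurable_image_of_fderivWithin hRm
          (fun x hx => ((hfd x).hasFDerivAt.restrictScalars ℝ).hasFDerivWithinAt) hfi
    _ = ∫⁻ z in R, ENNReal.ofReal (‖deriv f z‖ ^ 2) * ENNReal.ofReal (1 / ‖f z - p‖ ^ 2) :=
        lintegral_image_holo hRm (fun z _ => (hfd z).differentiableAt) hfi _
    _ = ∫⁻ z in R, 1 := by
        refine setLIntegral_congr_fun hRm fun z _ => ?_
        rw [(hfd z).deriv, ← ENNReal.ofReal_mul (by positivity)]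
        have : f z - p = Complex.exp z := by simp [hf]
        rw [this]
        have hne : ‖Complex.exp z‖ ≠ 0 := norm_ne_zero_iff.mpr (Complex.exp_ne_zero z)
        rw [mul_one_div, div_self (by positivity)]
        simp
    _ = volume R := by simp
    _ = ENNReal.ofReal (Real.log B - Real.log A) * ENNReal.ofReal (2 * Real.pi) := by
        have hmp := Complex.volume_preserving_equiv_real_prod
        have hpre : R = Complex.measurableEquivRealProd ⁻¹'
            (Icc (Real.log A) (Real.log B) ×ˢ Ioc (-Real.pi) Real.pi) := by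
          ext z
          simp [hR, Complex.mem_reProdIm, Complex.measurableEquivRealProd_apply]
        rw [hpre, hmp.measure_preimage_emb
          Complex.measurableEquivRealProd.measurableEmbedding, Measure.volume_eq_prod,
          Measure.prod_prod, Real.volume_Icc, Real.volume_Ioc]
        congr 2
        ring
    _ = ENNReal.ofReal (2 * Real.pi * Real.log (B / A)) := by
        rw [← ENNReal.ofReal_mul' (by positivity), Real.log_div hB.ne' hA.ne', mul_comm]

theorem radial_tail : ∃ M : ℝ, 2 ≤ M ∧ ∀ (φ : ℂ → ℂ) (p : ℂ) (r₀ : ℝ) (c₀ : ℂ),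
    DifferentiableOn ℂ φ (ball 0 1) → InjOn φ (ball 0 1) → p ∉ φ '' ball 0 1 →
    1 / 2 ≤ r₀ → r₀ < 1 → ‖c₀‖ = 1 →
    ∃ c : ℂ, ‖c‖ = 1 ∧ ‖φ (r₀ * c) - φ (r₀ * c₀)‖ < ‖φ (r₀ * c₀) - p‖ / 2 ∧
      ∀ r : ℝ, r₀ ≤ r → r < 1 → ‖φ (r * c) - p‖ < M * ‖φ (r₀ * c₀) - p‖ := by
  obtain ⟨C, hC1, hC⟩ := koebe_dist (θ := 1 / 2) (by norm_num) (by norm_num)
  have hC0 : 0 < C := by linarith
  set δ₀ : ℝ := 1 / (64 * C) with hδ₀
  have hδ₀p : 0 < δ₀ := by positivity
  have hδ₀l : δ₀ ≤ 1 / 64 := by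
    rw [hδ₀]; apply one_div_le_one_div_of_le <;> linarith
  set L : ℝ := 2 * Real.pi / δ₀ + 1 with hL
  have hL1 : 1 < L := by
    have : 0 < 2 * Real.pi / δ₀ := by positivity
    linarith
  set M : ℝ := 2 * Real.exp L with hM
  have hexpL : 1 < Real.exp L := Real.one_lt_exp_iff.mpr (by linarith)
  refine ⟨M, by rw [hM]; linarith, ?_⟩
  intro φ p r₀ c₀ hd hi hp hr0 hr1 hc₀
  by_contra hcon
  push Not at hcon
  have hr0p : 0 < r₀ := by linarith
  have hc₀ne : c₀ ≠ 0 := by rw [← norm_pos_iff, hc₀]; exact one_pos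
  set d := ‖φ (r₀ * c₀) - p‖ with hddef
  have hz₀ : (r₀ : ℂ) * c₀ ∈ ball (0:ℂ) 1 := by
    rw [mem_ball_zero_iff, norm_mul, hc₀, Complex.norm_real, Real.norm_of_nonneg hr0p.le]
    linarith
  have hd0 : 0 < d := by
    rw [hddef, norm_pos_iff, sub_ne_zero]
    exact fun e => hp ⟨_, hz₀, e⟩
  have h1r : 0 < 1 - r₀ := by linarith
  set δ := δ₀ * (1 - r₀) with hδ
  have hδp : 0 < δ := by positivity
  have hδl : δ < 1 / 64 := by
    rw [hδ]; nlinarith
  -- the derivative at the base point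
  have hder0 : (1 - r₀) * ‖deriv φ (r₀ * c₀)‖ ≤ 16 * d := by
    have := koebe_omit hd hi hz₀ hp
    rwa [sub_zero, norm_mul, hc₀, Complex.norm_real, Real.norm_of_nonneg hr0p.le, mul_one] at this
  have hsubb : ball ((r₀ : ℂ) * c₀) (1 - r₀) ⊆ ball 0 1 := by
    intro w hw
    rw [mem_ball] at hw
    rw [mem_ball_zero_iff] at hz₀ ⊢
    have e1 : ‖w‖ ≤ dist w ((r₀ : ℂ) * c₀) + ‖(r₀ : ℂ) * c₀‖ := by
      rw [dist_eq_norm]
      calc ‖w‖ = ‖(w - r₀ * c₀) + r₀ * c₀‖ := by congr 1; ring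
        _ ≤ _ := norm_add_le _ _
    have e2 : ‖(r₀ : ℂ) * c₀‖ = r₀ := by
      rw [norm_mul, hc₀, Complex.norm_real, Real.norm_of_nonneg hr0p.le, mul_one]
    linarith
  -- near the base point
  have hnear : ∀ y ∈ Ioo (-δ) δ, ‖φ (r₀ * (c₀ * Complex.exp (y * Complex.I))) - φ (r₀ * c₀)‖
      ≤ d / 4 := by
    intro y hy
    have hyabs : |y| < δ := abs_lt.mpr hy
    have e1 : ‖(r₀ : ℂ) * (c₀ * Complex.exp (y * Complex.I)) - r₀ * c₀‖ ≤ δ := by
      have e2 : (r₀ : ℂ) * (c₀ * Complex.exp (y * Complex.I)) - r₀ * c₀ =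
          (r₀ * c₀) * (Complex.exp (Complex.I * y) - 1) := by
        rw [mul_comm (y : ℂ)]; ring
      have e3 : ‖(r₀ : ℂ) * c₀‖ = r₀ := by
        rw [norm_mul, hc₀, Complex.norm_real, Real.norm_of_nonneg hr0p.le, mul_one]
      have e4 : ‖Complex.exp (Complex.I * y) - 1‖ ≤ |y| := by
        simpa using Real.norm_exp_I_mul_ofReal_sub_one_le (x := y)
      rw [e2, norm_mul, e3]
      calc r₀ * ‖Complex.exp (Complex.I * y) - 1‖ ≤ 1 * δ := by
            gcongr
            exact e4.trans hyabs.le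
        _ = δ := one_mul _
    have hmem : (r₀ : ℂ) * (c₀ * Complex.exp (y * Complex.I)) ∈
        closedBall ((r₀ : ℂ) * c₀) (1 / 2 * (1 - r₀)) := by
      rw [mem_closedBall, dist_eq_norm]
      refine e1.trans ?_
      rw [hδ]; nlinarith
    have e5 := (hC φ _ _ h1r (hd.mono hsubb) (hi.mono hsubb)).2 _ hmem _
      (mem_closedBall_self (by linarith))
    refine e5.1.trans ?_
    have e6 : ‖deriv φ (r₀ * c₀)‖ ≤ 16 * d / (1 - r₀) := by
      rw [le_div_iff₀ h1r]; linarith
    calc C * ‖deriv φ (r₀ * c₀)‖ * ‖(r₀ : ℂ) * (c₀ * Complex.exp (y * Complex.I)) - r₀ * c₀‖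
        ≤ C * (16 * d / (1 - r₀)) * δ := by gcongr
      _ = d / 4 := by rw [hδ, hδ₀]; field_simp; norm_num
  -- exponential coordinates
  set x₀ := Real.log r₀ with hx₀
  have hx₀n : x₀ < 0 := Real.log_neg hr0p hr1
  set h : ℂ → ℂ := fun ξ => φ (c₀ * Complex.exp ξ) with hh
  have hmem : ∀ ξ : ℂ, ξ.re < 0 → c₀ * Complex.exp ξ ∈ ball (0:ℂ) 1 := by
    intro ξ hξ
    rw [mem_ball_zero_iff, norm_mul, hc₀, one_mul, Complex.norm_exp]
    rw [← Real.exp_zero]
    exact Real.exp_lt_exp.mpr hξ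
  have hhd : ∀ ξ : ℂ, ξ.re < 0 →
      HasDerivAt h (deriv φ (c₀ * Complex.exp ξ) * (c₀ * Complex.exp ξ)) ξ := by
    intro ξ hξ
    have e1 := (hd.differentiableAt (isOpen_ball.mem_nhds (hmem ξ hξ))).hasDerivAt
    exact e1.comp ξ ((Complex.hasDerivAt_exp ξ).const_mul c₀)
  have hopen : IsOpen {ξ : ℂ | ξ.re < 0} := isOpen_lt Complex.continuous_re continuous_const
  have hhon : DifferentiableOn ℂ h {ξ : ℂ | ξ.re < 0} := fun ξ hξ =>
    (hhd ξ hξ).differentiableAt.differentiableWithinAt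
  have hh'c : ContinuousOn (deriv h) {ξ : ℂ | ξ.re < 0} := (hhon.deriv hopen).continuousOn
  set R : Set ℂ := Ioo x₀ 0 ×ℂ Ioo (-δ) δ with hR
  have hRm : MeasurableSet R := by
    rw [hR, Complex.reProdIm]
    exact (measurableSet_Ioo.preimage Complex.measurable_re).inter
      (measurableSet_Ioo.preimage Complex.measurable_im)
  have hRneg : R ⊆ {ξ : ℂ | ξ.re < 0} := fun ξ hξ => hξ.1.2
  have hinj : InjOn h R := by
    intro x hx y hy e
    have e1 : c₀ * Complex.exp x = c₀ * Complex.exp y :=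
      hi (hmem x (hRneg hx)) (hmem y (hRneg hy)) e
    have e2 : Complex.exp x = Complex.exp y := mul_left_cancel₀ hc₀ne e1
    have hx2 := hx.2
    have hy2 := hy.2
    have hpi := Real.pi_gt_three
    rw [← Complex.log_exp (x := x) (by linarith [hx2.1]) (by linarith [hx2.2]),
      ← Complex.log_exp (x := y) (by linarith [hy2.1]) (by linarith [hy2.2]), e2]
  set g : ℂ → ℝ≥0∞ := indicator {w : ℂ | 2 * d ≤ ‖w‖ ∧ ‖w‖ ≤ M * d}
    (fun w => ENNReal.ofReal (1 / ‖w‖ ^ 2)) with hg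
  have hAB : 2 * d < M * d := by
    apply mul_lt_mul_of_pos_right _ hd0
    rw [hM]; linarith
  have hBA : M * d / (2 * d) = Real.exp L := by rw [hM]; field_simp
  have hupper : ∫⁻ ξ in R, ENNReal.ofReal (‖deriv h ξ‖ ^ 2) * g (h ξ - p) ≤
      ENNReal.ofReal (2 * Real.pi * L) := by
    rw [← lintegral_image_holo hRm (fun ξ hξ => (hhd ξ (hRneg hξ)).differentiableAt) hinj
      (fun w => g (w - p))]
    refine (setLIntegral_le_lintegral _ _).trans ?_
    have := lintegral_ring p (A := 2 * d) (B := M * d) (by positivity) hAB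
    rwa [hBA, Real.log_exp] at this
  have hgm : Measurable g := by
    rw [hg]
    apply Measurable.indicator
    · fun_prop
    · exact (measurableSet_le measurable_const measurable_norm).inter
        (measurableSet_le measurable_norm measurable_const)
  have hG : AEMeasurable (fun ξ => ENNReal.ofReal (‖deriv h ξ‖ ^ 2) * g (h ξ - p))
      (volume.restrict R) := by
    apply AEMeasurable.mul
    · exact (((measurable_deriv h).norm.pow_const 2).ennreal_ofReal).aemeasurable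
    · apply hgm.comp_aemeasurable
      exact ((hhon.continuousOn.mono hRneg).aemeasurable hRm).sub_const p
  have hlower : ∀ y ∈ Ioo (-δ) δ, ENNReal.ofReal (L ^ 2 / (-x₀)) ≤
      ∫⁻ x in Ioo x₀ 0, ENNReal.ofReal (‖deriv h (x + y * Complex.I)‖ ^ 2) *
        g (h (x + y * Complex.I) - p) := by
    intro y hy
    have hcn : ‖c₀ * Complex.exp (y * Complex.I)‖ = 1 := by
      rw [norm_mul, hc₀, Complex.norm_exp_ofReal_mul_I, one_mul]
    have hn := hnear y hy
    obtain ⟨r, hr, hr', hrM⟩ := hcon (c₀ * Complex.exp (y * Complex.I)) hcn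
      (lt_of_le_of_lt hn (by linarith))
    have hrp : 0 < r := by linarith
    set x₁ := Real.log r with hx₁
    have hx₁n : x₁ < 0 := Real.log_neg hrp hr'
    have hx01 : x₀ ≤ x₁ := Real.log_le_log hr0p hr
    have hexp : ∀ ρ : ℝ, 0 < ρ → h ((Real.log ρ : ℝ) + y * Complex.I) =
        φ (ρ * (c₀ * Complex.exp (y * Complex.I))) := by
      intro ρ hρ
      rw [hh]
      simp only
      rw [Complex.exp_add, ← Complex.ofReal_exp, Real.exp_log hρ]
      congr 1
      ring
    have hre : ∀ x : ℝ, x ≤ x₁ → ((x : ℂ) + y * Complex.I).re < 0 := by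
      intro x hx
      simp
      linarith
    have hline : ∀ x : ℝ, HasDerivAt (fun x : ℝ => (x : ℂ) + y * Complex.I) 1 x := by
      intro x
      simpa using (Complex.ofRealCLM.hasDerivAt (x := x)).add_const ((y : ℂ) * Complex.I)
    have hray := ray_bound (h := fun x : ℝ => h (x + y * Complex.I) - p)
      (h' := fun x : ℝ => deriv h (x + y * Complex.I)) (a := x₀) (b := x₁) (A := 2 * d)
      (B := M * d) (ℓ := -x₀) hx01 (by positivity) hAB
      (by
        intro x hx
        have e1 := (hhd _ (hre x hx.2)).differentiableAt.hasDerivAt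
        have e2 := (e1.comp_of_eq (h := fun x : ℝ => (x : ℂ) + y * Complex.I) x
          (hline x) rfl).sub_const p
        simpa using e2)
      (by
        refine hh'c.comp (f := fun x : ℝ => (x : ℂ) + y * Complex.I) ?_ ?_
        · exact (by fun_prop : Continuous fun x : ℝ => (x : ℂ) + y * Complex.I).continuousOn
        · intro x hx
          exact hre x hx.2)
      (by
        intro x hx
        rw [sub_ne_zero]
        exact fun e => hp ⟨_, hmem _ (hre x hx.2), e⟩)
      (by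
        rw [hx₀, hexp r₀ hr0p]
        have e1 : ‖φ (r₀ * (c₀ * Complex.exp (y * Complex.I))) - p‖ ≤
            ‖φ (r₀ * (c₀ * Complex.exp (y * Complex.I))) - φ (r₀ * c₀)‖ + ‖φ (r₀ * c₀) - p‖ := by
          calc ‖φ (r₀ * (c₀ * Complex.exp (y * Complex.I))) - p‖ =
            ‖(φ (r₀ * (c₀ * Complex.exp (y * Complex.I))) - φ (r₀ * c₀)) +
              (φ (r₀ * c₀) - p)‖ := by congr 1; ring
            _ ≤ _ := norm_add_le _ _
        linarith)
      (by
        rw [hx₁, hexp r hrp]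
        exact hrM)
      (by linarith) (by linarith)
    rw [hBA, Real.log_exp] at hray
    refine hray.trans ?_
    exact lintegral_mono_set (Ioo_subset_Ioo_right hx₁n.le)
  rw [hR, lintegral_rect hG] at hupper
  have hfinal : ENNReal.ofReal (L ^ 2 / (-x₀)) * ENNReal.ofReal (2 * δ) ≤
      ENNReal.ofReal (2 * Real.pi * L) := by
    calc ENNReal.ofReal (L ^ 2 / (-x₀)) * ENNReal.ofReal (2 * δ)
        = ∫⁻ y in Ioo (-δ) δ, ENNReal.ofReal (L ^ 2 / (-x₀)) := by
          rw [setLIntegral_const, Real.volume_Ioo]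
          congr 2
          ring
      _ ≤ ∫⁻ y in Ioo (-δ) δ, ∫⁻ x in Ioo x₀ 0,
            ENNReal.ofReal (‖deriv h (x + y * Complex.I)‖ ^ 2) *
              g (h (x + y * Complex.I) - p) :=
          setLIntegral_mono' measurableSet_Ioo hlower
      _ ≤ _ := hupper
  have hx₀p : 0 < -x₀ := by linarith
  rw [← ENNReal.ofReal_mul (by positivity), ENNReal.ofReal_le_ofReal_iff (by positivity)]
    at hfinal
  have e1 : L * δ ≤ Real.pi * (-x₀) := by
    have e2 : L ^ 2 / (-x₀) * (2 * δ) * (-x₀) ≤ 2 * Real.pi * L * (-x₀) := by gcongr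
    have e3 : L ^ 2 / (-x₀) * (2 * δ) * (-x₀) = 2 * L * (L * δ) := by
      have hne : -x₀ ≠ 0 := hx₀p.ne'
      rw [div_mul_eq_mul_div, div_mul_cancel₀ _ hne]
      ring
    rw [e3] at e2
    have e4 : 2 * L * (L * δ) ≤ 2 * L * (Real.pi * (-x₀)) := by linarith
    exact le_of_mul_le_mul_left e4 (by linarith)
  have e5 : -x₀ ≤ 2 * (1 - r₀) := by
    have e6 := Real.one_sub_inv_le_log_of_pos hr0p
    have e7 : r₀⁻¹ - 1 ≤ 2 * (1 - r₀) := by
      rw [inv_eq_one_div, sub_le_iff_le_add, div_le_iff₀ hr0p]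
      nlinarith
    linarith
  have e8 : L * δ₀ * (1 - r₀) ≤ 2 * Real.pi * (1 - r₀) := by
    calc L * δ₀ * (1 - r₀) = L * δ := by rw [hδ]; ring
      _ ≤ Real.pi * (-x₀) := e1
      _ ≤ Real.pi * (2 * (1 - r₀)) := by gcongr
      _ = _ := by ring
  have e9 : L * δ₀ ≤ 2 * Real.pi := le_of_mul_le_mul_right e8 h1r
  have e10 : L * δ₀ = 2 * Real.pi + δ₀ := by rw [hL]; field_simp
  linarith

end Pool.Agent.BB
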