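import Pool.Agent.BB.Defs

/-!
# Runge approximation on polynomially (entirely) convex open sets, and square roots

The Cauchy-Pompeiu formula (polar coordinates), uniform approximation by entire functions, and
`sqrt_of_hull`.
-/

open Set Metric Filter Topology MeasureTheory

namespace Pool.Agent.BB

namespace Runge

open Complex Real

/-- The direction `e^{iθ}`. -/
noncomputable def ee (θ : ℝ) : ℂ := Real.cos θ + Real.sin θ * I

theorem ee_ne (θ : ℝ) : ee θ ≠ 0 := by
  intro h
  have h1 := congrArg Complex.re h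
  have h2 := congrArg Complex.im h
  simp [ee, -ofReal_cos, -ofReal_sin] at h1 h2
  have := Real.sin_sq_add_cos_sq θ
  rw [h1, h2] at this
  norm_num at this

theorem continuous_ee : Continuous ee := by
  unfold ee
  fun_prop

theorem hasDerivAt_ee (θ : ℝ) : HasDerivAt ee (I * ee θ) θ := by
  unfold ee
  have h1 : HasDerivAt (fun θ : ℝ => ((Real.cos θ : ℝ) : ℂ)) ((-Real.sin θ : ℝ) : ℂ) θ :=
    (Real.hasDerivAt_cos θ).ofReal_comp
  have h2 : HasDerivAt (fun θ : ℝ => ((Real.sin θ : ℝ) : ℂ)) ((Real.cos θ : ℝ) : ℂ) θ :=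
    (Real.hasDerivAt_sin θ).ofReal_comp
  refine (h1.add (h2.mul_const I)).congr_deriv ?_
  push_cast
  linear_combination (-Complex.sin θ : ℂ) * I_sq

theorem norm_ee (θ : ℝ) : ‖ee θ‖ = 1 := by
  have : ‖ee θ‖ ^ 2 = 1 := by
    rw [← normSq_eq_norm_sq, normSq_apply]
    simp [ee, -ofReal_cos, -ofReal_sin]
    have := Real.sin_sq_add_cos_sq θ
    nlinarith
  nlinarith [norm_nonneg (ee θ)]

/-- the algebraic identity behind the polar form of `∂̄` -/
theorem dbar_polar (T : ℂ →L[ℝ] ℂ) (θ : ℝ) :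
    (T 1 + I * T I) / ee θ = T (ee θ) + I * T (I * ee θ) := by
  have h1 : ee θ = (Real.cos θ : ℝ) • (1 : ℂ) + (Real.sin θ : ℝ) • I := by
    simp [ee]
  have h2 : I * ee θ = (-Real.sin θ : ℝ) • (1 : ℂ) + (Real.cos θ : ℝ) • I := by
    simp [ee]
    ring_nf
    rw [I_sq]
    ring
  have h3 : T (ee θ) = (Real.cos θ : ℂ) * T 1 + (Real.sin θ : ℂ) * T I := by
    conv_lhs => rw [h1]
    rw [map_add, map_smul, map_smul]
    simp
  have h4 : T (I * ee θ) = -(Real.sin θ : ℂ) * T 1 + (Real.cos θ : ℂ) * T I := by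
    conv_lhs => rw [h2]
    rw [map_add, map_smul, map_smul]
    simp
  rw [h3, h4, div_eq_iff (ee_ne θ)]
  unfold ee
  have hI : I ^ 2 = -1 := I_sq
  have hs : (Real.sin θ : ℂ) ^ 2 + (Real.cos θ : ℂ) ^ 2 = 1 := by
    exact_mod_cast Real.sin_sq_add_cos_sq θ
  linear_combination (-(T 1) - I * T I) * hs + ((Real.sin θ : ℂ) ^ 2 * T 1 + (Real.cos θ : ℂ) * (Real.sin θ : ℂ) * T I * (-1) + (Real.sin θ : ℂ) ^ 2 * I * T I * 0) * hI

section Pompeiu

variable {g : ℂ → ℂ} (hg : ContDiff ℝ 1 g) (hc : HasCompactSupport g) (z : ℂ)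

/-- far away the function and its derivative vanish -/
theorem exists_radius (hc : HasCompactSupport g) (z : ℂ) :
    ∃ R : ℝ, 0 < R ∧ ∀ r θ : ℝ, R ≤ r → z + r * ee θ ∉ tsupport g := by
  obtain ⟨R, hR0, hR⟩ := hc.isCompact.isBounded.subset_ball_lt 0 z
  refine ⟨R, hR0, fun r θ hr h => ?_⟩
  have := hR h
  rw [mem_ball, dist_eq_norm] at this
  simp only [add_sub_cancel_left, norm_mul, norm_ee, mul_one, Complex.norm_real,
    Real.norm_eq_abs] at this
  linarith [le_abs_self r]

theorem fderiv_zero_off {w : ℂ} (hw : w ∉ tsupport g) : fderiv ℝ g w = 0 := by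
  by_contra h
  exact hw (support_fderiv_subset ℝ (by simpa using h))

include hg

theorem continuous_F (a : ℂ) :
    Continuous fun p : ℝ × ℝ => fderiv ℝ g (z + p.1 * ee p.2) (a * ee p.2) := by
  have h1 : Continuous fun p : ℝ × ℝ => fderiv ℝ g (z + p.1 * ee p.2) :=
    (hg.continuous_fderiv one_ne_zero).comp (continuous_const.add
      ((continuous_ofReal.comp continuous_fst).mul (continuous_ee.comp continuous_snd)))
  exact h1.clm_apply (continuous_const.mul (continuous_ee.comp continuous_snd))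

include hc

theorem integrableOn_F (a : ℂ) :
    IntegrableOn (fun p : ℝ × ℝ => fderiv ℝ g (z + p.1 * ee p.2) (a * ee p.2))
      (Ioi 0 ×ˢ Ioo (-π) π) := by
  obtain ⟨R, hR0, hR⟩ := exists_radius hc z
  have h : IntegrableOn (fun p : ℝ × ℝ => fderiv ℝ g (z + p.1 * ee p.2) (a * ee p.2))
      (Icc 0 R ×ˢ Icc (-π) π) :=
    (continuous_F hg z a).continuousOn.integrableOn_compact (isCompact_Icc.prod isCompact_Icc)
  refine h.of_forall_sdiff_eq_zero (measurableSet_Ioi.prod measurableSet_Ioo) ?_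
  rintro ⟨r, θ⟩ ⟨⟨h1, h2⟩, h3⟩
  have : R ≤ r := by
    by_contra hr
    exact h3 ⟨⟨le_of_lt h1, le_of_lt (not_le.1 hr)⟩, ⟨h2.1.le, h2.2.le⟩⟩
  simp only [fderiv_zero_off (hR r θ this), zero_apply]

theorem inner_r (θ : ℝ) :
    ∫ r in Ioi (0:ℝ), fderiv ℝ g (z + r * ee θ) (ee θ) = - g z := by
  obtain ⟨R, hR0, hR⟩ := exists_radius hc z
  have hd : ∀ r : ℝ, HasDerivAt (fun r : ℝ => g (z + r * ee θ))
      (fderiv ℝ g (z + r * ee θ) (ee θ)) r := by
    intro r
    have h1 : HasDerivAt (fun r : ℝ => z + (r:ℂ) * ee θ) (ee θ) r := by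
      have := ((hasDerivAt_id r).ofReal_comp.mul_const (ee θ)).const_add z
      simpa using this
    exact ((hg.differentiable one_ne_zero).differentiableAt.hasFDerivAt).comp_hasDerivAt r h1
  have hcont : Continuous fun r : ℝ => fderiv ℝ g (z + r * ee θ) (ee θ) := by
    have := (continuous_F hg z 1).comp (Continuous.prodMk continuous_id
      (continuous_const (y := θ)))
    simpa [Function.comp_def] using this
  have hint : IntegrableOn (fun r : ℝ => fderiv ℝ g (z + r * ee θ) (ee θ)) (Ioi 0) := by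
    refine (hcont.continuousOn.integrableOn_compact
      (isCompact_Icc (a := (0:ℝ)) (b := R))).of_forall_sdiff_eq_zero measurableSet_Ioi ?_
    rintro r ⟨h1, h2⟩
    have : R ≤ r := by
      by_contra hr
      exact h2 ⟨le_of_lt h1, le_of_lt (not_le.1 hr)⟩
    simp only [fderiv_zero_off (hR r θ this), zero_apply]
  have hlim : Tendsto (fun r : ℝ => g (z + r * ee θ)) atTop (𝓝 0) := by
    refine tendsto_const_nhds.congr' ?_
    filter_upwards [eventually_ge_atTop R] with r hr
    exact (image_eq_zero_of_notMem_tsupport (hR r θ hr)).symm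
  have := integral_Ioi_of_hasDerivAt_of_tendsto (hd 0).continuousAt.continuousWithinAt
    (fun r _ => hd r) hint hlim
  rw [this]
  simp

omit hc in
theorem inner_θ {r : ℝ} (hr : 0 < r) :
    ∫ θ in Ioo (-π) π, fderiv ℝ g (z + r * ee θ) (I * ee θ) = 0 := by
  have hd : ∀ θ : ℝ, HasDerivAt (fun θ : ℝ => g (z + r * ee θ))
      (r * fderiv ℝ g (z + r * ee θ) (I * ee θ)) θ := by
    intro θ
    have h1 : HasDerivAt (fun θ : ℝ => z + (r:ℂ) * ee θ) (r * (I * ee θ)) θ :=
      ((hasDerivAt_ee θ).const_mul (r:ℂ)).const_add z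
    have := ((hg.differentiable one_ne_zero).differentiableAt.hasFDerivAt
      (x := z + r * ee θ)).comp_hasDerivAt θ h1
    refine this.congr_deriv ?_
    have : (r:ℂ) * (I * ee θ) = r • (I * ee θ) := by simp
    rw [this, map_smul]
    simp
  have hcont : Continuous fun θ : ℝ => (r : ℂ) * fderiv ℝ g (z + r * ee θ) (I * ee θ) := by
    have := (continuous_F hg z I).comp (Continuous.prodMk (continuous_const (y := r))
      continuous_id)
    exact continuous_const.mul this
  have hpi : -π ≤ π := by linarith [Real.pi_pos]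
  have h := intervalIntegral.integral_eq_sub_of_hasDerivAt (a := -π) (b := π)
    (fun θ _ => hd θ) (hcont.intervalIntegrable _ _)
  have he : ee π = ee (-π) := by simp [ee, -ofReal_cos, -ofReal_sin]
  rw [he, sub_self, intervalIntegral.integral_const_mul, mul_eq_zero] at h
  rcases h with h | h
  · exact absurd h (by exact_mod_cast hr.ne')
  · rwa [intervalIntegral.integral_of_le hpi, integral_Ioc_eq_integral_Ioo] at h

theorem pompeiu :
    ∫ w, (fderiv ℝ g w 1 + I * fderiv ℝ g w I) / (w - z) = -(2 * π) * g z := by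
  have h0 : ∫ w, (fderiv ℝ g w 1 + I * fderiv ℝ g w I) / (w - z) =
      ∫ v, (fderiv ℝ g (z + v) 1 + I * fderiv ℝ g (z + v) I) / v := by
    rw [← integral_add_left_eq_self _ z]
    simp
  rw [h0, ← Complex.integral_comp_polarCoord_symm]
  have h1 : ∀ p ∈ polarCoord.target, p.1 • ((fderiv ℝ g (z + Complex.polarCoord.symm p) 1 +
      I * fderiv ℝ g (z + Complex.polarCoord.symm p) I) / Complex.polarCoord.symm p) =
      fderiv ℝ g (z + p.1 * ee p.2) (1 * ee p.2) + I * fderiv ℝ g (z + p.1 * ee p.2) (I * ee p.2) := by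
    intro p hp
    rw [polarCoord_target] at hp
    have hp0 : (p.1 : ℂ) ≠ 0 := by exact_mod_cast (ne_of_gt hp.1)
    have : Complex.polarCoord.symm p = p.1 * ee p.2 := by
      rw [Complex.polarCoord_symm_apply]
      rfl
    rw [this, one_mul, ← dbar_polar, Complex.real_smul]
    field_simp [ee_ne]
  rw [setIntegral_congr_fun polarCoord.open_target.measurableSet h1]
  have hm := polarCoord_target
  rw [hm]
  have i1 := integrableOn_F hg hc z 1
  have i2 := integrableOn_F hg hc z I
  rw [integral_add i1 (i2.const_mul I), integral_const_mul]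
  rw [Measure.volume_eq_prod, setIntegral_prod _ i2]
  have h2 : ∫ x in Ioi (0:ℝ), ∫ y in Ioo (-π) π, fderiv ℝ g (z + x * ee y) (I * ee y) = 0 := by
    rw [setIntegral_congr_fun measurableSet_Ioi (g := fun _ => (0:ℂ))
      (fun r hr => inner_θ hg z hr)]
    simp
  rw [h2, mul_zero, add_zero]
  have h3 : ∫ p in Ioi (0:ℝ) ×ˢ Ioo (-π) π, fderiv ℝ g (z + p.1 * ee p.2) (1 * ee p.2)
      ∂(volume.prod volume) = ∫ θ in Ioo (-π) π, ∫ r in Ioi (0:ℝ),
        fderiv ℝ g (z + r * ee θ) (1 * ee θ) := by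
    rw [← Measure.prod_restrict, integral_prod_symm]
    rw [Measure.prod_restrict]
    exact i1
  rw [h3]
  simp only [one_mul, inner_r hg hc z]
  have h4 : (volume : Measure ℝ).real (Ioo (-π) π) = 2 * π := by
    rw [Real.volume_real_Ioo_of_le (by linarith [Real.pi_pos])]
    ring
  rw [setIntegral_const, h4, Complex.real_smul]
  push_cast
  ring

end Pompeiu

/-! ### Approximation by entire functions -/

/-- Restrictions of entire functions. -/
def ent (K : Set ℂ) : Submodule ℂ C(K, ℂ) where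
  carrier := {F | ∃ G : ℂ → ℂ, Differentiable ℂ G ∧ ∀ z : K, F z = G z}
  add_mem' := by
    rintro F F' ⟨G, hG, h⟩ ⟨G', hG', h'⟩
    exact ⟨fun z => G z + G' z, hG.add hG', fun z => by simp [h, h']⟩
  zero_mem' := ⟨fun _ => 0, differentiable_const _, fun _ => rfl⟩
  smul_mem' := by
    rintro c F ⟨G, hG, h⟩
    exact ⟨fun z => c * G z, hG.const_mul c, fun z => by simp [h]⟩

/-- Points separated from `K` by an entire function. -/
def Sep (K : Set ℂ) : Set ℂ :=
  {w | ∃ G : ℂ → ℂ, Differentiable ℂ G ∧ 1 < ‖G w‖ ∧ ∀ z ∈ K, ‖G z‖ < 1}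

theorem isOpen_Sep (K : Set ℂ) : IsOpen (Sep K) := by
  rw [isOpen_iff_mem_nhds]
  rintro w ⟨G, hG, h1, h2⟩
  filter_upwards [(isOpen_lt continuous_const hG.continuous.norm).mem_nhds h1] with w' hw'
  exact ⟨G, hG, hw', h2⟩

theorem disjoint_Sep (K : Set ℂ) : Disjoint K (Sep K) := by
  rw [Set.disjoint_left]
  rintro z hz ⟨G, hG, h1, h2⟩
  exact absurd h1 (not_lt.2 (h2 z hz).le)

theorem isCompact_compl_Sep {K : Set ℂ} (hK : IsCompact K) : IsCompact (Sep K)ᶜ := by
  obtain ⟨R, hR0, hR⟩ := hK.isBounded.subset_ball_lt 0 0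
  refine (isCompact_closedBall (0:ℂ) R).of_isClosed_subset (isOpen_Sep K).isClosed_compl ?_
  intro w hw
  by_contra h
  rw [mem_closedBall, dist_zero_right, not_le] at h
  refine hw ⟨fun z => z / R, differentiable_id.div_const _, ?_, fun z hz => ?_⟩
  · rw [norm_div, Complex.norm_real, Real.norm_of_nonneg hR0.le, one_lt_div hR0]
    exact h
  · rw [norm_div, Complex.norm_real, Real.norm_of_nonneg hR0.le, div_lt_one hR0]
    simpa using hR hz

theorem kernel_mem {K : Set ℂ} [CompactSpace K] {w : ℂ} (hw : w ∈ Sep K) (F : C(K, ℂ))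
    (hF : ∀ z : K, F z = 1 / (w - z)) : F ∈ (ent K).topologicalClosure := by
  have hwK : ∀ z : K, (z : ℂ) ≠ w := fun z h =>
    (Set.disjoint_left.1 (disjoint_Sep K)) z.2 (h ▸ hw)
  obtain ⟨G, hG, h1, h2⟩ := hw
  have hGw : G w ≠ 0 := by
    rw [← norm_pos_iff]
    linarith
  set H : ℂ → ℂ := fun z => G z / G w with hH
  have hHd : Differentiable ℂ H := hG.div_const _
  have hHw : H w = 1 := div_self hGw
  set q : ℝ := 1 / ‖G w‖
  have hq0 : 0 ≤ q := by positivity
  have hq1 : q < 1 := by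
    rw [div_lt_one (by linarith)]
    exact h1
  have hHq : ∀ z : K, ‖H z‖ ≤ q := fun z => by
    rw [hH]
    simp only [norm_div]
    exact div_le_div_of_nonneg_right (h2 z z.2).le (norm_nonneg _)
  change F ∈ closure (ent K : Set C(K, ℂ))
  rw [Metric.mem_closure_iff]
  intro ε hε
  obtain ⟨n, hn⟩ := exists_pow_lt_of_lt_one (div_pos hε (by positivity : (0:ℝ) < ‖F‖ + 1)) hq1
  set Hn : C(K, ℂ) := ⟨fun z => H z ^ n, by
    exact (hHd.continuous.comp continuous_subtype_val).pow n⟩ with hHn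
  refine ⟨F - F * Hn, ⟨dslope (fun z => H z ^ n) w, ?_, fun z => ?_⟩, ?_⟩
  · rw [← differentiableOn_univ, Complex.differentiableOn_dslope univ_mem,
      differentiableOn_univ]
    exact hHd.pow n
  · have hzw := hwK z
    have hzw' : (z : ℂ) - w ≠ 0 := sub_ne_zero.2 hzw
    have hzw'' : w - (z : ℂ) ≠ 0 := sub_ne_zero.2 hzw.symm
    rw [dslope_of_ne _ hzw, slope_def_field, ContinuousMap.sub_apply, ContinuousMap.mul_apply,
      hF, hHn, ContinuousMap.coe_mk, hHw, one_pow]
    field_simp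
    ring
  · rw [dist_eq_norm, sub_sub_cancel]
    calc ‖F * Hn‖ ≤ ‖F‖ * q ^ n := by
          rw [ContinuousMap.norm_le _ (by positivity)]
          intro z
          rw [ContinuousMap.mul_apply, norm_mul]
          refine mul_le_mul (F.norm_coe_le_norm z) ?_ (norm_nonneg _) (norm_nonneg _)
          rw [hHn, ContinuousMap.coe_mk, norm_pow]
          exact pow_le_pow_left₀ (norm_nonneg _) (hHq z) n
      _ ≤ (‖F‖ + 1) * q ^ n := by gcongr; linarith
      _ < ε := by
          rw [lt_div_iff₀ (by positivity)] at hn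
          linarith

theorem integral_mem_closure {K S : Set ℂ} [CompactSpace K] (Ψ : ℂ → C(K, ℂ))
    (hS : MeasurableSet S) (hi : IntegrableOn Ψ S)
    (h : ∀ w ∈ S, Ψ w ∈ (ent K).topologicalClosure) :
    ∫ w in S, Ψ w ∈ (ent K).topologicalClosure := by
  have : IsClosed ((ent K).topologicalClosure : Set C(K, ℂ)) :=
    (ent K).isClosed_topologicalClosure
  have h1 := ((ent K).topologicalClosure.mkQL).integral_comp_comm hi
  rw [← Submodule.ker_mkQ (ent K).topologicalClosure, LinearMap.mem_ker]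
  rw [Submodule.mkQL_apply] at h1
  rw [← h1]
  refine (setIntegral_congr_fun hS (g := fun _ => 0) fun w hw => ?_).trans (by simp)
  rw [Submodule.mkQL_apply]
  have := h w hw
  rwa [← Submodule.ker_mkQ (ent K).topologicalClosure, LinearMap.mem_ker] at this

/-- Runge approximation. -/
theorem approx {A K : Set ℂ} (hA : IsOpen A) (hK : IsCompact K) (hsep : Aᶜ ⊆ Sep K)
    {k : ℂ → ℂ} (hk : DifferentiableOn ℂ k A) {ε : ℝ} (hε : 0 < ε) :
    ∃ G : ℂ → ℂ, Differentiable ℂ G ∧ ∀ z ∈ K, ‖k z - G z‖ < ε := by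
  have : CompactSpace K := isCompact_iff_compactSpace.1 hK
  have hKh := isCompact_compl_Sep hK
  have hsub : (Sep K)ᶜ ⊆ A := Set.compl_subset_comm.1 hsep
  have hKK : K ⊆ (Sep K)ᶜ := (disjoint_Sep K).subset_compl_right
  obtain ⟨T, hT, hKT, hTA⟩ := exists_compact_between hKh hA hsub
  obtain ⟨χ, hχ1, hχ0, -⟩ := exists_contMDiffMap_one_nhds_of_subset_interior (n := 1)
    (modelWithCornersSelf ℝ ℂ) hKh.isClosed hKT
  have hχ : ContDiff ℝ 1 χ := χ.contMDiff.contDiff
  obtain ⟨V₀, hV₀, hKV₀, hχV₀⟩ := mem_nhdsSet_iff_exists.1 hχ1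
  set V : Set ℂ := V₀ ∩ interior T with hV
  have hVo : IsOpen V := hV₀.inter isOpen_interior
  have hKV : (Sep K)ᶜ ⊆ V := subset_inter hKV₀ hKT
  set g : ℂ → ℂ := fun z => (χ z : ℂ) * k z with hg
  have hgT : ∀ z ∉ T, g z = 0 := fun z hz => by simp [hg, hχ0 z hz]
  have hgV : ∀ z ∈ V, g z = k z := fun z hz => by
    have : χ z = 1 := hχV₀ hz.1
    simp [hg, this]
  have hgd : ContDiff ℝ 1 g := by
    rw [contDiff_iff_contDiffAt]
    intro z
    by_cases hz : z ∈ A
    · have h1 : ContDiffAt ℝ 1 k z :=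
        ((hk.contDiffOn hA).contDiffAt (hA.mem_nhds hz)).restrict_scalars ℝ
      exact (ofRealCLM.contDiff.contDiffAt.comp z hχ.contDiffAt).mul h1
    · refine (contDiffAt_const (c := (0:ℂ))).congr_of_eventuallyEq ?_
      filter_upwards [hT.isClosed.isOpen_compl.mem_nhds (fun h => hz (hTA h))] with w hw
      exact hgT w hw
  have hgc : HasCompactSupport g := HasCompactSupport.intro hT hgT
  set D : ℂ → ℂ := fun w => fderiv ℝ g w 1 + I * fderiv ℝ g w I with hD
  have hDc : Continuous D :=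
    ((hgd.continuous_fderiv one_ne_zero).clm_apply continuous_const).add
      (continuous_const.mul ((hgd.continuous_fderiv one_ne_zero).clm_apply continuous_const))
  set S : Set ℂ := T \ V with hS
  have hSc : IsCompact S := hT.diff hVo
  have hD0 : ∀ w ∉ S, D w = 0 := by
    intro w hw
    by_cases hwT : w ∈ T
    · have hwV : w ∈ V := by
        by_contra h
        exact hw ⟨hwT, h⟩
      have h1 : g =ᶠ[𝓝 w] k := by
        filter_upwards [hVo.mem_nhds hwV] with z hz using hgV z hz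
      have h2 : DifferentiableAt ℂ k w := hk.differentiableAt (hA.mem_nhds (hTA hwT))
      have h3 : fderiv ℝ g w = (fderiv ℂ k w).restrictScalars ℝ := by
        rw [h1.fderiv_eq]
        exact h2.fderiv_restrictScalars ℝ
      simp only [hD, h3, ContinuousLinearMap.coe_restrictScalars']
      have h4 : fderiv ℂ k w I = I * fderiv ℂ k w 1 := by
        have := (fderiv ℂ k w).map_smul I 1
        simpa using this
      rw [h4, ← mul_assoc, I_mul_I]
      ring
    · have h1 : g =ᶠ[𝓝 w] fun _ => 0 := by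
        filter_upwards [hT.isClosed.isOpen_compl.mem_nhds hwT] with z hz using hgT z hz
      simp [hD, h1.fderiv_eq]
  have hSK : ∀ (w : S) (z : K), (w : ℂ) - z ≠ 0 := fun w z h =>
    w.2.2 (hKV (hKK (by rw [sub_eq_zero.1 h]; exact z.2)))
  let κ : C(S, C(K, ℂ)) := ContinuousMap.curry ⟨fun p : S × K => 1 / ((p.1 : ℂ) - p.2), by
    exact continuous_const.div ((continuous_subtype_val.comp continuous_fst).sub
      (continuous_subtype_val.comp continuous_snd)) fun p => hSK p.1 p.2⟩
  classical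
  let Ψ : ℂ → C(K, ℂ) := fun w => if h : w ∈ S then D w • κ ⟨w, h⟩ else 0
  have hΨ : ContinuousOn Ψ S := by
    rw [continuousOn_iff_continuous_domRestrict]
    have : S.domRestrict Ψ = fun w : S => D w • κ w := by
      ext w z
      simp [Ψ, Set.domRestrict]
    rw [this]
    exact (hDc.comp continuous_subtype_val).smul κ.continuous
  have hΨi : IntegrableOn Ψ S := hΨ.integrableOn_compact hSc
  have hmem : ∫ w in S, Ψ w ∈ (ent K).topologicalClosure := by
    refine integral_mem_closure Ψ hSc.measurableSet hΨi fun w hw => ?_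
    have hwS : w ∈ Sep K := by
      by_contra h
      exact hw.2 (hKV h)
    have : Ψ w = D w • κ ⟨w, hw⟩ := by simp [Ψ, hw]
    rw [this]
    exact Submodule.smul_mem _ _ (kernel_mem hwS _ fun z => rfl)
  have hval : ∀ z : K, (∫ w in S, Ψ w) z = -(2 * π) * k z := by
    intro z
    have h1 := (ContinuousMap.evalCLM ℂ z : C(K, ℂ) →L[ℂ] ℂ).integral_comp_comm hΨi
    have h2 : (∫ w in S, Ψ w) z = ∫ w in S, Ψ w z := h1.symm
    rw [h2, ← hgV z (hKV (hKK z.2)), ← pompeiu hgd hgc (z : ℂ)]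
    rw [← setIntegral_eq_integral_of_forall_compl_eq_zero (s := S)
      (f := fun w => (fderiv ℝ g w 1 + I * fderiv ℝ g w I) / (w - z))]
    · refine setIntegral_congr_fun hSc.measurableSet fun w hw => ?_
      have : Ψ w = D w • κ ⟨w, hw⟩ := by simp [Ψ, hw]
      simp only [this]
      change D w * (1 / (w - z)) = _
      rw [hD]
      ring
    · intro w hw
      have := hD0 w hw
      simp only [hD] at this
      rw [this, zero_div]
  let F : C(K, ℂ) := (-(1 / (2 * π)) : ℂ) • ∫ w in S, Ψ w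
  have hF : F ∈ (ent K).topologicalClosure := Submodule.smul_mem _ _ hmem
  have hFk : ∀ z : K, F z = k z := fun z => by
    change (-(1 / (2 * π)) : ℂ) * (∫ w in S, Ψ w) z = _
    rw [hval]
    have : (π : ℂ) ≠ 0 := by exact_mod_cast Real.pi_ne_zero
    field_simp
  obtain ⟨F', ⟨G, hG, hG'⟩, hd⟩ := Metric.mem_closure_iff.1
    (show F ∈ closure (ent K : Set C(K, ℂ)) from hF) ε hε
  refine ⟨G, hG, fun z hz => ?_⟩
  have h1 : ‖(F - F') ⟨z, hz⟩‖ ≤ ‖F - F'‖ := (F - F').norm_coe_le_norm _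
  rw [ContinuousMap.sub_apply, hFk, hG', ← dist_eq_norm] at h1
  rw [dist_eq_norm] at hd
  rw [← dist_eq_norm]
  exact h1.trans_lt hd

/-- The compact sets exhausting `U`. -/
def Kn (U : Set ℂ) (z₀ : ℂ) (n : ℕ) : Set ℂ :=
  closedBall z₀ n \ thickening (1 / ((n : ℝ) + 1)) Uᶜ

theorem isCompact_Kn (U : Set ℂ) (z₀ : ℂ) (n : ℕ) : IsCompact (Kn U z₀ n) :=
  (isCompact_closedBall z₀ n).diff isOpen_thickening

theorem Kn_subset (U : Set ℂ) (z₀ : ℂ) (n : ℕ) : Kn U z₀ n ⊆ U := by
  intro z hz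
  by_contra h
  exact hz.2 (self_subset_thickening (by positivity) _ h)

theorem eventually_Kn {U : Set ℂ} (z₀ : ℂ) {x : ℂ} {r : ℝ} (hr : 0 < r) (hU : ball x r ⊆ U) :
    ∀ᶠ n in atTop, ball x (r / 2) ⊆ Kn U z₀ n := by
  have h1 : ∀ᶠ n : ℕ in atTop, dist x z₀ + r < n :=
    tendsto_natCast_atTop_atTop.eventually_gt_atTop _
  have h2 : ∀ᶠ n : ℕ in atTop, 1 / ((n : ℝ) + 1) < r / 2 :=
    tendsto_one_div_add_atTop_nhds_zero_nat.eventually (gt_mem_nhds (by positivity))
  filter_upwards [h1, h2] with n h1 h2 y hy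
  rw [mem_ball] at hy
  refine ⟨?_, fun h => ?_⟩
  · rw [mem_closedBall]
    have := dist_triangle y x z₀
    linarith
  · rw [mem_thickening_iff] at h
    obtain ⟨v, hv, hv'⟩ := h
    refine hv (hU ?_)
    rw [mem_ball]
    have := dist_triangle_left v x y
    linarith

/-- A holomorphic function on an open set `A` with the hull property has a primitive on every open
preconnected subset. -/
theorem exists_primitive {A U : Set ℂ} (hA : IsOpen A) (hUo : IsOpen U) (hUc : IsPreconnected U)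
    (hUA : U ⊆ A) (hull : ∀ K ⊆ A, IsCompact K → Aᶜ ⊆ Sep K)
    {k : ℂ → ℂ} (hk : DifferentiableOn ℂ k A) {z₀ : ℂ} (hz₀ : z₀ ∈ U) :
    ∃ L : ℂ → ℂ, ∀ z ∈ U, HasDerivAt L (k z) z := by
  have h1 : ∀ n : ℕ, ∃ G : ℂ → ℂ, Differentiable ℂ G ∧
      ∀ z ∈ Kn U z₀ n, ‖k z - G z‖ < 1 / ((n : ℝ) + 1) := fun n =>
    approx hA (isCompact_Kn U z₀ n)
      (hull _ ((Kn_subset U z₀ n).trans hUA) (isCompact_Kn U z₀ n)) hk (by positivity)
  choose G hG hGk using h1
  have h2 : ∀ n, ∃ P : ℂ → ℂ, P z₀ = 0 ∧ ∀ z ∈ (univ : Set ℂ), HasDerivAt P (G n z) z := fun n =>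
    (hG n).isExactOn_univ.with_val_at z₀ 0
  choose P hP0 hP using h2
  have hunif : ∀ x r, 0 < r → ball x r ⊆ U → TendstoUniformlyOn G k atTop (ball x (r / 2)) := by
    intro x r hr hxr
    rw [Metric.tendstoUniformlyOn_iff]
    intro ε hε
    have h3 : ∀ᶠ n : ℕ in atTop, 1 / ((n : ℝ) + 1) < ε :=
      tendsto_one_div_add_atTop_nhds_zero_nat.eventually (gt_mem_nhds hε)
    filter_upwards [eventually_Kn z₀ hr hxr, h3] with n h4 h5 y hy
    rw [dist_eq_norm]
    exact (hGk n y (h4 hy)).trans h5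
  have hloc : TendstoLocallyUniformlyOn G k atTop U := by
    rw [Metric.tendstoLocallyUniformlyOn_iff]
    intro ε hε x hx
    obtain ⟨r, hr, hxr⟩ := Metric.isOpen_iff.1 hUo x hx
    refine ⟨ball x (r / 2), mem_nhdsWithin_of_mem_nhds (ball_mem_nhds x (by positivity)), ?_⟩
    exact Metric.tendstoUniformlyOn_iff.1 (hunif x r hr hxr) ε hε
  have hC : ∀ x ∈ U, Cauchy (map (fun n => P n x) atTop) := by
    intro x hx
    have key := hUc.induction₂ (fun x y => (Cauchy (map (fun n => P n x) atTop) ↔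
      Cauchy (map (fun n => P n y) atTop))) (fun x hx => ?_)
      (fun x y z _ _ _ h h' => h.trans h') (fun x y _ _ h => h.symm) hz₀ hx
    · refine key.1 ?_
      have : (fun n => P n z₀) = fun _ => (0:ℂ) := funext hP0
      rw [this]
      exact tendsto_const_nhds.cauchy_map
    · obtain ⟨r, hr, hxr⟩ := Metric.isOpen_iff.1 hUo x hx
      have hu := (hunif x r hr hxr).uniformCauchySeqOn
      have hb : ball x (r / 4) ∈ 𝓝[U] x :=
        mem_nhdsWithin_of_mem_nhds (ball_mem_nhds x (by positivity))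
      filter_upwards [hb] with y hy
      rw [mem_ball] at hy
      constructor
      · intro h
        have := uniformCauchySeqOn_ball_of_deriv (f := P) hu (fun n y _ => hP n y (mem_univ y)) h
        exact this.cauchy_map (by rw [mem_ball]; linarith)
      · intro h
        have hsub : ball y (r / 4) ⊆ ball x (r / 2) := by
          intro v hv
          rw [mem_ball] at hv ⊢
          have := dist_triangle v y x
          linarith
        have := uniformCauchySeqOn_ball_of_deriv (f := P) (hu.mono hsub)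
          (fun n y _ => hP n y (mem_univ y)) h
        exact this.cauchy_map (by rwa [mem_ball, dist_comm])
  have hL : ∀ x ∈ U, ∃ l, Tendsto (fun n => P n x) atTop (𝓝 l) := fun x hx =>
    cauchy_map_iff_exists_tendsto.1 (hC x hx)
  choose! L hL using hL
  exact ⟨L, fun z hz => hasDerivAt_of_tendstoLocallyUniformlyOn hUo hloc
    (Eventually.of_forall fun n x _ => hP n x (mem_univ x)) hL hz⟩

end Runge

theorem sqrt_of_hull {A U : Set ℂ} (hA : IsOpen A) (hUo : IsOpen U) (hUc : IsPreconnected U)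
    (hUA : U ⊆ A) (hcl : IsOpen (A \ U))
    (hull : ∀ K ⊆ A, IsCompact K → ∀ a ∉ A, ∃ G : ℂ → ℂ, Differentiable ℂ G ∧ G a = 1 ∧
      ∀ z ∈ K, ‖G z‖ ≤ 1 / 2)
    (u : ℂ → ℂ) (hu : DifferentiableOn ℂ u U) (hu0 : ∀ z ∈ U, u z ≠ 0) :
    ∃ s : ℂ → ℂ, DifferentiableOn ℂ s U ∧ ∀ z ∈ U, s z ^ 2 = u z := by
  classical
  rcases U.eq_empty_or_nonempty with rfl | ⟨z₀, hz₀⟩
  · exact ⟨fun _ => 0, differentiableOn_empty, fun z hz => hz.elim⟩
  have hull' : ∀ K ⊆ A, IsCompact K → Aᶜ ⊆ Runge.Sep K := by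
    intro K hKA hK a ha
    obtain ⟨G, hG, h1, h2⟩ := hull K hKA hK a ha
    refine ⟨fun z => 3 / 2 * G z, hG.const_mul _, ?_, fun z hz => ?_⟩
    · simp only [h1]
      norm_num
    · simp only [norm_mul]
      have := h2 z hz
      norm_num
      linarith
  set k : ℂ → ℂ := U.indicator fun z => deriv u z / u z with hk
  have hkA : DifferentiableOn ℂ k A := by
    intro z hz
    refine DifferentiableAt.differentiableWithinAt ?_
    by_cases hzU : z ∈ U
    · have h1 : DifferentiableAt ℂ (fun z => deriv u z / u z) z :=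
        ((hu.deriv hUo).differentiableAt (hUo.mem_nhds hzU)).div
          (hu.differentiableAt (hUo.mem_nhds hzU)) (hu0 z hzU)
      refine h1.congr_of_eventuallyEq ?_
      filter_upwards [hUo.mem_nhds hzU] with w hw
      rw [hk, indicator_of_mem hw]
    · refine (differentiableAt_const (0:ℂ)).congr_of_eventuallyEq ?_
      filter_upwards [hcl.mem_nhds ⟨hz, hzU⟩] with w hw
      rw [hk, indicator_of_notMem hw.2]
  obtain ⟨L, hL⟩ := Runge.exists_primitive hA hUo hUc hUA hull' hkA hz₀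
  have hderiv : ∀ z ∈ U, HasDerivAt (fun z => u z * Complex.exp (-L z)) 0 z := by
    intro z hz
    have h1 := ((hu.differentiableAt (hUo.mem_nhds hz)).hasDerivAt).mul (hL z hz).neg.cexp
    refine h1.congr_deriv ?_
    rw [hk, indicator_of_mem hz]
    field_simp [hu0 z hz]
    ring
  have hconst : ∀ z ∈ U, u z * Complex.exp (-L z) = u z₀ * Complex.exp (-L z₀) := fun z hz =>
    hUo.is_const_of_deriv_eq_zero hUc
      (fun w hw => (hderiv w hw).differentiableAt.differentiableWithinAt)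
      (fun w hw => (hderiv w hw).deriv) hz hz₀
  obtain ⟨c, hc⟩ := IsAlgClosed.exists_pow_nat_eq (u z₀ * Complex.exp (-L z₀)) (n := 2)
    (by norm_num)
  refine ⟨fun z => c * Complex.exp (L z / 2), fun z hz => ?_, fun z hz => ?_⟩
  · exact (((hL z hz).differentiableAt.div_const 2).cexp.const_mul c).differentiableWithinAt
  · rw [mul_pow, hc, ← hconst z hz, ← Complex.exp_nat_mul, mul_assoc, ← Complex.exp_add]
    have : -L z + ((2:ℕ):ℂ) * (L z / 2) = 0 := by push_cast; ring
    rw [this, Complex.exp_zero, mul_one]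

end Pool.Agent.BB
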