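import Pool.Agent.BB.Core9
import Pool.Agent.BB.RMT
import Pool.Agent.BB.Runge
import Pool.Agent.BB.Radial

/-!
# Basin boundaries: the main theorem
-/

open Set Metric Filter Topology MeasureTheory

namespace Pool.Agent.BB

/-! ### Attracting fixed points of an entire function -/

section Attr

variable {F : ℂ → ℂ} {ζ : ℂ}

/-- the attracting basin of a fixed point -/
def Att (F : ℂ → ℂ) (ζ : ℂ) : Set ℂ := {z | Tendsto (fun n : ℕ => F^[n] z) atTop (𝓝 ζ)}

lemma local_attr (hF : Differentiable ℂ F) (hζ : F ζ = ζ) (hd : ‖deriv F ζ‖ < 1) :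
    ∃ r > 0, ∃ c : ℝ, 0 ≤ c ∧ c < 1 ∧ ∀ z ∈ ball ζ r, ‖F z - ζ‖ ≤ c * ‖z - ζ‖ := by
  obtain ⟨c, hc1, hc2⟩ := exists_between hd
  have h1 : HasDerivAt F (deriv F ζ) ζ := (hF ζ).hasDerivAt
  have h2 := h1.hasFDerivAt.isLittleO
  have h3 := h2.def (show 0 < c - ‖deriv F ζ‖ by linarith)
  rw [Metric.eventually_nhds_iff_ball] at h3
  obtain ⟨r, hr, h4⟩ := h3
  refine ⟨r, hr, c, (norm_nonneg _).trans hc1.le, hc2, fun z hz => ?_⟩
  have h5 := h4 z hz
  rw [hζ] at h5
  have h6 : F z - ζ = (F z - ζ - (z - ζ) * deriv F ζ) + (z - ζ) * deriv F ζ := by ring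
  have h7 : ‖F z - ζ - (z - ζ) * deriv F ζ‖ ≤ (c - ‖deriv F ζ‖) * ‖z - ζ‖ := by
    simpa using h5
  rw [h6]
  refine (norm_add_le _ _).trans ?_
  rw [norm_mul]
  nlinarith [norm_nonneg (z - ζ)]

lemma iter_contract {r c : ℝ} (hc0 : 0 ≤ c) (hc1 : c < 1)
    (h : ∀ z ∈ ball ζ r, ‖F z - ζ‖ ≤ c * ‖z - ζ‖) (n : ℕ) :
    ∀ z ∈ ball ζ r, ‖F^[n] z - ζ‖ ≤ c ^ n * ‖z - ζ‖ ∧ F^[n] z ∈ ball ζ r := by
  induction n with
  | zero => intro z hz; simpa using hz
  | succ n ih =>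
    intro z hz
    obtain ⟨h1, h2⟩ := ih z hz
    rw [Function.iterate_succ_apply']
    have h3 := h _ h2
    have h4 : ‖F (F^[n] z) - ζ‖ ≤ c ^ (n + 1) * ‖z - ζ‖ := by
      calc ‖F (F^[n] z) - ζ‖ ≤ c * ‖F^[n] z - ζ‖ := h3
        _ ≤ c * (c ^ n * ‖z - ζ‖) := by gcongr
        _ = c ^ (n + 1) * ‖z - ζ‖ := by ring
    refine ⟨h4, ?_⟩
    rw [mem_ball, dist_eq_norm] at h2 ⊢
    calc ‖F (F^[n] z) - ζ‖ ≤ c * ‖F^[n] z - ζ‖ := h3
      _ ≤ 1 * ‖F^[n] z - ζ‖ := by gcongr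
      _ < r := by rw [one_mul]; exact h2

lemma ball_sub_att {r c : ℝ} (hc0 : 0 ≤ c) (hc1 : c < 1)
    (h : ∀ z ∈ ball ζ r, ‖F z - ζ‖ ≤ c * ‖z - ζ‖) : ball ζ r ⊆ Att F ζ := by
  intro z hz
  have h1 : Tendsto (fun n : ℕ => c ^ n * ‖z - ζ‖) atTop (𝓝 0) := by
    have := (tendsto_pow_atTop_nhds_zero_of_lt_one hc0 hc1).mul_const ‖z - ζ‖
    simpa using this
  have h2 : Tendsto (fun n : ℕ => F^[n] z - ζ) atTop (𝓝 0) :=
    squeeze_zero_norm (fun n => (iter_contract hc0 hc1 h n z hz).1) h1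
  have h3 := h2.add_const ζ
  simpa [Att] using h3

lemma iter_mem_att {z : ℂ} (n : ℕ) : F^[n] z ∈ Att F ζ ↔ z ∈ Att F ζ := by
  simp only [Att, mem_setOf_eq]
  have h1 : (fun m : ℕ => F^[m] (F^[n] z)) = fun m : ℕ => F^[m + n] z := by
    ext m; rw [Function.iterate_add_apply]
  rw [h1, tendsto_add_atTop_iff_nat (f := fun m => F^[m] z)]

lemma att_open (hF : Differentiable ℂ F) (hζ : F ζ = ζ) (hd : ‖deriv F ζ‖ < 1) :
    IsOpen (Att F ζ) := by
  obtain ⟨r, hr, c, hc0, hc1, h⟩ := local_attr hF hζ hd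
  rw [isOpen_iff_mem_nhds]
  intro z hz
  obtain ⟨n, hn⟩ := (hz.eventually (isOpen_ball.mem_nhds (mem_ball_self hr))).exists
  have h1 : F^[n] ⁻¹' ball ζ r ∈ 𝓝 z :=
    ((hF.iterate n).continuous.continuousAt).preimage_mem_nhds (isOpen_ball.mem_nhds hn)
  filter_upwards [h1] with w hw
  exact (iter_mem_att n).mp (ball_sub_att hc0 hc1 h hw)

/-- uniform convergence on compact subsets of the basin -/
lemma att_unif (hF : Differentiable ℂ F) (hζ : F ζ = ζ) (hd : ‖deriv F ζ‖ < 1)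
    {K : Set ℂ} (hK : IsCompact K) (hKA : K ⊆ Att F ζ) {ε : ℝ} (hε : 0 < ε) :
    ∃ N : ℕ, ∀ n ≥ N, ∀ z ∈ K, ‖F^[n] z - ζ‖ < ε := by
  obtain ⟨r, hr, c, hc0, hc1, h⟩ := local_attr hF hζ hd
  set V : ℕ → Set ℂ := fun n => F^[n] ⁻¹' ball ζ r with hV
  have hVo : ∀ n, IsOpen (V n) := fun n => isOpen_ball.preimage (hF.iterate n).continuous
  have hVm : Monotone V := by
    refine monotone_nat_of_le_succ fun n z hz => ?_
    simp only [hV, mem_preimage] at hz ⊢
    rw [Function.iterate_succ_apply']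
    have := (iter_contract hc0 hc1 h 1 _ hz).2
    simpa using this
  have hKV : K ⊆ ⋃ n, V n := by
    intro z hz
    obtain ⟨n, hn⟩ := ((hKA hz).eventually (isOpen_ball.mem_nhds (mem_ball_self hr))).exists
    exact mem_iUnion.mpr ⟨n, hn⟩
  obtain ⟨N, hN⟩ := hK.elim_directed_cover V hVo hKV hVm.directed_le
  have h1 : Tendsto (fun n : ℕ => c ^ n * r) atTop (𝓝 0) := by
    have := (tendsto_pow_atTop_nhds_zero_of_lt_one hc0 hc1).mul_const r
    simpa using this
  obtain ⟨M, hM⟩ := (h1.eventually (gt_mem_nhds hε)).exists_forall_of_atTop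
  refine ⟨N + M, fun n hn z hz => ?_⟩
  have hz1 : F^[N] z ∈ ball ζ r := hN hz
  have h2 : n = (n - N) + N := by omega
  rw [h2, Function.iterate_add_apply]
  have h3 := (iter_contract hc0 hc1 h (n - N) _ hz1).1
  have h4 := hM (n - N) (by omega)
  refine h3.trans_lt (lt_of_le_of_lt ?_ h4)
  have h5 : ‖F^[N] z - ζ‖ ≤ r := by
    rw [← dist_eq_norm]; exact (mem_ball.mp hz1).le
  gcongr

/-- entire convexity of the basin -/
lemma att_hull (hF : Differentiable ℂ F) (hζ : F ζ = ζ) (hd : ‖deriv F ζ‖ < 1)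
    {K : Set ℂ} (hKA : K ⊆ Att F ζ) (hK : IsCompact K) {a : ℂ} (ha : a ∉ Att F ζ) :
    ∃ G : ℂ → ℂ, Differentiable ℂ G ∧ G a = 1 ∧ ∀ z ∈ K, ‖G z‖ ≤ 1 / 2 := by
  -- a does not converge
  obtain ⟨ε, hε, hfr⟩ : ∃ ε > 0, ∃ᶠ n in atTop, ε ≤ ‖F^[n] a - ζ‖ := by
    by_contra hcon
    push Not at hcon
    apply ha
    simp only [Att, mem_setOf_eq]
    rw [Metric.tendsto_atTop]
    intro ε hε
    obtain ⟨N, hN⟩ := (hcon ε hε).exists_forall_of_atTop
    refine ⟨N, fun n hn => ?_⟩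
    rw [dist_eq_norm]
    exact hN n hn
  obtain ⟨N, hN⟩ := att_unif hF hζ hd hK hKA (half_pos hε)
  obtain ⟨n, hn, hna⟩ := (frequently_atTop.mp hfr) N
  have hne : F^[n] a - ζ ≠ 0 := by
    intro h; rw [h, norm_zero] at hna; linarith
  refine ⟨fun z => (F^[n] z - ζ) / (F^[n] a - ζ), ?_, div_self hne, fun z hz => ?_⟩
  · exact ((hF.iterate n).sub_const ζ).div_const _
  · rw [norm_div, div_le_iff₀ (norm_pos_iff.mpr hne)]
    have := hN n hn z hz
    linarith

/-- circles around points outside the basin are not contained in the basin -/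
lemma att_circle (hF : Differentiable ℂ F) (hζ : F ζ = ζ) (hd : ‖deriv F ζ‖ < 1)
    {p : ℂ} (hp : p ∉ Att F ζ) {t : ℝ} (ht : 0 < t) : ∃ y, ‖y - p‖ = t ∧ y ∉ Att F ζ := by
  by_contra hcon
  push Not at hcon
  have hK : sphere p t ⊆ Att F ζ := by
    intro y hy
    rw [mem_sphere, dist_eq_norm] at hy
    exact hcon y hy
  obtain ⟨G, hG, hG1, hG2⟩ := att_hull hF hζ hd hK (isCompact_sphere p t) hp
  have h1 : ‖G p‖ ≤ 1 / 2 := by
    have hb : Bornology.IsBounded (ball p t) := isBounded_ball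
    refine Complex.norm_le_of_forall_mem_frontier_norm_le hb (hG.diffContOnCl) ?_ 
      (subset_closure (mem_ball_self ht))
    intro z hz
    rw [frontier_ball p ht.ne'] at hz
    exact hG2 z hz
  rw [hG1, norm_one] at h1
  norm_num at h1

end Attr

/-! ### Branches on discs avoiding the postsingular set -/

lemma branch_exists {f : ℂ → ℂ} (hf : Differentiable ℂ f) {D : Set ℂ} (hDo : IsOpen D)
    (hDc : Convex ℝ D) (hD : ∀ x ∈ D, x ∉ PostSing f) : ∀ (m : ℕ) (v : ℂ), f^[m] v ∈ D →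
    ∃ h : ℂ → ℂ, DifferentiableOn ℂ h D ∧ (∀ x ∈ D, f^[m] (h x) = x) ∧ h (f^[m] v) = v := by
  intro m
  induction m with
  | zero =>
    intro v hv
    exact ⟨id, differentiableOn_id, fun x _ => rfl, rfl⟩
  | succ m ih =>
    intro v hv
    rw [Function.iterate_succ_apply] at hv
    obtain ⟨h1, hd1, he1, h01⟩ := ih (f v) hv
    have hmW : MapsTo h1 D (SingVals f univ)ᶜ := by
      intro x hx hs
      apply hD x hx
      apply subset_closure
      exact mem_iUnion.mpr ⟨m, h1 x, hs, he1 x hx⟩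
    obtain ⟨h, hd, -, he, h0⟩ := lift_convex hf isOpen_univ (W := (SingVals f univ)ᶜ)
      (fun w hw => hw) hDc hDo hd1 hmW hv (z₀ := v) (mem_univ v) (by rw [h01])
    refine ⟨h, hd, fun x hx => ?_, ?_⟩
    · rw [Function.iterate_succ_apply, he x hx, he1 x hx]
    · rw [Function.iterate_succ_apply, h0]

/-! ### The basin of a cycle -/

section Cycle

variable {f : ℂ → ℂ} {k : ℕ} {ζ : ℂ}

lemma iterate_iterate (n : ℕ) (z : ℂ) : (f^[k])^[n] z = f^[k * n] z := by
  rw [Function.iterate_mul]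

lemma basin_iff (hf : Differentiable ℂ f) (hk : 1 ≤ k) (hζ : f^[k] ζ = ζ) {z : ℂ} :
    z ∈ Basin f k ζ ↔ ∃ i : ℕ, f^[i] z ∈ Att f^[k] ζ := by
  constructor
  · rintro ⟨j, hj, hz⟩
    refine ⟨k - j, ?_⟩
    have h1 : Tendsto (fun n : ℕ => f^[k - j] (f^[k * n] z)) atTop (𝓝 (f^[k - j] (f^[j] ζ))) :=
      ((hf.iterate (k - j)).continuous.tendsto _).comp hz
    rw [← Function.iterate_add_apply, Nat.sub_add_cancel hj.le, hζ] at h1
    simp only [Att, mem_setOf_eq]
    refine h1.congr fun n => ?_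
    rw [iterate_iterate, ← Function.iterate_add_apply, ← Function.iterate_add_apply, add_comm]
  · rintro ⟨i, hi⟩
    simp only [Att, mem_setOf_eq] at hi
    set m := k * i - i with hm
    have hmi : m + i = k * i := by
      have : i ≤ k * i := Nat.le_mul_of_pos_left i (by omega)
      omega
    refine ⟨m % k, Nat.mod_lt _ (by omega), ?_⟩
    have h1 : Tendsto (fun n : ℕ => f^[m] ((f^[k])^[n] (f^[i] z))) atTop (𝓝 (f^[m] ζ)) :=
      ((hf.iterate m).continuous.tendsto _).comp hi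
    have h2 : f^[m] ζ = f^[m % k] ζ := by
      conv_lhs => rw [← Nat.mod_add_div m k]
      rw [Function.iterate_add_apply]
      congr 1
      rw [← iterate_iterate]
      exact Function.iterate_fixed hζ _
    rw [h2] at h1
    have h3 : Tendsto (fun n : ℕ => f^[k * (n + i)] z) atTop (𝓝 (f^[m % k] ζ)) := by
      refine h1.congr fun n => ?_
      rw [iterate_iterate, ← Function.iterate_add_apply, ← Function.iterate_add_apply]
      congr 1
      rw [mul_add, ← hmi]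
      ring_nf
    exact (tendsto_add_atTop_iff_nat (f := fun n => f^[k * n] z) i).mp h3

lemma basin_step (hf : Differentiable ℂ f) (hk : 1 ≤ k) (hζ : f^[k] ζ = ζ) {z : ℂ} :
    f z ∈ Basin f k ζ ↔ z ∈ Basin f k ζ := by
  rw [basin_iff hf hk hζ, basin_iff hf hk hζ]
  constructor
  · rintro ⟨i, hi⟩
    refine ⟨i + 1, ?_⟩
    rwa [Function.iterate_succ_apply]
  · rintro ⟨i, hi⟩
    refine ⟨k - 1 + i, ?_⟩
    have h1 := (iter_mem_att (F := f^[k]) (ζ := ζ) 1).mpr hi
    rw [Function.iterate_one, ← Function.iterate_add_apply] at h1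
    rw [← Function.iterate_succ_apply]
    have h2 : (k - 1 + i).succ = k + i := by omega
    rwa [h2]

lemma basin_iter (hf : Differentiable ℂ f) (hk : 1 ≤ k) (hζ : f^[k] ζ = ζ) (m : ℕ) {z : ℂ} :
    f^[m] z ∈ Basin f k ζ ↔ z ∈ Basin f k ζ := by
  induction m generalizing z with
  | zero => rfl
  | succ m ih => rw [Function.iterate_succ_apply, ih, basin_step hf hk hζ]

lemma basin_open (hf : Differentiable ℂ f) (hk : 1 ≤ k) (hζ : f^[k] ζ = ζ)
    (hattr : ‖deriv f^[k] ζ‖ < 1) : IsOpen (Basin f k ζ) := by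
  have h1 : Basin f k ζ = ⋃ i : ℕ, f^[i] ⁻¹' Att f^[k] ζ := by
    ext z
    rw [basin_iff hf hk hζ]
    simp
  rw [h1]
  exact isOpen_iUnion fun i =>
    (att_open (hf.iterate k) hζ hattr).preimage (hf.iterate i).continuous

lemma att_sub_basin (hf : Differentiable ℂ f) (hk : 1 ≤ k) (hζ : f^[k] ζ = ζ) :
    Att f^[k] ζ ⊆ Basin f k ζ := fun z hz => (basin_iff hf hk hζ).mpr ⟨0, hz⟩

lemma self_mem_att (hζ : f^[k] ζ = ζ) : ζ ∈ Att f^[k] ζ := by
  simp only [Att, mem_setOf_eq]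
  have : (fun n : ℕ => (f^[k])^[n] ζ) = fun _ => ζ := by
    ext n; exact Function.iterate_fixed hζ n
  rw [this]
  exact tendsto_const_nhds

lemma comp_sub_att (hf : Differentiable ℂ f) (hk : 1 ≤ k) (hζ : f^[k] ζ = ζ)
    (hattr : ‖deriv f^[k] ζ‖ < 1) : connectedComponentIn (Basin f k ζ) ζ ⊆ Att f^[k] ζ := by
  have hAo := att_open (hf.iterate k) hζ hattr
  refine isPreconnected_connectedComponentIn.subset_of_closure_inter_subset hAo ?_ ?_
  · exact ⟨ζ, mem_connectedComponentIn (att_sub_basin hf hk hζ (self_mem_att hζ)),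
      self_mem_att hζ⟩
  · rintro z ⟨hzcl, hzU⟩
    obtain ⟨j, hj, hz⟩ := connectedComponentIn_subset _ _ hzU
    -- neighbourhood of z on which the iterates tend to f^j ζ
    have hN : IsOpen (f^[k - j] ⁻¹' Att f^[k] ζ) := hAo.preimage (hf.iterate _).continuous
    have hlim : ∀ y ∈ f^[k - j] ⁻¹' Att f^[k] ζ,
        Tendsto (fun n : ℕ => f^[k * n] y) atTop (𝓝 (f^[j] ζ)) := by
      intro y hy
      have h1 : Tendsto (fun n : ℕ => f^[j] ((f^[k])^[n] (f^[k - j] y))) atTop (𝓝 (f^[j] ζ)) :=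
        ((hf.iterate j).continuous.tendsto _).comp hy
      have h2 : Tendsto (fun n : ℕ => f^[k * (n + 1)] y) atTop (𝓝 (f^[j] ζ)) := by
        refine h1.congr fun n => ?_
        rw [iterate_iterate, ← Function.iterate_add_apply, ← Function.iterate_add_apply]
        congr 1
        have : k * (n + 1) = k * n + k := by ring
        omega
      exact (tendsto_add_atTop_iff_nat (f := fun n => f^[k * n] y) 1).mp h2
    have hzN : z ∈ f^[k - j] ⁻¹' Att f^[k] ζ := by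
      have h1 : Tendsto (fun n : ℕ => f^[k - j] (f^[k * n] z)) atTop
          (𝓝 (f^[k - j] (f^[j] ζ))) :=
        ((hf.iterate (k - j)).continuous.tendsto _).comp hz
      rw [← Function.iterate_add_apply, Nat.sub_add_cancel hj.le, hζ] at h1
      simp only [Att, mem_preimage, mem_setOf_eq]
      refine h1.congr fun n => ?_
      rw [iterate_iterate, ← Function.iterate_add_apply, ← Function.iterate_add_apply, add_comm]
    rw [_root_.mem_closure_iff] at hzcl
    obtain ⟨y, hyN, hyA⟩ := hzcl _ hN hzN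
    have h3 : f^[j] ζ = ζ := by
      have h4 := hlim y hyN
      have h5 : Tendsto (fun n : ℕ => f^[k * n] y) atTop (𝓝 ζ) := by
        refine Tendsto.congr (fun n => iterate_iterate n y) hyA
      exact tendsto_nhds_unique h4 h5
    simp only [Att, mem_setOf_eq]
    rw [h3] at hz
    exact Tendsto.congr (fun n => (iterate_iterate n z).symm) hz

end Cycle

end Pool.Agent.BB
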